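import Pool.Agent.Lib.MP_af3a4a_an.P1.CHK.DATA.N60x61.C0
import Pool.Agent.Lib.MP_af3a4a_an.P1.CHK.DATA.N60x61.C1
import Pool.Agent.Lib.MP_af3a4a_an.P1.CHK.DATA.F.W144a
import Pool.Agent.Lib.MP_af3a4a_an.P1.CHK.DATA.F.W192a
import Pool.Agent.Lib.MP_af3a4a_an.P1.CHK.DATA.F.W240a
import Pool.Agent.Lib.MP_af3a4a_an.P1.CHK.DATA.F.W288a
import Pool.Agent.Lib.MP_af3a4a_an.P1.CHK.DATA.F.W336a
import Pool.Agent.Lib.MP_af3a4a_an.P1.CHK.DATA.F.W384a
import Pool.Agent.Lib.MP_af3a4a_an.P1.CHK.DATA.F.W432a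
import Pool.Agent.Lib.MP_af3a4a_an.P1.CHK.DATA.F.W432b
import Pool.Agent.Lib.MP_af3a4a_an.P1.CHK.DATA.F.W480a
import Pool.Agent.Lib.MP_af3a4a_an.P1.CHK.DATA.F.W480b
import Pool.Agent.Lib.MP_af3a4a_an.P1.CHK.DATA.F.W528a
import Pool.Agent.Lib.MP_af3a4a_an.P1.CHK.DATA.F.W528b
import Pool.Agent.Lib.MP_af3a4a_an.P1.CHK.DATA.F.W528c
import Pool.Agent.Lib.MP_af3a4a_an.P1.CHK.DATA.F.W528d
import Pool.Agent.Lib.MP_af3a4a_an.P1.CHK.DATA.F.W576a
import Pool.Agent.Lib.MP_af3a4a_an.P1.CHK.DATA.F.W576b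
import Pool.Agent.Lib.MP_af3a4a_an.P1.CHK.DATA.F.W576c
import Pool.Agent.Lib.MP_af3a4a_an.P1.CHK.DATA.F.W576d
import Pool.Agent.Lib.MP_af3a4a_an.P1.CHK.DATA.F.W576e

/-! chunks for 60 <= N <= 61 (generated) -/

set_option autoImplicit false
set_option maxRecDepth 100000

namespace Pool.Agent.Lib.MP_af3a4a_an.P1.CHK.DATA.N60x61

open BOX

def t5 : Tree := (.sR 432 (.leaf 0x42000000000602d018a08cf0a25420f00) (.sR 528 (.leaf 0x44000000000802c020880183f97441180) (.sr 768 (.sR 1152 (.sR 864 (.sR 720 (.sR 624 (.leaf 0x44000000000a02b0287815dd997441180) (.sR 672 (.leaf 0x440080407c080020307c0ef7b97441100) (.leaf 0x4400c04080080020387c03ac197441100))) (.sR 768 (.leaf 0x4201004064080020407c3632697421100) (.sR 816 (.leaf 0x42018040dc080020508859d7071421100) (.leaf 0x3c02c040e408002078c093b604b3c1100)))) (.sR 1008 (.sR 912 (.leaf 0x3e0340408408002088c08b95f253e1100) (.sR 960 (.leaf 0x44c18040ec080020500000000e8445104) (.leaf 0x3e040040f4080020a0b1014e04b3e1100)))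 (.sR 1056 (.leaf 0x38048000f8060180a95c15d9125381000) (.sR 1104 (.leaf 0x4604c04104080020b89a2fc4071461100) (.leaf 0x38050040880801d0c0d49181b25381080))))) (.sR 1440 (.sR 1296 (.sR 1200 (.leaf 0x3804c00108080180b9d801f1d25381000) (.sR 1248 (.leaf 0x380580408c0801d0d0cca408b25381080) (.leaf 0x3805400110080180c9b803d1825381000))) (.sR 1344 (.leaf 0x3805800118080180d1ac0500325381000) (.sR 1392 (.leaf 0x38064040680801d0e8c0c1d8725381080) (.leaf 0x3805804120080180d11c098ad25381000)))) (.sR 1584 (.sR 1488 (.leaf 0x3806c0412c0801d0f8b8d711a25381080) (.sR 1536 (.sg 72 (.leaf 0x380700006c0800b100b4e215d25381080) (.leaf 0x380700006c08026100b4e215d25381080)) (.leaf 0x4c06804090080020f07ac3494974c1100))) (.sR 1632 (.leaf 0x4c06804094080020f076978a9974c1100) (.sR 1680 (.leaf 0x4c06804098080020f07286c3f974c1100) (.sg 72 (.sR 1872 (.sR 1776 (.sR 1728 (.leaf 0x38080000540800b120a910dae25381080) (.leaf 0x380840402c0800b128a52aa0825381080)) (.sR 1824 (.leaf 0x3e088000700800b130a17903f253e1080)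 (.leaf 0x38088040a40800b130acfc7aa25381080))) (.sR 1968 (.sR 1920 (.leaf 0x3808c040440800b138a9089a325381080) (.leaf 0x3a090040ac0800b140a6091b24b3a1080)) (.sR 2016 (.leaf 0x3e094040180800b148a2306784b3e1080) (.sr 640 (.sR 2256 (.sR 2112 (.sR 2064 (.leaf 0x380900415008005141b803d1825381000) (.leaf 0x3809004154080051416002a6a25381000)) (.sR 2160 (.leaf 0x380980415808005151a4064fe25381000) (.sR 2208 (.leaf 0x460a4040100801016896e017e4b461080) (.leaf 0x3a0a404008080101689f155d34b3a1080)))) (.sR 2352 (.sR 2304 (.leaf 0x4a0ac000200801017892f6fb3714a1080) (.leaf 0x440ac00038080101789abbfae71441080)) (.sR 2400 (.leaf 0x3e0a800048080101789eef418713e1080) (.sR 2448 (.leaf 0x3e0ac00004080101789ad43ae713e1080) (.leaf 0x3e0ac040000801017896c9a02713e1080))))) (.sR 2256 (.sR 2112 (.sR 2064 (.leaf 0x380900400c08006148a8ff61525381080) (.leaf 0x3e0980001c080061589e007ef253e1080)) (.sR 2160 (.leaf 0x420a000034080061609af0b274b421080) (.sR 2208 (.leaf 0x460a4040100800616896e017e4b461080)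 (.leaf 0x3a0a404008080061689f155d34b3a1080)))) (.sR 2352 (.sR 2304 (.leaf 0x4a0ac000200800617892f6fb3714a1080) (.leaf 0x440a800028080061789abbfae71441080)) (.sR 2400 (.leaf 0x3e0a800014080061789eef418713e1080) (.sR 2448 (.leaf 0x3e0ac00004080061789ad43ae713e1080) (.leaf 0x3e0ac040000800617896c9a02713e1080))))))))) (.sR 1728 (.leaf 0x380800005408026120a9d484a4b381080) (.sr 640 (.sR 2064 (.sR 1872 (.sR 1776 (.leaf 0x380840402c08005128a52aa0825381080) (.sR 1824 (.leaf 0x3807c0414008017119b800b8a25381000) (.leaf 0x38080040a008017121c800d1425381000))) (.sR 1968 (.sR 1920 (.leaf 0x380840414408017129d8014a925381000) (.leaf 0x380840414808017129500393925381000)) (.sR 2016 (.leaf 0x3808c0414c08017139c802ca825381000) (.leaf 0x380900400c08005148a8ff61525381080)))) (.sR 2208 (.sR 2112 (.leaf 0x400980001c080051589dd9dad25401080) (.sR 2160 (.leaf 0x420a000034080051609af0b274b421080) (.leaf 0x460a4040100800516896e017e4b461080))) (.sR 2304 (.sR 2256 (.leaf 0x3a0a404008080051689f155d34b3a1080)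 (.leaf 0x4a0a8000240800517892f6fb3714a1080)) (.sR 2352 (.leaf 0x440a800028080051789abbfae71441080) (.sg 76 (.sR 2400 (.leaf 0x3e0a800014080211789eef418713e1080) (.sR 2448 (.leaf 0x3e0ac00004080211789ad43ae713e1080) (.leaf 0x3e0ac040000802117896c9a02713e1080))) (.sR 2400 (.leaf 0x3e0a800014080221789eef418713e1080) (.sR 2448 (.leaf 0x3e0ac00004080221789ad43ae713e1080) (.leaf 0x3e0ac040000802217896c9a02713e1080)))))))) (.sR 1968 (.sR 1824 (.sR 1776 (.leaf 0x380840402c08008128a52aa0825381080) (.leaf 0x3a0880007008008130a1b1640253a1080)) (.sR 1872 (.leaf 0x380880005808008130acfc7aa25381080) (.sR 1920 (.leaf 0x3808c0404408008138a9089a325381080) (.leaf 0x380900003008008140a514ff725381080)))) (.sR 2064 (.sR 2016 (.leaf 0x380940401808008148a1a475f25381080) (.leaf 0x380900400c08008148a8ff61525381080)) (.sR 2112 (.leaf 0x4209c04074080081589db056025421080) (.sR 2160 (.leaf 0x420a00405c080081609af0b274b421080) (.sg 76 (.sR 2304 (.sR 2208 (.leaf 0x460a4040100801216896e017e4b461080)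 (.sR 2256 (.leaf 0x3a0a404008080121689f155d34b3a1080) (.leaf 0x4a0a8000240801217892f6fb3714a1080))) (.sR 2400 (.sR 2352 (.leaf 0x440a800028080121789abbfae71441080) (.leaf 0x3e0a800014080121789eef418713e1080)) (.sR 2448 (.leaf 0x3e0ac00004080121789ad43ae713e1080) (.sr 704 (.leaf 0x3e0ac040000802e17896c9a02713e1080) (.leaf 0x3e0ac040000802f17896c9a02713e1080))))) (.sR 2208 (.leaf 0x460a4040100802716896e017e4b461080) (.sR 2256 (.leaf 0x3a0a404008080271689f155d34b3a1080) (.sr 704 (.sR 2352 (.sR 2304 (.leaf 0x4a0ac000200801917892f6fb3714a1080) (.leaf 0x440ac00038080191789abbfae71441080)) (.sR 2400 (.leaf 0x3e0a800048080191789eef418713e1080) (.sR 2448 (.leaf 0x3e0ac00004080191789ad43ae713e1080) (.leaf 0x3e0ac040000801917896c9a02713e1080)))) (.sR 2352 (.sR 2304 (.leaf 0x4a0a8000240801a17892f6fb3714a1080) (.leaf 0x440a8000280801a1789abbfae71441080)) (.sR 2400 (.leaf 0x3e0a8000140801a1789eef418713e1080) (.sR 2448 (.leaf 0x3e0ac000040801a1789ad43ae713e1080) (.leaf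 0x3e0ac040000801a17896c9a02713e1080)))))))))))))))))))) (.sR 1152 (.sR 912 (.sR 768 (.sR 576 (.leaf 0x4200000000080310207c00e0797421100) (.sg 72 (.sR 672 (.sR 624 (.leaf 0x44000000000a0300287815dd997441180) (.leaf 0x420080407c0801b0307c18cdb97421100)) (.sR 720 (.leaf 0x46010040800801b0408c0641c97461100) (.leaf 0x42018040640801b0509c3b83471421100))) (.sR 672 (.sR 624 (.leaf 0x42004040cc080110287c0b82297421100) (.leaf 0x42008040d0080110307c18cdb97421100)) (.sR 720 (.leaf 0x4200c040d4080110387c2715797421100) (.leaf 0x43c0c04064080110380000000d0435104))))) (.sR 816 (.leaf 0x4401c000d806003050883954e71441100) (.sR 864 (.leaf 0x3c034000e006003080c8c3817713c1100) (.leaf 0x3c0340008406003080bca50424b3c1100)))) (.sR 1008 (.sR 960 (.leaf 0x3a040000e806003098b8feff34b3a1100) (.leaf 0x3e048000f0060030a8a5533dc4b3e1100)) (.sR 1056 (.leaf 0x38048000fc060030a8a93ab134b381100) (.sR 1104 (.leaf 0x4805000100060030b8998007a4b481100) (.leaf 0x3804800088060240a8ec4a50625381080)))))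 (.sR 1392 (.sR 1248 (.sR 1200 (.leaf 0x420580010c060240c8d08b1f625421080) (.leaf 0x3805c0008c060240d0cca408b25381080)) (.sR 1296 (.leaf 0x4a05c00114060030d091bdd7c714a1100) (.sR 1344 (.leaf 0x4c0600011c060030d88a0ab38974c1100) (.sg 72 (.leaf 0x38068000680601c0e8c0c1d8725381080) (.leaf 0x3c06800068060320e8c0bbfd4253c1080))))) (.sR 1488 (.sR 1440 (.leaf 0x4a06400124060030e0868b431974a1100) (.leaf 0x4c06800128060030e88266eda974c1100)) (.sR 1536 (.sg 72 (.leaf 0x380700006c08011100b4e215d25381080) (.leaf 0x4a06404130080110e87ee4431974a1100)) (.sR 1584 (.leaf 0x4a06800090060030e87ab1336974a1100) (.sg 72 (.sR 1728 (.sR 1632 (.leaf 0x4c068041340801b0f076978a9974c1100) (.sR 1680 (.leaf 0x4e06c041380801b0f87284935974e1100) (.leaf 0x3a0800005408011120a9af2734b3a1080))) (.sR 1776 (.leaf 0x3a0880002c0601c128a5196c5253a1080) (.sR 1824 (.leaf 0x3c08c0009c0601c130a2ba1ba4b3c1080) (.sr 896 (.sR 2160 (.sR 1968 (.sR 1872 (.leaf 0x38080040a00800e121c800d1425381000) (.sR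 1920 (.leaf 0x3a08c040a808000138a903f75253a1080) (.leaf 0x380900003008000140a514ff725381080))) (.sR 2064 (.sR 2016 (.leaf 0x380940401808000148a1a475f25381080) (.leaf 0x380900400c08000148a8ff61525381080)) (.sR 2112 (.leaf 0x3e0980001c080001589e007ef253e1080) (.leaf 0x420a000034080001609af0b274b421080)))) (.sR 2304 (.sR 2208 (.leaf 0x460a4000b00800016896e017e4b461080) (.sR 2256 (.leaf 0x3a0a404008080001689f155d34b3a1080) (.leaf 0x4a0ac000200800017892f6fb3714a1080))) (.sR 2400 (.sR 2352 (.leaf 0x440ac00038080001789abbfae71441080) (.leaf 0x3e0a800048080001789eef418713e1080)) (.sR 2448 (.leaf 0x3e0ac00004080001789ad43ae713e1080) (.leaf 0x3e0ac040000800017896c9a02713e1080))))) (.sR 2160 (.sR 1968 (.sR 1872 (.leaf 0x380880005808001130acfc7aa25381080) (.sR 1920 (.leaf 0x3e08c040a808001138a8f865f253e1080) (.leaf 0x380900003008001140a514ff725381080))) (.sR 2064 (.sR 2016 (.leaf 0x380940401808001148a1a475f25381080) (.leaf 0x380900400c08001148a8ff61525381080))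 (.sR 2112 (.leaf 0x400980001c080011589dd9dad25401080) (.leaf 0x420a000034080011609af0b274b421080)))) (.sR 2304 (.sR 2208 (.leaf 0x460a4000b00800116896e017e4b461080) (.sR 2256 (.leaf 0x3a0a404008080011689f155d34b3a1080) (.leaf 0x4a0ac000200800117892f6fb3714a1080))) (.sR 2400 (.sR 2352 (.leaf 0x440ac00038080011789abbfae71441080) (.leaf 0x3e0a800014080011789eef418713e1080)) (.sR 2448 (.leaf 0x3e0ac0417c080011789ad43ae713e1080) (.sg 68 (.leaf 0x3e0ac041840803317896c9a02713e1080) (.leaf 0x3e0ac040000803417896c9a02713e1080)))))))))) (.sR 1632 (.leaf 0x4c06c000940601c0f076978a9974c1100) (.sR 1680 (.leaf 0x4c06c000980601c0f07286c3f974c1100) (.sr 896 (.sR 1872 (.sR 1776 (.sR 1728 (.leaf 0x38080000540800e120a910dae25381080) (.leaf 0x380840402c0800e128a52aa0825381080)) (.sR 1824 (.leaf 0x3e088000700800e130a17903f253e1080) (.leaf 0x3e088000580800e130acecd12253e1080))) (.sR 1968 (.sR 1920 (.leaf 0x3808c040440800e138a9089a325381080) (.leaf 0x38090040ac0800e140a514ff725381080))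 (.sR 2016 (.leaf 0x3c094040180800e148a16a617253c1080) (.sg 76 (.sR 2208 (.sR 2112 (.sR 2064 (.leaf 0x380900400c0800d148a8ff61525381080) (.leaf 0x3e0980001c0800d1589e007ef253e1080)) (.sR 2160 (.leaf 0x420a0000340800d1609af0b274b421080) (.leaf 0x460a4040100800d16896e017e4b461080))) (.sR 2304 (.sR 2256 (.leaf 0x3a0a4040080800d1689f155d34b3a1080) (.leaf 0x4a0a8000240800d17892f6fb3714a1080)) (.sR 2352 (.leaf 0x440a8000280800d1789abbfae71441080) (.sR 2400 (.leaf 0x3e0a8000140800d1789eef418713e1080) (.sr 832 (.sR 2448 (.leaf 0x3e0ac00004080281789ad43ae713e1080) (.leaf 0x3e0ac040000802817896c9a02713e1080)) (.sR 2448 (.leaf 0x3e0ac00004080291789ad43ae713e1080) (.leaf 0x3e0ac040000802917896c9a02713e1080))))))) (.sR 2112 (.sR 2064 (.leaf 0x380900400c08023148a8ff61525381080) (.leaf 0x4009c04074080231589dd9dad25401080)) (.sR 2160 (.leaf 0x420a00405c080231609af0b274b421080) (.sr 832 (.sR 2304 (.sR 2208 (.leaf 0x460a4040100800c16896e017e4b461080) (.sR 2256 (.leaf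 0x3a0a4040080800c1689f155d34b3a1080) (.leaf 0x4a0a8000240800c17892f6fb3714a1080))) (.sR 2400 (.sR 2352 (.leaf 0x440a8000280800c1789abbfae71441080) (.leaf 0x3e0a8000140800c1789eef418713e1080)) (.sR 2448 (.leaf 0x3e0ac000040800c1789ad43ae713e1080) (.sR 2472 (.leaf 0x3c0ac0004c0800c1789ac7b7b713c1080) (.leaf 0x3c0ac000500800c178970df30713c1080))))) (.sR 2304 (.sR 2208 (.leaf 0x460a4040100800916896e017e4b461080) (.sR 2256 (.leaf 0x3a0a404008080091689f155d34b3a1080) (.leaf 0x4a0a8000240800917892f6fb3714a1080))) (.sR 2352 (.leaf 0x440a800028080091789abbfae71441080) (.sR 2400 (.leaf 0x3e0a800014080091789eef418713e1080) (.sR 2448 (.sR 2424 (.leaf 0x380a80403c080091709ad7f474b381080) (.leaf 0x400b004040080091809ac5baa71401080)) (.sR 2472 (.leaf 0x3c0ac0004c080091789ac7b7b713c1080) (.leaf 0x3c0ac040c808009178970df30713c1080))))))))))))) (.sR 1776 (.sR 1728 (.leaf 0x380840013c06025120a910dae25381080) (.leaf 0x3a0880002c06025128a5196c5253a1080)) (.sR 1824 (.leaf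 0x3c08c0009c06025130a2ba1ba4b3c1080) (.sg 76 (.sR 2016 (.sR 1920 (.sR 1872 (.leaf 0x38088000580800f130acfc7aa25381080) (.leaf 0x3808c040440800f138a9089a325381080)) (.sR 1968 (.leaf 0x38090000300800f140a514ff725381080) (.leaf 0x38094040180800f148a1a475f25381080))) (.sR 2112 (.sR 2064 (.leaf 0x380900400c0800f148a8ff61525381080) (.leaf 0x460980001c0800f1589d56b2a25461080)) (.sR 2160 (.leaf 0x420a00405c0800f1609af0b274b421080) (.sR 2208 (.leaf 0x460a4040100800f16896e017e4b461080) (.sr 960 (.sR 2352 (.sR 2256 (.leaf 0x460a8000b40801317096f98244b461080) (.sR 2304 (.leaf 0x4a0ac000200801317892f6fb3714a1080) (.leaf 0x440ac00038080131789abbfae71441080))) (.sR 2400 (.leaf 0x3e0a800048080131789eef418713e1080) (.sR 2448 (.leaf 0x3e0ac00004080131789ad43ae713e1080) (.leaf 0x3e0ac040000801317896c9a02713e1080)))) (.sR 2352 (.sR 2256 (.leaf 0x460a8000b40801517096f98244b461080) (.sR 2304 (.leaf 0x4a0ac000200801517892f6fb3714a1080) (.leaf 0x440ac00038080151789abbfae71441080)))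 (.sR 2400 (.leaf 0x3e0a800048080151789eef418713e1080) (.sR 2448 (.leaf 0x3e0ac00004080151789ad43ae713e1080) (.leaf 0x3e0ac040000801517896c9a02713e1080))))))))) (.sR 1872 (.leaf 0x3808c000a40602a130acfc7aa25381080) (.sR 1920 (.leaf 0x38090000440602a138a9089a325381080) (.sr 960 (.sR 2112 (.sR 2016 (.sR 1968 (.leaf 0x380900003008004140a514ff725381080) (.leaf 0x380940401808004148a1a475f25381080)) (.sR 2064 (.leaf 0x380900400c08004148a8ff61525381080) (.leaf 0x420980001c080041589db056025421080))) (.sR 2208 (.sR 2160 (.leaf 0x420a000034080041609af0b274b421080) (.leaf 0x460a4040100800416896e017e4b461080)) (.sR 2256 (.leaf 0x3a0a404008080041689f155d34b3a1080) (.sR 2304 (.leaf 0x4a0a8000240800417892f6fb3714a1080) (.sR 2376 (.sR 2328 (.leaf 0x440a8040c0080041789abbfae71441080) (.sR 2352 (.leaf 0x420ac040c4080041789adaa7271421080) (.leaf 0x3e0ac04174080041789eef418713e1080))) (.sR 2448 (.sg 78 (.sR 2400 (.leaf 0x3c0a8000600801e1789f10c21713c1080) (.sR 2424 (.leaf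 0x380a80403c0801e1709ad7f474b381080) (.leaf 0x400b0040400801e1809ac5baa71401080))) (.sR 2400 (.leaf 0x3c0a8041780801f1789f10c21713c1080) (.sR 2424 (.leaf 0x380a80403c0801f1709ad7f474b381080) (.leaf 0x400b0040400801f1809ac5baa71401080)))) (.sR 2472 (.leaf 0x3c0ac04180080041789ac7b7b713c1080) (.sg 78 (.leaf 0x3c0ac000500801e178970df30713c1080) (.leaf 0x3c0ac040c80801f178970df30713c1080))))))))) (.sR 2064 (.sR 1968 (.leaf 0x38090000300800a140a514ff725381080) (.sR 2016 (.leaf 0x3a094040180800a148a1896be253a1080) (.leaf 0x380900400c0800a148a8ff61525381080))) (.sR 2112 (.leaf 0x4209c040740800a1589db056025421080) (.sR 2160 (.leaf 0x420a00405c0800a1609af0b274b421080) (.sR 2208 (.sR 2184 (.leaf 0x460a40415c0800a16896e017e4b461080) (.leaf 0x400a0041600800a1689b0ac904b401080)) (.sR 2232 (.leaf 0x3a0a4041640800a1689f155d34b3a1080) (.sR 2256 (.leaf 0x400a8041680800a1709b270334b401080) (.sg 78 (.sR 2376 (.sR 2304 (.sR 2280 (.leaf 0x380a0040b808007168a25eaad4b381080)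 (.leaf 0x460ac040bc08007178971de4f71461080)) (.sR 2328 (.leaf 0x440ac0016c080071789abbfae71441080) (.sR 2352 (.leaf 0x420ac00170080071789adaa7271421080) (.leaf 0x3e0ac00078080071789eef418713e1080)))) (.sR 2424 (.sR 2400 (.leaf 0x3c0a800060080071789f10c21713c1080) (.leaf 0x380a80403c080071709ad7f474b381080)) (.sR 2448 (.leaf 0x400b004040080071809ac5baa71401080) (.sR 2472 (.leaf 0x3c0ac0004c080071789ac7b7b713c1080) (.leaf 0x3c0ac0005008007178970df30713c1080))))) (.sR 2304 (.sR 2280 (.leaf 0x380a0040b808020168a25eaad4b381080) (.leaf 0x460ac040bc08020178971de4f71461080)) (.sR 2328 (.leaf 0x440a8040c0080201789abbfae71441080) (.sR 2352 (.leaf 0x420ac040c4080201789adaa7271421080) (.sr 992 (.sR 2424 (.sR 2376 (.leaf 0x3e0ac00078080141789eef418713e1080) (.sR 2400 (.leaf 0x3c0a800060080141789f10c21713c1080) (.leaf 0x380a80403c080141709ad7f474b381080))) (.sR 2448 (.leaf 0x400b004040080141809ac5baa71401080) (.sR 2472 (.leaf 0x3c0ac0004c080141789ac7b7b713c1080)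 (.leaf 0x3c0ac0005008014178970df30713c1080)))) (.sR 2424 (.sR 2376 (.leaf 0x3e0ac00078080161789eef418713e1080) (.sR 2400 (.leaf 0x3c0a800060080161789f10c21713c1080) (.leaf 0x380a80403c080161709ad7f474b381080))) (.sR 2448 (.leaf 0x400b004040080161809ac5baa71401080) (.sR 2472 (.leaf 0x3c0ac0004c080161789ac7b7b713c1080) (.leaf 0x3c0ac0005008016178970df30713c1080)))))))))))))))))))))))))))))))))
theorem k5 : ChunkP 60 61 512 1024 64 80 0 2484 :=
  chkD_sound (Q := 40) (C := [c280.c, c389.c, c160.c, c306.c, c377.c, c142.c, c214.c, c426.c, c216.c, c342.c, c427.c, c161.c, c269.c, c281.c, c282.c, c391.c, c140.c, c309.c, c215.c, c375.c, c413.c, c425.c, c442.c, c145.c, c164.c, c204.c, c235.c, c305.c, c308.c, c162.c, c376.c, c378.c, c428.c, c141.c, c143.c, c283.c, c310.c, c392.c, c163.c, c217.c, c268.c, c341.c, c394.c, c158.c, c187.c, c192.c, c203.c, c234.c, c303.c, c307.c, c311.c, c388.c, c390.c])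
    (T := [f_w612_624_8_5_5e, f_w600_612_8_5_5e, f_w552_564_8_5_10e, f_w504_516_8_5_15e, f_w540_552_8_5_10e, f_w588_600_8_5_5e, f_w492_504_8_5_15e, f_w516_528_8_10_20, f_w564_576_8_10_20, f_w564_576_8_5_10e, f_w576_588_8_5_10e, f_w432_444_8_10_20e, f_w480_492_8_10_20, f_w528_540_8_10_20, f_w576_588_8_10_25, f_w600_606_8_5_10e, f_w606_612_8_5_10e, f_w468_480_8_5_15e, f_w588_600_8_10_20, f_w612_618_8_9_24, f_w618_624_8_9_21, f_w420_432_8_5_20, f_w456_468_8_10_30, f_w528_540_8_5_10e, f_w594_600_8_10_25, f_w180_192_16_10_40, f_w336_348_8_10_30e, f_w372_384_8_10_30, f_w444_456_8_5_20, f_w516_528_8_5_10e, f_w588_594_8_10_20, f_w156_168_16_10_45, f_w168_180_16_10_40, f_w216_228_16_10_40e, f_w276_288_8_10_35e, f_w300_312_8_10_25e, f_w384_396_16_5_20e, f_w396_408_16_5_20e, f_w408_420_16_5_20e, f_w444_456_8_10_15e, f_w456_468_0_5_0e, f_w456_468_8_5_15e, f_w468_480_8_20_35, f_w480_492_8_10_15e, f_w540_552_8_15_30, f_w552_564_8_15_30, f_w564_570_8_10_15e, f_w570_576_8_10_25e,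 f_w576_582_8_5_10e, f_w582_588_8_5_10e, f_w618_624_8_6_16e, f_w144_156_16_10_40e, f_w156_168_16_10_40e, f_w168_180_16_10_35e, f_w192_204_16_10_30e, f_w192_204_16_10_40, f_w204_216_16_10_30e, f_w204_216_16_10_40, f_w228_240_16_10_35e, f_w228_240_16_10_40, f_w240_252_16_10_35e, f_w240_252_16_15_45, f_w252_264_0_10_20e, f_w252_264_16_10_35e, f_w264_276_16_10_30e, f_w264_276_16_15_40, f_w288_300_0_5_0, f_w288_300_8_10_35e, f_w312_324_0_5_0, f_w312_324_16_10_35e, f_w324_336_0_5_0, f_w324_336_16_10_35e, f_w348_360_0_5_20e, f_w348_360_16_10_30e, f_w360_372_16_10_25e, f_w360_372_8_5_20e, f_w372_384_16_10_30e, f_w396_408_16_10_30, f_w408_420_16_10_30, f_w420_432_8_10_20e, f_w444_456_0_5_0e, f_w468_480_0_5_0e, f_w480_492_0_5_0e, f_w492_504_0_5_0e, f_w504_516_0_5_0e, f_w516_528_0_5_0e, f_w528_540_0_5_0e, f_w540_546_8_10_15e, f_w546_552_8_10_15e, f_w552_558_8_10_15e, f_w558_564_8_10_15e, f_w576_582_8_10_20, f_w582_588_8_10_20, f_w588_594_8_5_10e, f_w594_600_8_5_10e,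 f_w600_612_8_10_10e, f_w612_618_8_6_20e, f_w612_624_8_20_20]) (t := t5)
    (all_cons p280 (all_cons p389 (all_cons p160 (all_cons p306 (all_cons p377 (all_cons p142 (all_cons p214 (all_cons p426 (all_cons p216 (all_cons p342 (all_cons p427 (all_cons p161 (all_cons p269 (all_cons p281 (all_cons p282 (all_cons p391 (all_cons p140 (all_cons p309 (all_cons p215 (all_cons p375 (all_cons p413 (all_cons p425 (all_cons p442 (all_cons p145 (all_cons p164 (all_cons p204 (all_cons p235 (all_cons p305 (all_cons p308 (all_cons p162 (all_cons p376 (all_cons p378 (all_cons p428 (all_cons p141 (all_cons p143 (all_cons p283 (all_cons p310 (all_cons p392 (all_cons p163 (all_cons p217 (all_cons p268 (all_cons p341 (all_cons p394 (all_cons p158 (all_cons p187 (all_cons p192 (all_cons p203 (all_cons p234 (all_cons p303 (all_cons p307 (all_cons p311 (all_cons p388 (all_cons p390 all_nil))))))))))))))))))))))))))))))))))))))))))))))))))))) (all_cons f_w612_624_8_5_5e_p (all_cons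 f_w600_612_8_5_5e_p (all_cons f_w552_564_8_5_10e_p (all_cons f_w504_516_8_5_15e_p (all_cons f_w540_552_8_5_10e_p (all_cons f_w588_600_8_5_5e_p (all_cons f_w492_504_8_5_15e_p (all_cons f_w516_528_8_10_20_p (all_cons f_w564_576_8_10_20_p (all_cons f_w564_576_8_5_10e_p (all_cons f_w576_588_8_5_10e_p (all_cons f_w432_444_8_10_20e_p (all_cons f_w480_492_8_10_20_p (all_cons f_w528_540_8_10_20_p (all_cons f_w576_588_8_10_25_p (all_cons f_w600_606_8_5_10e_p (all_cons f_w606_612_8_5_10e_p (all_cons f_w468_480_8_5_15e_p (all_cons f_w588_600_8_10_20_p (all_cons f_w612_618_8_9_24_p (all_cons f_w618_624_8_9_21_p (all_cons f_w420_432_8_5_20_p (all_cons f_w456_468_8_10_30_p (all_cons f_w528_540_8_5_10e_p (all_cons f_w594_600_8_10_25_p (all_cons f_w180_192_16_10_40_p (all_cons f_w336_348_8_10_30e_p (all_cons f_w372_384_8_10_30_p (all_cons f_w444_456_8_5_20_p (all_cons f_w516_528_8_5_10e_p (all_cons f_w588_594_8_10_20_p (all_cons f_w156_168_16_10_45_p (all_cons f_w168_180_16_10_40_p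 (all_cons f_w216_228_16_10_40e_p (all_cons f_w276_288_8_10_35e_p (all_cons f_w300_312_8_10_25e_p (all_cons f_w384_396_16_5_20e_p (all_cons f_w396_408_16_5_20e_p (all_cons f_w408_420_16_5_20e_p (all_cons f_w444_456_8_10_15e_p (all_cons f_w456_468_0_5_0e_p (all_cons f_w456_468_8_5_15e_p (all_cons f_w468_480_8_20_35_p (all_cons f_w480_492_8_10_15e_p (all_cons f_w540_552_8_15_30_p (all_cons f_w552_564_8_15_30_p (all_cons f_w564_570_8_10_15e_p (all_cons f_w570_576_8_10_25e_p (all_cons f_w576_582_8_5_10e_p (all_cons f_w582_588_8_5_10e_p (all_cons f_w618_624_8_6_16e_p (all_cons f_w144_156_16_10_40e_p (all_cons f_w156_168_16_10_40e_p (all_cons f_w168_180_16_10_35e_p (all_cons f_w192_204_16_10_30e_p (all_cons f_w192_204_16_10_40_p (all_cons f_w204_216_16_10_30e_p (all_cons f_w204_216_16_10_40_p (all_cons f_w228_240_16_10_35e_p (all_cons f_w228_240_16_10_40_p (all_cons f_w240_252_16_10_35e_p (all_cons f_w240_252_16_15_45_p (all_cons f_w252_264_0_10_20e_p (all_cons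 f_w252_264_16_10_35e_p (all_cons f_w264_276_16_10_30e_p (all_cons f_w264_276_16_15_40_p (all_cons f_w288_300_0_5_0_p (all_cons f_w288_300_8_10_35e_p (all_cons f_w312_324_0_5_0_p (all_cons f_w312_324_16_10_35e_p (all_cons f_w324_336_0_5_0_p (all_cons f_w324_336_16_10_35e_p (all_cons f_w348_360_0_5_20e_p (all_cons f_w348_360_16_10_30e_p (all_cons f_w360_372_16_10_25e_p (all_cons f_w360_372_8_5_20e_p (all_cons f_w372_384_16_10_30e_p (all_cons f_w396_408_16_10_30_p (all_cons f_w408_420_16_10_30_p (all_cons f_w420_432_8_10_20e_p (all_cons f_w444_456_0_5_0e_p (all_cons f_w468_480_0_5_0e_p (all_cons f_w480_492_0_5_0e_p (all_cons f_w492_504_0_5_0e_p (all_cons f_w504_516_0_5_0e_p (all_cons f_w516_528_0_5_0e_p (all_cons f_w528_540_0_5_0e_p (all_cons f_w540_546_8_10_15e_p (all_cons f_w546_552_8_10_15e_p (all_cons f_w552_558_8_10_15e_p (all_cons f_w558_564_8_10_15e_p (all_cons f_w576_582_8_10_20_p (all_cons f_w582_588_8_10_20_p (all_cons f_w588_594_8_5_10e_p (all_cons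 f_w594_600_8_5_10e_p (all_cons f_w600_612_8_10_10e_p (all_cons f_w612_618_8_6_20e_p (all_cons f_w612_624_8_20_20_p all_nil))))))))))))))))))))))))))))))))))))))))))))))))))))))))))))))))))))))))))))))))))))))))))))))))))
    (by decide +kernel)
def t6 : Tree := (.leaf 0x3c0000000006000018a089482253c0f00)
theorem k6 : ChunkP 60 61 512 1024 80 96 0 432 :=
  chkD_sound (Q := 40) (C := [c194.c])
    (T := []) (t := t6)
    (all_cons p194 all_nil) all_nil
    (by decide +kernel)
def t7 : Tree := (.leaf 0x4200000000080000209c1197e71421180)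
theorem k7 : ChunkP 60 61 512 1024 80 96 432 480 :=
  chkD_sound (Q := 40) (C := [c190.c])
    (T := []) (t := t7)
    (all_cons p190 all_nil) all_nil
    (by decide +kernel)
def t8 : Tree := (.sR 720 (.sR 624 (.sR 576 (.leaf 0x3c00000000080010207c2812c973c0f00) (.leaf 0x4000404000080000287c3cb4397401100)) (.sR 672 (.leaf 0x42c0404004080000280000000d0425104) (.leaf 0x4340804008080000300000000d042d104))) (.sR 816 (.sR 768 (.leaf 0x43c0c0400c080000380000000d0435104) (.leaf 0x4201404010080000487c461f997421100)) (.sR 864 (.leaf 0x4003c0401408000098a9c17a471401100) (.leaf 0x3c03c0401808000098b14e9df713c1100))))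
theorem k8 : ChunkP 60 61 512 768 80 96 480 912 :=
  chkD_sound (Q := 40) (C := [c164.c, c175.c])
    (T := [f_w144_156_16_10_40e, f_w156_168_16_10_45, f_w168_180_16_10_35e, f_w180_192_16_10_35e, f_w192_204_16_10_30e, f_w204_216_16_10_30e, f_w216_228_16_10_40e]) (t := t8)
    (all_cons p164 (all_cons p175 all_nil)) (all_cons f_w144_156_16_10_40e_p (all_cons f_w156_168_16_10_45_p (all_cons f_w168_180_16_10_35e_p (all_cons f_w180_192_16_10_35e_p (all_cons f_w192_204_16_10_30e_p (all_cons f_w204_216_16_10_30e_p (all_cons f_w216_228_16_10_40e_p all_nil)))))))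
    (by decide +kernel)
def t9 : Tree := (.sR 1008 (.sR 960 (.leaf 0x4804404000080000a89dc6a7471481100) (.leaf 0x4c04804004080000b0995499f714c1100)) (.sR 1056 (.leaf 0x3804800008060010a95c15d9125381000) (.leaf 0x4a04c0400c080000b899211c84b4a1100)))
theorem k9 : ChunkP 60 61 512 768 80 96 912 1104 :=
  chkD_sound (Q := 40) (C := [c164.c, c170.c])
    (T := [f_w228_240_16_10_35e, f_w240_252_16_10_35e, f_w252_264_0_10_20e, f_w264_276_16_10_30e]) (t := t9)
    (all_cons p164 (all_cons p170 all_nil)) (all_cons f_w228_240_16_10_35e_p (all_cons f_w240_252_16_10_35e_p (all_cons f_w252_264_0_10_20e_p (all_cons f_w264_276_16_10_30e_p all_nil))))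
    (by decide +kernel)
def t10 : Tree := (.sR 1152 (.leaf 0x3805400000060000c0d49181b25381080) (.leaf 0x3804c00004080010b9d8013a84b381000))
theorem k10 : ChunkP 60 61 512 768 80 96 1104 1200 :=
  chkD_sound (Q := 40) (C := [c166.c, c170.c])
    (T := [f_w276_288_8_10_35e, f_w288_300_0_5_0]) (t := t10)
    (all_cons p166 (all_cons p170 all_nil)) (all_cons f_w276_288_8_10_35e_p (all_cons f_w288_300_0_5_0_p all_nil))
    (by decide +kernel)
def t11 : Tree := (.leaf 0x3805c00000060000d0cca408b25381080)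
theorem k11 : ChunkP 60 61 512 768 80 96 1200 1248 :=
  chkD_sound (Q := 40) (C := [c166.c])
    (T := [f_w300_312_8_10_25e]) (t := t11)
    (all_cons p166 all_nil) (all_cons f_w300_312_8_10_25e_p all_nil)
    (by decide +kernel)
def t12 : Tree := (.sR 1440 (.sR 1344 (.sR 1296 (.leaf 0x3805400094080190c9b803d1825381000) (.leaf 0x3805800098080190d1ac0500325381000)) (.sR 1392 (.leaf 0x380640409c080210e8c0c1d8725381080) (.leaf 0x3a05c000a0080190d97001402253a1000))) (.sR 1536 (.sR 1488 (.leaf 0x3806c040a4080210f8b8d711a25381080) (.sr 640 (.leaf 0x38064040a8080120e97c01b3c25381000) (.leaf 0x38070000ac08015100b4e215d25381080))) (.sR 1584 (.leaf 0x4c068040b0080200f07ac3494974c1100) (.sR 1632 (.leaf 0x4c068040b4080200f076978a9974c1100) (.sr 640 (.sR 1872 (.sR 1728 (.sR 1680 (.leaf 0x4e06c0406c080250f87284935974e1100) (.leaf 0x38074040b808012109a400ffc25381000)) (.sR 1776 (.leaf 0x380840407008011128a52aa0825381080) (.sR 1824 (.leaf 0x3807c040c008012119b800b8a25381000)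 (.leaf 0x38080040c408012121c800d1425381000)))) (.sR 2016 (.sR 1920 (.leaf 0x38084040cc08012129d8014a925381000) (.sR 1968 (.leaf 0x380900405408011140a514ff725381080) (.leaf 0x380940403808011148a1a475f25381080))) (.sR 2064 (.leaf 0x380900403c08011148a8ff61525381080) (.sR 2112 (.leaf 0x4209c04040080111589db056025421080) (.sg 84 (.sR 2256 (.sR 2160 (.leaf 0x420a004044080101609af0b274b421080) (.sR 2208 (.leaf 0x460a4040280801016896e017e4b461080) (.leaf 0x3a0a40402c080101689f155d34b3a1080))) (.sR 2304 (.leaf 0x4a0a8000300801017892f6fb3714a1080) (.sR 2352 (.leaf 0x440a80004c080101789abbfae71441080) (.sr 576 (.sR 2400 (.leaf 0x3e0a800034080171789eef418713e1080) (.sR 2448 (.leaf 0x3e0ac00050080171789ad43ae713e1080) (.leaf 0x3e0ac040680801717896c9a02713e1080))) (.sR 2400 (.leaf 0x3e0a8000340801a1789eef418713e1080) (.sR 2448 (.leaf 0x3e0ac000500801a1789ad43ae713e1080) (.leaf 0x3e0ac040680801a17896c9a02713e1080))))))) (.sR 2208 (.sR 2160 (.leaf 0x420a004044080181609af0b274b421080)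 (.leaf 0x460a4040280801816896e017e4b461080)) (.sR 2256 (.leaf 0x3a0a40402c080181689f155d34b3a1080) (.sr 576 (.sR 2352 (.sR 2304 (.leaf 0x4a0a8000300800f17892f6fb3714a1080) (.leaf 0x440a80004c0800f1789abbfae71441080)) (.sR 2400 (.leaf 0x3e0a8000340800f1789eef418713e1080) (.sR 2448 (.leaf 0x3e0ac000500800f1789ad43ae713e1080) (.leaf 0x3e0ac040680800f17896c9a02713e1080)))) (.sR 2352 (.sR 2304 (.leaf 0x4a0a8000300800817892f6fb3714a1080) (.leaf 0x440a80004c080081789abbfae71441080)) (.sR 2400 (.leaf 0x3e0a800034080081789eef418713e1080) (.sR 2448 (.sR 2424 (.leaf 0x380a80400c080081709ad7f474b381080) (.leaf 0x400b004000080081809ac5baa71401080)) (.sR 2472 (.leaf 0x3c0ac04008080081789ac7b7b713c1080) (.leaf 0x3c0ac0400408008178970df30713c1080))))))))))))) (.sR 1776 (.sR 1680 (.leaf 0x4c0680406c080260f07286c3f974c1100) (.sR 1728 (.leaf 0x38080000bc08015120a910dae25381080) (.leaf 0x3a0840407008015128a5196c5253a1080))) (.sR 1824 (.sg 84 (.leaf 0x3a088000740800a130a1b1640253a1080)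 (.leaf 0x3e0880007408022130a17903f253e1080)) (.sR 1872 (.leaf 0x38088040c808015130acfc7aa25381080) (.sg 84 (.sR 2016 (.sR 1920 (.leaf 0x3808c040780800a138a9089a325381080) (.sR 1968 (.leaf 0x38090040540800a140a514ff725381080) (.leaf 0x3a094040380800a148a1896be253a1080))) (.sR 2064 (.leaf 0x380900403c0800a148a8ff61525381080) (.sR 2112 (.leaf 0x3c09c040400800a1589f2970d4b3c1080) (.sr 704 (.sR 2304 (.sR 2208 (.sR 2160 (.leaf 0x420a0000d4080041609af0b274b421080) (.leaf 0x460a4040280800416896e017e4b461080)) (.sR 2256 (.leaf 0x3a0a40402c080041689f155d34b3a1080) (.leaf 0x4a0a8000300800417892f6fb3714a1080))) (.sR 2400 (.sR 2352 (.leaf 0x440a80004c080041789abbfae71441080) (.leaf 0x3e0a800034080041789eef418713e1080)) (.sR 2448 (.leaf 0x3e0ac00050080041789ad43ae713e1080) (.sR 2472 (.leaf 0x3c0ac04008080041789ac7b7b713c1080) (.leaf 0x3c0ac0400408004178970df30713c1080))))) (.sR 2208 (.sR 2160 (.leaf 0x420a0040440800d1609af0b274b421080) (.leaf 0x460a4040280800d16896e017e4b461080))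 (.sR 2256 (.leaf 0x3a0a40402c0800d1689f155d34b3a1080) (.sR 2304 (.leaf 0x4a0a8000300800d17892f6fb3714a1080) (.sR 2328 (.leaf 0x440a8040240800d1789abbfae71441080) (.sR 2352 (.leaf 0x420ac040200800d1789adaa7271421080) (.sg 82 (.sR 2424 (.sR 2376 (.leaf 0x3e0ac040100800c1789eef418713e1080) (.sR 2400 (.leaf 0x3c0a8040140800c1789f10c21713c1080) (.leaf 0x380a80400c0800c1709ad7f474b381080))) (.sR 2448 (.leaf 0x400b0040000800c1809ac5baa71401080) (.sR 2472 (.leaf 0x3c0ac040080800c1789ac7b7b713c1080) (.leaf 0x3c0ac040040800c178970df30713c1080)))) (.sR 2424 (.sR 2376 (.leaf 0x3e0ac04010080131789eef418713e1080) (.sR 2400 (.leaf 0x3c0a804014080131789f10c21713c1080) (.leaf 0x380a80400c080131709ad7f474b381080))) (.sR 2448 (.sr 736 (.leaf 0x400b004000080271809ac5baa71401080) (.leaf 0x400b004000080291809ac5baa71401080)) (.sR 2472 (.leaf 0x3c0ac04008080131789ac7b7b713c1080) (.leaf 0x3c0ac0400408013178970df30713c1080)))))))))))))) (.sR 1920 (.leaf 0x3808c0407808022138a9089a325381080)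 (.sr 704 (.sR 2112 (.sR 2016 (.sR 1968 (.leaf 0x38090000d008007140a514ff725381080) (.leaf 0x380940403808007148a1a475f25381080)) (.sR 2064 (.leaf 0x380900403c08007148a8ff61525381080) (.leaf 0x3c09c04040080071589e23d09253c1080))) (.sR 2208 (.sR 2160 (.leaf 0x420a004044080071609af0b274b421080) (.leaf 0x460a4040280800716896e017e4b461080)) (.sR 2256 (.leaf 0x3a0a40402c080071689f155d34b3a1080) (.sR 2304 (.sg 86 (.sR 2280 (.leaf 0x380a00401808005168a25eaad4b381080) (.leaf 0x460ac0401c08005178971de4f71461080)) (.sr 672 (.sR 2280 (.leaf 0x380a00401808009168a25eaad4b381080) (.leaf 0x460ac0401c08009178971de4f71461080)) (.sR 2280 (.leaf 0x380a0040180800b168a25eaad4b381080) (.leaf 0x460ac0401c0800b178971de4f71461080)))) (.sR 2328 (.leaf 0x440a804024080071789abbfae71441080) (.sg 86 (.sR 2400 (.sR 2352 (.leaf 0x420ac04020080051789adaa7271421080) (.sR 2376 (.leaf 0x3e0ac04010080051789eef418713e1080) (.leaf 0x3c0a804014080051789f10c21713c1080))) (.sR 2448 (.sR 2424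 (.leaf 0x380a80400c080051709ad7f474b381080) (.leaf 0x400b004000080051809ac5baa71401080)) (.sR 2472 (.leaf 0x3c0ac04008080051789ac7b7b713c1080) (.leaf 0x3c0ac0400408005178970df30713c1080)))) (.sR 2376 (.sR 2352 (.leaf 0x420ac040200801b1789adaa7271421080) (.leaf 0x3e0ac040100801b1789eef418713e1080)) (.sR 2400 (.leaf 0x3c0a8040140801b1789f10c21713c1080) (.sr 672 (.sR 2448 (.sR 2424 (.leaf 0x380a80400c080091709ad7f474b381080) (.leaf 0x400b004000080091809ac5baa71401080)) (.sR 2472 (.leaf 0x3c0ac04008080091789ac7b7b713c1080) (.leaf 0x3c0ac0400408009178970df30713c1080))) (.sR 2448 (.sR 2424 (.leaf 0x380a80400c0800b1709ad7f474b381080) (.leaf 0x400b0040000800b1809ac5baa71401080)) (.sR 2472 (.leaf 0x3c0ac040080800b1789ac7b7b713c1080) (.leaf 0x3c0ac040040800b178970df30713c1080)))))))))))) (.sR 2016 (.sR 1968 (.leaf 0x380900405408016140a514ff725381080) (.leaf 0x380940403808016148a1a475f25381080)) (.sR 2064 (.leaf 0x380900403c08016148a8ff61525381080) (.sR 2112 (.leaf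 0x3c09c04040080161589f2970d4b3c1080) (.sg 86 (.sR 2208 (.sR 2160 (.sR 2136 (.leaf 0x420a00407c0800e1609af0b274b421080) (.leaf 0x3809c040580800e158a50af6425381080)) (.sR 2184 (.leaf 0x460a4040800800e16896e017e4b461080) (.leaf 0x400a0040840800e1689b0ac904b401080))) (.sR 2304 (.sR 2232 (.leaf 0x3a0a4040480800e1689f155d34b3a1080) (.sr 736 (.sR 2256 (.leaf 0x400a8000e4080021709b270334b401080) (.sR 2280 (.leaf 0x380a00401808002168a25eaad4b381080) (.leaf 0x460ac0401c08002178971de4f71461080))) (.sR 2256 (.leaf 0x400a80405c080031709b270334b401080) (.sR 2280 (.leaf 0x380a00401808003168a25eaad4b381080) (.leaf 0x460ac0401c08003178971de4f71461080))))) (.sR 2328 (.leaf 0x440a8040240800e1789abbfae71441080) (.sr 736 (.sR 2400 (.sR 2352 (.leaf 0x420ac04020080021789adaa7271421080) (.sR 2376 (.leaf 0x3e0ac04010080021789eef418713e1080) (.leaf 0x3c0a804014080021789f10c21713c1080))) (.sR 2448 (.sR 2424 (.leaf 0x380a80400c080021709ad7f474b381080) (.leaf 0x400b004000080021809ac5baa71401080))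 (.sR 2472 (.leaf 0x3c0ac04008080021789ac7b7b713c1080) (.leaf 0x3c0ac0400408002178970df30713c1080)))) (.sR 2400 (.sR 2352 (.leaf 0x420ac04020080031789adaa7271421080) (.sR 2376 (.leaf 0x3e0ac04010080031789eef418713e1080) (.leaf 0x3c0a804014080031789f10c21713c1080))) (.sR 2448 (.sR 2424 (.leaf 0x380a80400c080031709ad7f474b381080) (.leaf 0x400b004000080031809ac5baa71401080)) (.sR 2472 (.leaf 0x3c0ac04008080031789ac7b7b713c1080) (.leaf 0x3c0ac0400408003178970df30713c1080)))))))) (.sR 2136 (.leaf 0x420a00407c080281609af0b274b421080) (.sr 736 (.sR 2304 (.sR 2208 (.sR 2160 (.leaf 0x3809c0405808001158a50af6425381080) (.sR 2184 (.leaf 0x460a4000d80800116896e017e4b461080) (.leaf 0x400a4000dc080011689b0ac904b401080))) (.sR 2256 (.sR 2232 (.leaf 0x3a0a404048080011689f155d34b3a1080) (.leaf 0x400a80405c080011709b270334b401080)) (.sR 2280 (.leaf 0x380a00401808001168a25eaad4b381080) (.sg 87 (.leaf 0x460ac0401c0801c178971de4f71461080) (.leaf 0x460ac0401c0801d178971de4f71461080)))))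 (.sR 2400 (.sR 2352 (.sR 2328 (.leaf 0x440a804024080011789abbfae71441080) (.leaf 0x420ac04020080011789adaa7271421080)) (.sR 2376 (.leaf 0x3e0ac04010080011789eef418713e1080) (.leaf 0x3c0a804014080011789f10c21713c1080))) (.sR 2448 (.sR 2424 (.leaf 0x380a80400c080011709ad7f474b381080) (.sg 87 (.leaf 0x400b0040000801c1809ac5baa71401080) (.leaf 0x400b0040000801d1809ac5baa71401080))) (.sR 2472 (.leaf 0x3c0ac04008080011789ac7b7b713c1080) (.sg 87 (.leaf 0x3c0ac040040801c178970df30713c1080) (.leaf 0x3c0ac040040801d178970df30713c1080)))))) (.sR 2184 (.sR 2160 (.leaf 0x3809c040580801e158a50af6425381080) (.leaf 0x460a4040800801e16896e017e4b461080)) (.sR 2208 (.leaf 0x400a0040840801e1689b0ac904b401080) (.sg 87 (.sR 2304 (.sR 2256 (.sR 2232 (.leaf 0x3a0a404048080001689f155d34b3a1080) (.leaf 0x400a80405c080001709b270334b401080)) (.sR 2280 (.leaf 0x380a00401808000168a25eaad4b381080) (.sR 2292 (.leaf 0x460ac0406008000178971de4f71461080) (.leaf 0x460ac000640800017896ec6cc71461080))))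 (.sR 2352 (.sR 2328 (.leaf 0x440a804024080001789abbfae71441080) (.leaf 0x420ac04020080001789adaa7271421080)) (.sR 2376 (.leaf 0x3e0ac04010080001789eef418713e1080) (.sR 2400 (.leaf 0x3c0a804014080001789f10c21713c1080) (.sR 2436 (.sR 2412 (.leaf 0x3c0a804108080001789ec97df713c1080) (.sR 2424 (.leaf 0x380a80410c080001709ac99794b381080) (.leaf 0x400b004110080001809ac5baa71401080))) (.sR 2460 (.sR 2448 (.sr 752 (.leaf 0x3e0b00408c080231809b181b8713e1080) (.leaf 0x3e0b00408c080241809b181b8713e1080)) (.leaf 0x3e0b000114080001809af2e2e713e1080)) (.sR 2472 (.leaf 0x3a0ac00118080001789b24d99713a1080) (.sr 752 (.leaf 0x3c0a8000900802317092de3804b3c1080) (.leaf 0x3c0a8000900802417092de3804b3c1080))))))))) (.sR 2304 (.sR 2232 (.leaf 0x3a0a404048080061689f155d34b3a1080) (.sR 2256 (.sR 2244 (.leaf 0x400a8000e0080061709b270334b401080) (.leaf 0x400a4000e8080061709b00df74b401080)) (.sR 2268 (.leaf 0x3e0a4040ec080061709b29bb74b3e1080) (.sr 752 (.sR 2280 (.leaf 0x3a0a404088080141709f141034b3a1080)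 (.sR 2292 (.leaf 0x460ac0406008014178971de4f71461080) (.leaf 0x460ac000640801417896ec6cc71461080))) (.sR 2280 (.leaf 0x3a0a4040880801f1709f141034b3a1080) (.sR 2292 (.leaf 0x460ac040600801f178971de4f71461080) (.leaf 0x460ac000640801f17896ec6cc71461080))))))) (.sR 2328 (.leaf 0x440a804024080061789abbfae71441080) (.sR 2400 (.sR 2364 (.sR 2340 (.leaf 0x420ac040f0080061789adaa7271421080) (.sR 2352 (.leaf 0x400a8040f4080061789b263bf71401080) (.leaf 0x3e0a8040f8080061789eef418713e1080))) (.sR 2376 (.sr 752 (.leaf 0x3e0ac000fc080141789ec722a713e1080) (.leaf 3)) (.sR 2388 (.leaf 0x3c0ac04100080061789f10c21713c1080) (.sr 752 (.leaf 0x3c0a800104080141789eeca1a713c1080) (.leaf 3))))) (.leaf 3))))))))))))))))))))))))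
theorem k12 : ChunkP 60 61 512 768 80 88 1248 2484 :=
  chkD_sound (Q := 40) (C := [c248.c, c230.c, c228.c, c247.c, c205.c, c206.c, c250.c, c207.c, c197.c, c201.c, c218.c, c224.c, c236.c, c237.c, c239.c, c134.c, c144.c, c145.c, c148.c, c238.c, c245.c, c219.c, c240.c, c133.c, c146.c, c169.c, c196.c, c208.c, c229.c, c231.c, c249.c, c254.c, c163.c, c165.c, c220.c, c244.c, c253.c, c142.c, c216.c, c227.c, c241.c, c246.c])
    (T := [f_w606_612_8_5_10e, f_w618_624_8_6_16e, f_w612_618_8_6_20e, f_w600_606_8_5_10e, f_w588_594_8_5_10e, f_w594_600_8_5_10e, f_w564_570_8_10_15e, f_w570_576_8_10_25e, f_w582_588_8_5_10e, f_w576_582_8_5_10e, f_w540_552_8_5_10e, f_w552_564_8_5_10e, f_w564_576_8_5_10e, f_w588_600_8_5_5e, f_w492_504_8_5_15e, f_w504_516_8_5_15e, f_w516_528_8_5_10e, f_w528_540_8_5_10e, f_w552_558_8_10_15e, f_w576_588_8_5_10e, f_w600_612_8_5_5e, f_w480_492_8_10_15e, f_w534_540_8_10_15e, f_w558_564_8_10_15e, f_w570_573_8_10_20e, f_w573_576_8_10_20e, f_w612_624_8_5_5e,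 f_w408_420_16_10_30, f_w432_444_8_10_20e, f_w444_456_8_5_20, f_w468_480_8_5_15e, f_w528_534_8_10_15e, f_w540_546_8_10_15e, f_w546_552_8_10_15e, f_w567_570_8_10_20e, f_w609_612_8_6_18e, f_w618_621_8_6_20e, f_w312_324_0_5_0, f_w324_336_0_5_0, f_w336_348_8_10_30e, f_w348_360_0_5_0, f_w360_372_8_5_20e, f_w372_384_0_20_40e, f_w372_384_8_10_30, f_w384_396_16_5_20e, f_w396_408_16_5_20e, f_w420_432_0_5_0e, f_w420_432_8_5_20, f_w444_456_0_5_0e, f_w456_468_0_5_0e, f_w456_468_8_5_15e, f_w468_480_0_5_0e, f_w480_492_8_10_20, f_w528_540_8_10_20, f_w540_546_8_10_20, f_w546_552_8_10_20, f_w558_561_8_10_20e, f_w558_564_8_10_20, f_w561_564_8_10_20e, f_w564_567_8_10_20e, f_w582_585_8_5_15f, f_w585_588_8_5_15f, f_w588_591_8_5_15e, f_w591_594_8_5_15e, f_w594_597_8_6_18f, f_w597_600_8_5_15e, f_w600_603_8_5_15e, f_w603_606_8_6_18f, f_w606_609_8_6_18f, f_w612_615_8_6_20e, f_w615_618_8_6_20e]) (t := t12)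
    (all_cons p248 (all_cons p230 (all_cons p228 (all_cons p247 (all_cons p205 (all_cons p206 (all_cons p250 (all_cons p207 (all_cons p197 (all_cons p201 (all_cons p218 (all_cons p224 (all_cons p236 (all_cons p237 (all_cons p239 (all_cons p134 (all_cons p144 (all_cons p145 (all_cons p148 (all_cons p238 (all_cons p245 (all_cons p219 (all_cons p240 (all_cons p133 (all_cons p146 (all_cons p169 (all_cons p196 (all_cons p208 (all_cons p229 (all_cons p231 (all_cons p249 (all_cons p254 (all_cons p163 (all_cons p165 (all_cons p220 (all_cons p244 (all_cons p253 (all_cons p142 (all_cons p216 (all_cons p227 (all_cons p241 (all_cons p246 all_nil)))))))))))))))))))))))))))))))))))))))))) (all_cons f_w606_612_8_5_10e_p (all_cons f_w618_624_8_6_16e_p (all_cons f_w612_618_8_6_20e_p (all_cons f_w600_606_8_5_10e_p (all_cons f_w588_594_8_5_10e_p (all_cons f_w594_600_8_5_10e_p (all_cons f_w564_570_8_10_15e_p (all_cons f_w570_576_8_10_25e_p (all_cons f_w582_588_8_5_10e_p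 (all_cons f_w576_582_8_5_10e_p (all_cons f_w540_552_8_5_10e_p (all_cons f_w552_564_8_5_10e_p (all_cons f_w564_576_8_5_10e_p (all_cons f_w588_600_8_5_5e_p (all_cons f_w492_504_8_5_15e_p (all_cons f_w504_516_8_5_15e_p (all_cons f_w516_528_8_5_10e_p (all_cons f_w528_540_8_5_10e_p (all_cons f_w552_558_8_10_15e_p (all_cons f_w576_588_8_5_10e_p (all_cons f_w600_612_8_5_5e_p (all_cons f_w480_492_8_10_15e_p (all_cons f_w534_540_8_10_15e_p (all_cons f_w558_564_8_10_15e_p (all_cons f_w570_573_8_10_20e_p (all_cons f_w573_576_8_10_20e_p (all_cons f_w612_624_8_5_5e_p (all_cons f_w408_420_16_10_30_p (all_cons f_w432_444_8_10_20e_p (all_cons f_w444_456_8_5_20_p (all_cons f_w468_480_8_5_15e_p (all_cons f_w528_534_8_10_15e_p (all_cons f_w540_546_8_10_15e_p (all_cons f_w546_552_8_10_15e_p (all_cons f_w567_570_8_10_20e_p (all_cons f_w609_612_8_6_18e_p (all_cons f_w618_621_8_6_20e_p (all_cons f_w312_324_0_5_0_p (all_cons f_w324_336_0_5_0_p (all_cons f_w336_348_8_10_30e_p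 (all_cons f_w348_360_0_5_0_p (all_cons f_w360_372_8_5_20e_p (all_cons f_w372_384_0_20_40e_p (all_cons f_w372_384_8_10_30_p (all_cons f_w384_396_16_5_20e_p (all_cons f_w396_408_16_5_20e_p (all_cons f_w420_432_0_5_0e_p (all_cons f_w420_432_8_5_20_p (all_cons f_w444_456_0_5_0e_p (all_cons f_w456_468_0_5_0e_p (all_cons f_w456_468_8_5_15e_p (all_cons f_w468_480_0_5_0e_p (all_cons f_w480_492_8_10_20_p (all_cons f_w528_540_8_10_20_p (all_cons f_w540_546_8_10_20_p (all_cons f_w546_552_8_10_20_p (all_cons f_w558_561_8_10_20e_p (all_cons f_w558_564_8_10_20_p (all_cons f_w561_564_8_10_20e_p (all_cons f_w564_567_8_10_20e_p (all_cons f_w582_585_8_5_15f_p (all_cons f_w585_588_8_5_15f_p (all_cons f_w588_591_8_5_15e_p (all_cons f_w591_594_8_5_15e_p (all_cons f_w594_597_8_6_18f_p (all_cons f_w597_600_8_5_15e_p (all_cons f_w600_603_8_5_15e_p (all_cons f_w603_606_8_6_18f_p (all_cons f_w606_609_8_6_18f_p (all_cons f_w612_615_8_6_20e_p (all_cons f_w615_618_8_6_20e_p all_nil)))))))))))))))))))))))))))))))))))))))))))))))))))))))))))))))))))))))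
    (by decide +kernel)
def t13 : Tree := (.sR 1392 (.sR 1296 (.leaf 0x38054000780800e0c9b803d1825381000) (.sR 1344 (.leaf 0x380580007c0800e0d1ac0500325381000) (.sr 640 (.leaf 0x3806404050080070e8c0c1d8725381080) (.leaf 0x38064040500801e0e8c0c1d8725381080)))) (.sR 1440 (.leaf 0x3805c000800600e0d11c098ad25381000) (.sR 1488 (.leaf 0x3a070000840601b0f8b8d429b253a1080) (.sr 640 (.sR 1728 (.sR 1584 (.sR 1536 (.leaf 0x380700001808007100b4e215d25381080) (.leaf 0x38068040880800d0f1840181925381000)) (.sR 1632 (.leaf 0x4c06804090080130f076978a9974c1100) (.sR 1680 (.leaf 0x4c06804098080130f07286c3f974c1100) (.leaf 0x38074040a00800d109a400ffc25381000)))) (.sR 1824 (.sR 1776 (.leaf 0x380840400008007128a52aa0825381080) (.leaf 0x3807c040540800d119b800b8a25381000)) (.sR 1872 (.leaf 0x380880405808007130acfc7aa25381080) (.sR 1920 (.leaf 0x3808c0401c08007138a9089a325381080) (.sg 92 (.sR 2064 (.sR 1968 (.leaf 0x380900405c08006140a514ff725381080) (.sR 2016 (.leaf 0x380940402008006148a1a475f25381080)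 (.leaf 0x380900402408006148a8ff61525381080))) (.sR 2112 (.leaf 0x3e09c04028080061589e007ef253e1080) (.sR 2160 (.leaf 0x420a00402c080061609af0b274b421080) (.sr 576 (.sR 2304 (.sR 2208 (.leaf 0x460a4040340800216896e017e4b461080) (.sR 2256 (.leaf 0x3a0a404068080021689f155d34b3a1080) (.leaf 0x4a0a80006c0800217892f6fb3714a1080))) (.sR 2352 (.leaf 0x440a8000e0080021789abbfae71441080) (.sR 2400 (.leaf 0x3e0a8000e4080021789eef418713e1080) (.sR 2448 (.sR 2424 (.leaf 0x380a80400c080021709ad7f474b381080) (.leaf 0x400b004010080021809ac5baa71401080)) (.sR 2472 (.leaf 0x3c0ac0404c080021789ac7b7b713c1080) (.sg 90 (.leaf 0x3c0ac0401408019178970df30713c1080) (.leaf 0x3c0ac040140801a178970df30713c1080))))))) (.sR 2256 (.sR 2208 (.leaf 0x460a4040340800816896e017e4b461080) (.leaf 0x3a0a404068080081689f155d34b3a1080)) (.sR 2304 (.leaf 0x4a0a80006c0800817892f6fb3714a1080) (.sR 2328 (.leaf 0x440a804048080081789abbfae71441080) (.sR 2352 (.leaf 0x420ac04074080081789adaa7271421080)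 (.sg 90 (.sR 2424 (.sR 2376 (.leaf 0x3e0ac04004080041789eef418713e1080) (.sR 2400 (.leaf 0x3c0a804008080041789f10c21713c1080) (.leaf 0x380a80400c080041709ad7f474b381080))) (.sR 2448 (.leaf 0x400b004010080041809ac5baa71401080) (.sR 2472 (.leaf 0x3c0ac0404c080041789ac7b7b713c1080) (.leaf 0x3c0ac0401408004178970df30713c1080)))) (.sR 2376 (.leaf 0x3e0ac04004080141789eef418713e1080) (.sR 2400 (.leaf 0x3c0a804008080141789f10c21713c1080) (.leaf 3)))))))))))) (.sR 2064 (.sR 1968 (.leaf 0x380900405c0800b140a514ff725381080) (.sR 2016 (.leaf 0x38094040200800b148a1a475f25381080) (.leaf 0x38090040240800b148a8ff61525381080))) (.sR 2112 (.leaf 0x4409c040280800b1589d846f525441080) (.sR 2208 (.sr 576 (.sR 2160 (.leaf 0x420a00402c080121609af0b274b421080) (.leaf 0x460a4040340801216896e017e4b461080)) (.leaf 3)) (.leaf 3))))))))) (.sR 1584 (.sR 1536 (.sg 92 (.leaf 0x380700001808016100b4e215d25381080) (.leaf 0x38070000180801f100b4e215d25381080)) (.leaf 0x4c0680408c0800f0f07ac3494974c1100))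 (.sR 1632 (.leaf 0x4e06c040940800f0f876a3f2b974e1100) (.sR 1680 (.leaf 0x4e06c0409c0800f0f87284935974e1100) (.sg 92 (.sR 1728 (.leaf 0x38080000a808016120a910dae25381080) (.sr 704 (.sR 1968 (.sR 1824 (.sR 1776 (.leaf 0x380840400008003128a52aa0825381080) (.leaf 0x3807c0405408015119b800b8a25381000)) (.sR 1872 (.leaf 0x38080040b008015121c800d1425381000) (.sR 1920 (.leaf 0x3808c0401c08003138a9089a325381080) (.leaf 0x3a090000b808003140a51033f253a1080)))) (.sR 2064 (.sR 2016 (.leaf 0x380940402008003148a1a475f25381080) (.leaf 0x380900402408003148a8ff61525381080)) (.sR 2112 (.leaf 0x3e09c04028080031589e007ef253e1080) (.sR 2160 (.leaf 0x420a00402c080031609af0b274b421080) (.sg 90 (.sR 2232 (.sR 2184 (.leaf 0x460a4040300800916896e017e4b461080) (.sR 2208 (.leaf 0x400a004038080091689b0ac904b401080) (.leaf 0x3a0a40403c080091689f155d34b3a1080))) (.sR 2328 (.sR 2304 (.sr 672 (.sR 2256 (.leaf 0x400a804040080001709b270334b401080) (.sR 2280 (.leaf 0x380a00404408000168a25eaad4b381080)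 (.leaf 0x460ac0407008000178971de4f71461080))) (.sR 2256 (.leaf 0x400a8040400800a1709b270334b401080) (.sR 2280 (.leaf 0x380a0040440800a168a25eaad4b381080) (.sg 89 (.leaf 0x460ac0407008017178971de4f71461080) (.leaf 3))))) (.leaf 0x440a804048080091789abbfae71441080)) (.sR 2352 (.leaf 0x420ac04074080091789adaa7271421080) (.sr 672 (.sR 2424 (.sR 2376 (.leaf 0x3e0ac04004080001789eef418713e1080) (.sR 2400 (.leaf 0x3c0a804008080001789f10c21713c1080) (.leaf 0x380a80400c080001709ad7f474b381080))) (.sR 2448 (.leaf 0x400b004010080001809ac5baa71401080) (.sR 2472 (.leaf 0x3c0ac0404c080001789ac7b7b713c1080) (.leaf 0x3c0ac0401408000178970df30713c1080)))) (.sR 2400 (.sR 2376 (.leaf 0x3e0ac040040800a1789eef418713e1080) (.leaf 0x3c0a8040080800a1789f10c21713c1080)) (.sR 2424 (.leaf 0x380a80400c0800a1709ad7f474b381080) (.sR 2448 (.sg 89 (.leaf 0x400b004010080171809ac5baa71401080) (.leaf 3)) (.leaf 3)))))))) (.leaf 3)))))) (.sR 1872 (.sR 1776 (.leaf 0x380840400008001128a52aa0825381080)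 (.sR 1824 (.leaf 0x3c088000ac08001130a1973e0253c1080) (.leaf 0x380880405808001130acfc7aa25381080))) (.sR 1920 (.leaf 0x3808c0401c08001138a9089a325381080) (.sR 2352 (.sR 2016 (.sR 1968 (.sR 1944 (.leaf 0x38090040b408001140a514ff725381080) (.leaf 0x38090040bc08001140a90294b25381080)) (.sR 1992 (.sg 90 (.leaf 0x3a094040c008010148a1896be253a1080) (.leaf 3)) (.leaf 0x38094040c408001148a50ed8925381080))) (.sR 2064 (.sR 2040 (.leaf 0x38094040c808001148a8ff61525381080) (.leaf 0x3c094040cc08001150a50fbfb253c1080)) (.sR 2328 (.sg 90 (.sR 2088 (.leaf 0x3e098040d0080101589ee938a4b3e1080) (.sR 2112 (.leaf 0x3809c040d408010158a1aa03125381080) (.sr 736 (.sR 2184 (.sR 2136 (.leaf 0x420a004060080051609af0b274b421080) (.sR 2160 (.leaf 0x3809c0406408005158a50af6425381080) (.leaf 0x460a4040300800516896e017e4b461080))) (.sR 2232 (.sR 2208 (.leaf 0x400a004038080051689b0ac904b401080) (.leaf 0x3a0a40403c080051689f155d34b3a1080)) (.sR 2304 (.sg 89 (.sR 2256 (.leaf 0x400a8040400800c1709b270334b401080)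 (.sR 2280 (.leaf 0x380a0040440800c168a25eaad4b381080) (.sR 2292 (.leaf 0x460ac040d80800c178971de4f71461080) (.leaf 0x460ac000dc0800c17896ec6cc71461080)))) (.leaf 3)) (.leaf 0x440a804048080051789abbfae71441080)))) (.sR 2160 (.sR 2136 (.leaf 0x420a004060080181609af0b274b421080) (.leaf 0x3809c0406408018158a50af6425381080)) (.sR 2232 (.sg 89 (.sR 2184 (.leaf 0x460a4040300801116896e017e4b461080) (.sR 2208 (.leaf 0x400a004038080111689b0ac904b401080) (.leaf 0x3a0a40403c080111689f155d34b3a1080))) (.leaf 3)) (.leaf 3)))))) (.leaf 3)) (.leaf 3)))) (.leaf 3)))))) (.sR 1728 (.leaf 0x4c06c040a40801d0f86f2e56d974c1100) (.sR 1776 (.sr 704 (.leaf 0x38084040000801c128a52aa0825381080) (.leaf 3)) (.leaf 3)))))))))))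
theorem k13 : ChunkP 60 61 512 768 88 96 1248 2484 :=
  chkD_sound (Q := 40) (C := [c202.c, c243.c, c136.c, c210.c, c198.c, c233.c, c147.c, c148.c, c199.c, c209.c, c226.c, c149.c, c232.c, c150.c, c172.c, c219.c, c242.c, c251.c, c138.c, c145.c, c200.c, c212.c, c221.c, c225.c, c252.c, c135.c, c137.c, c169.c, c211.c, c220.c, c222.c, c223.c])
    (T := [f_w432_444_8_10_20e, f_w588_594_8_5_10e, f_w594_600_8_5_10e, f_w600_606_8_5_10e, f_w606_612_8_5_10e, f_w618_624_8_6_16e, f_w372_384_8_10_30, f_w468_480_8_5_15e, f_w492_504_8_5_15e, f_w504_516_8_5_15e, f_w516_528_8_5_10e, f_w528_540_8_5_10e, f_w540_546_8_10_15e, f_w540_552_8_5_10e, f_w546_552_8_10_15e, f_w552_558_8_10_15e, f_w558_564_8_10_15e, f_w564_570_8_10_15e, f_w576_582_8_5_10e, f_w612_618_8_6_20e, f_w336_348_8_10_30e, f_w444_456_0_5_0e, f_w456_468_8_5_15e, f_w480_492_8_10_15e, f_w528_534_8_10_15e, f_w534_540_8_10_15e, f_w552_564_8_5_10e, f_w564_576_8_5_10e, f_w570_576_8_10_25e, f_w582_588_8_5_10e, f_w312_324_0_5_0,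 f_w324_336_0_5_0, f_w348_360_0_5_20e, f_w360_372_8_5_20e, f_w384_396_0_5_0e, f_w384_396_16_5_20e, f_w396_408_16_10_30, f_w396_408_16_5_20e, f_w408_420_16_10_30, f_w408_420_16_5_20e, f_w420_432_0_5_0e, f_w420_432_16_5_20e, f_w420_432_8_5_20, f_w444_456_8_5_20, f_w456_468_0_5_0e, f_w480_486_8_10_20e, f_w480_492_8_10_20, f_w486_492_8_5_20e, f_w492_498_8_10_20e, f_w498_504_8_5_15f, f_w504_510_8_5_15e, f_w510_516_8_5_15e, f_w516_522_8_10_15e, f_w522_528_8_5_15e, f_w570_573_8_10_20e, f_w573_576_8_10_20e, f_w576_588_8_5_10e, f_w588_600_8_5_5e]) (t := t13)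
    (all_cons p202 (all_cons p243 (all_cons p136 (all_cons p210 (all_cons p198 (all_cons p233 (all_cons p147 (all_cons p148 (all_cons p199 (all_cons p209 (all_cons p226 (all_cons p149 (all_cons p232 (all_cons p150 (all_cons p172 (all_cons p219 (all_cons p242 (all_cons p251 (all_cons p138 (all_cons p145 (all_cons p200 (all_cons p212 (all_cons p221 (all_cons p225 (all_cons p252 (all_cons p135 (all_cons p137 (all_cons p169 (all_cons p211 (all_cons p220 (all_cons p222 (all_cons p223 all_nil)))))))))))))))))))))))))))))))) (all_cons f_w432_444_8_10_20e_p (all_cons f_w588_594_8_5_10e_p (all_cons f_w594_600_8_5_10e_p (all_cons f_w600_606_8_5_10e_p (all_cons f_w606_612_8_5_10e_p (all_cons f_w618_624_8_6_16e_p (all_cons f_w372_384_8_10_30_p (all_cons f_w468_480_8_5_15e_p (all_cons f_w492_504_8_5_15e_p (all_cons f_w504_516_8_5_15e_p (all_cons f_w516_528_8_5_10e_p (all_cons f_w528_540_8_5_10e_p (all_cons f_w540_546_8_10_15e_p (all_cons f_w540_552_8_5_10e_p (all_cons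 f_w546_552_8_10_15e_p (all_cons f_w552_558_8_10_15e_p (all_cons f_w558_564_8_10_15e_p (all_cons f_w564_570_8_10_15e_p (all_cons f_w576_582_8_5_10e_p (all_cons f_w612_618_8_6_20e_p (all_cons f_w336_348_8_10_30e_p (all_cons f_w444_456_0_5_0e_p (all_cons f_w456_468_8_5_15e_p (all_cons f_w480_492_8_10_15e_p (all_cons f_w528_534_8_10_15e_p (all_cons f_w534_540_8_10_15e_p (all_cons f_w552_564_8_5_10e_p (all_cons f_w564_576_8_5_10e_p (all_cons f_w570_576_8_10_25e_p (all_cons f_w582_588_8_5_10e_p (all_cons f_w312_324_0_5_0_p (all_cons f_w324_336_0_5_0_p (all_cons f_w348_360_0_5_20e_p (all_cons f_w360_372_8_5_20e_p (all_cons f_w384_396_0_5_0e_p (all_cons f_w384_396_16_5_20e_p (all_cons f_w396_408_16_10_30_p (all_cons f_w396_408_16_5_20e_p (all_cons f_w408_420_16_10_30_p (all_cons f_w408_420_16_5_20e_p (all_cons f_w420_432_0_5_0e_p (all_cons f_w420_432_16_5_20e_p (all_cons f_w420_432_8_5_20_p (all_cons f_w444_456_8_5_20_p (all_cons f_w456_468_0_5_0e_p (all_cons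 f_w480_486_8_10_20e_p (all_cons f_w480_492_8_10_20_p (all_cons f_w486_492_8_5_20e_p (all_cons f_w492_498_8_10_20e_p (all_cons f_w498_504_8_5_15f_p (all_cons f_w504_510_8_5_15e_p (all_cons f_w510_516_8_5_15e_p (all_cons f_w516_522_8_10_15e_p (all_cons f_w522_528_8_5_15e_p (all_cons f_w570_573_8_10_20e_p (all_cons f_w573_576_8_10_20e_p (all_cons f_w576_588_8_5_10e_p (all_cons f_w588_600_8_5_5e_p all_nil))))))))))))))))))))))))))))))))))))))))))))))))))))))))))
    (by decide +kernel)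
def t14 : Tree := (.leaf 0x420000000008000020800c0e597421080)
theorem k14 : ChunkP 60 61 768 1024 80 96 480 576 :=
  chkD_sound (Q := 40) (C := [c314.c])
    (T := []) (t := t14)
    (all_cons p314 all_nil) all_nil
    (by decide +kernel)
def t15 : Tree := (.sR 768 (.sR 624 (.leaf 0x4200404008080030287c0b82297421100) (.sR 720 (.sr 896 (.sR 672 (.leaf 0x4400c04000080010388c01f1c97441100) (.leaf 0x4001004004080010408c6170271401100)) (.sR 672 (.leaf 0x4200804000080020307c18cdb97421100) (.leaf 0x4200c04004080020387c2715797421100))) (.leaf 0x43c100000c060000380000000d0435104))) (.sR 864 (.sR 816 (.leaf 0x3c0380001006000088c116d40713c1100) (.leaf 0x4401400014060000400000000e0435104)) (.sR 912 (.leaf 0x4204400018060000a0a54211f4b421100) (.leaf 0x480480001c060000a89d63c714b481100))))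
theorem k15 : ChunkP 60 61 768 1024 80 88 576 960 :=
  chkD_sound (Q := 40) (C := [c311.c, c282.c, c393.c, c312.c])
    (T := [f_w156_168_16_10_45, f_w168_180_16_10_40, f_w144_156_16_10_40e, f_w180_192_16_10_35e, f_w192_204_16_10_30e, f_w204_216_16_10_40, f_w216_228_16_10_40e, f_w228_240_16_10_35e]) (t := t15)
    (all_cons p311 (all_cons p282 (all_cons p393 (all_cons p312 all_nil)))) (all_cons f_w156_168_16_10_45_p (all_cons f_w168_180_16_10_40_p (all_cons f_w144_156_16_10_40e_p (all_cons f_w180_192_16_10_35e_p (all_cons f_w192_204_16_10_30e_p (all_cons f_w204_216_16_10_40_p (all_cons f_w216_228_16_10_40e_p (all_cons f_w228_240_16_10_35e_p all_nil))))))))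
    (by decide +kernel)
def t16 : Tree := (.sR 1008 (.leaf 0x4a04c00000060000b099db948714a1100) (.sR 1056 (.leaf 0x4e05000004060000b8955b5d6714e1100) (.leaf 0x4805000008060000b8998007a4b481100)))
theorem k16 : ChunkP 60 61 768 1024 80 88 960 1104 :=
  chkD_sound (Q := 40) (C := [c311.c])
    (T := [f_w240_252_16_10_35e, f_w252_264_16_10_35e, f_w264_276_16_10_30e]) (t := t16)
    (all_cons p311 all_nil) (all_cons f_w240_252_16_10_35e_p (all_cons f_w252_264_16_10_35e_p (all_cons f_w264_276_16_10_30e_p all_nil)))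
    (by decide +kernel)
def t17 : Tree := (.sR 1152 (.leaf 0x3c05400000060000c0d48d304253c1080) (.leaf 0x3805800004060000c8d0c6fb94b381080))
theorem k17 : ChunkP 60 61 768 1024 80 88 1104 1200 :=
  chkD_sound (Q := 40) (C := [c313.c])
    (T := [f_w276_288_8_10_35e, f_w288_300_8_10_35e]) (t := t17)
    (all_cons p313 all_nil) (all_cons f_w276_288_8_10_35e_p (all_cons f_w288_300_8_10_35e_p all_nil))
    (by decide +kernel)
def t18 : Tree := (.leaf 0x3805c00000060000d0cca408b25381080)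
theorem k18 : ChunkP 60 61 768 1024 80 88 1200 1248 :=
  chkD_sound (Q := 40) (C := [c313.c])
    (T := [f_w300_312_8_10_25e]) (t := t18)
    (all_cons p313 all_nil) (all_cons f_w300_312_8_10_25e_p all_nil)
    (by decide +kernel)
def t19 : Tree := (.sR 1344 (.sR 1296 (.leaf 0x3805400000080030c9b803d1825381000) (.leaf 0x3806004004080000e0c4b7a3825381080)) (.sR 1392 (.leaf 0x3806404008080000e8c0c1d8725381080) (.sR 1440 (.leaf 0x3805c0000c060020d11c098ad25381000) (.leaf 0x3807000010060010f8b8d711a25381080))))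
theorem k19 : ChunkP 60 61 768 896 80 88 1248 1488 :=
  chkD_sound (Q := 40) (C := [c286.c, c285.c, c288.c, c289.c])
    (T := [f_w312_324_0_5_0, f_w324_336_8_10_35e, f_w336_348_8_10_30e, f_w348_360_0_5_20e, f_w360_372_8_5_20e]) (t := t19)
    (all_cons p286 (all_cons p285 (all_cons p288 (all_cons p289 all_nil)))) (all_cons f_w312_324_0_5_0_p (all_cons f_w324_336_8_10_35e_p (all_cons f_w336_348_8_10_30e_p (all_cons f_w348_360_0_5_20e_p (all_cons f_w360_372_8_5_20e_p all_nil)))))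
    (by decide +kernel)

end Pool.Agent.Lib.MP_af3a4a_an.P1.CHK.DATA.N60x61
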