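import Pool.Agent.Lib.MP_af3a4a_an.P1.CHK.DATA.N60x61.C1
import Pool.Agent.Lib.MP_af3a4a_an.P1.CHK.DATA.N60x61.C2
import Pool.Agent.Lib.MP_af3a4a_an.P1.CHK.DATA.F.W144a
import Pool.Agent.Lib.MP_af3a4a_an.P1.CHK.DATA.F.W192a
import Pool.Agent.Lib.MP_af3a4a_an.P1.CHK.DATA.F.W240a
import Pool.Agent.Lib.MP_af3a4a_an.P1.CHK.DATA.F.W288a
import Pool.Agent.Lib.MP_af3a4a_an.P1.CHK.DATA.F.W336a
import Pool.Agent.Lib.MP_af3a4a_an.P1.CHK.DATA.F.W384a
import Pool.Agent.Lib.MP_af3a4a_an.P1.CHK.DATA.F.W432a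
import Pool.Agent.Lib.MP_af3a4a_an.P1.CHK.DATA.F.W432b
import Pool.Agent.Lib.MP_af3a4a_an.P1.CHK.DATA.F.W480a
import Pool.Agent.Lib.MP_af3a4a_an.P1.CHK.DATA.F.W480b
import Pool.Agent.Lib.MP_af3a4a_an.P1.CHK.DATA.F.W528a
import Pool.Agent.Lib.MP_af3a4a_an.P1.CHK.DATA.F.W528b
import Pool.Agent.Lib.MP_af3a4a_an.P1.CHK.DATA.F.W528c
import Pool.Agent.Lib.MP_af3a4a_an.P1.CHK.DATA.F.W528d
import Pool.Agent.Lib.MP_af3a4a_an.P1.CHK.DATA.F.W576a
import Pool.Agent.Lib.MP_af3a4a_an.P1.CHK.DATA.F.W576b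
import Pool.Agent.Lib.MP_af3a4a_an.P1.CHK.DATA.F.W576c
import Pool.Agent.Lib.MP_af3a4a_an.P1.CHK.DATA.F.W576d
import Pool.Agent.Lib.MP_af3a4a_an.P1.CHK.DATA.F.W576e

/-! chunks for 60 <= N <= 61 (generated) -/

set_option autoImplicit false
set_option maxRecDepth 100000

namespace Pool.Agent.Lib.MP_af3a4a_an.P1.CHK.DATA.N60x61

open BOX

def t29 : Tree := (.sg 32 (.sg 16 (.sR 1632 (.sR 1200 (.sR 1008 (.sR 576 (.sR 384 (.leaf 0x40000000000800a020cc6666800401000) (.leaf 0x42000000001000d040e01cd7d25421080)) (.sR 960 (.sr 1280 (.sR 816 (.sR 768 (.leaf 0x42000000001201d048940b21871421080) (.sg 8 (.sr 1152 (.leaf 0x3e000000001201a04884489de713e1000) (.leaf 0x3e00000000120270488403279973e0f80)) (.leaf 0x440100c0080c011050883954e71441100))) (.sR 864 (.leaf 0x44018080200a00605888468e271441100) (.sR 912 (.leaf 0x40020080280a006068948868171401100) (.leaf 0x460200800c0a006068844536971461100)))) (.sR 816 (.leaf 0x3e000000001402d05098134eb713e1000) (.sR 864 (.leaf 0x44000000001600e058940071897441080)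 (.sg 8 (.leaf 0x40000000001600e05878146c497401000) (.sR 912 (.leaf 0x42000000001600e058840ad9a97421080) (.leaf 0x4601c0c00c0c02b068844536971461100)))))) (.leaf 0x46020080100a001068782422d97461100))) (.sR 1104 (.sR 1056 (.leaf 0x400380802c0a0010994010e6800401000) (.leaf 0x3803c0c0540c00d0a8fc46ba325381080)) (.sR 1152 (.leaf 0x3e02c080300a01608084aa8ca713e1080) (.leaf 0x40048040580a0010b9d80199b00401000)))) (.sR 1392 (.sR 1296 (.sR 1248 (.leaf 0x38044080340a0160b0d460e6925381080) (.leaf 0x4004c0405c0a0010c15c0b06800401000)) (.sR 1344 (.leaf 0x40050040600a0010c9600a00200401000) (.leaf 0x3805c0c0640c00d0e8c0c1d8725381080))) (.sR 1488 (.sR 1440 (.leaf 0x38054040680a0010d11c098ad25381000) (.leaf 0x400580406c0a0010d9201b39b00401000)) (.sR 1536 (.leaf 0x3806c080700a001100f45e27d25381000) (.sR 1584 (.leaf 0x38070080740a001108f061b6325381000) (.leaf 0x38074080780a001110f06553425381000)))))) (.sR 2064 (.sR 1824 (.sR 1728 (.sR 1680 (.leaf 0x400680007c0a0010f9301506800401000)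 (.leaf 0x3807c080800a001120e86cb9625381000)) (.sR 1776 (.leaf 0x3806c000880a00110100133c125381000) (.leaf 0x380840808c0a001130e4745a125381000))) (.sR 1920 (.sR 1872 (.leaf 0x40088000940800a131102419b00401000) (.leaf 0x38078080980a001119080f69425381000)) (.sR 1968 (.leaf 0x4008c0809c0a001141082800200401000) (.sR 2016 (.leaf 0x3807c080a40a001120e02693925381000) (.leaf 0x38088080a80a0011395c02efb25381000))))) (.sR 2256 (.sR 2160 (.sR 2112 (.leaf 0x40090000ac0800a141600a00200401000) (.leaf 0x3809c080b40a001160fc68e3f4b381000)) (.sR 2208 (.leaf 0x38088000bc0a001138c844cb225381000) (.leaf 0x38090000c40a001148f01cc1625381000))) (.sR 2352 (.sR 2304 (.leaf 0x38090000c80a001148cc3f20625381000) (.leaf 0x38098000cc0a001158f4194dd25381000)) (.sR 2400 (.leaf 0x38094000d00a001150b46be9425381000) (.sR 2448 (.leaf 0x380a0000d40a001168f8100e64b381000) (.leaf 0x38090000dc0a0011487e4686f71381000))))))) (.sR 1584 (.sR 1152 (.sR 912 (.sR 480 (.sR 384 (.leaf 0x40000000000800a020cc6666700401100)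 (.leaf 0x48000000000e001038ec0ff6025481100)) (.sR 864 (.sr 1280 (.sR 768 (.sR 624 (.leaf 0x46000000001001e040b40e47f4b461100) (.sg 24 (.sR 720 (.leaf 0x420000000010008040940741671421080) (.leaf 0x44008100040e0110488c2d29a71441100)) (.sR 672 (.leaf 0x440000000010008040a00a92c71441100) (.sR 720 (.leaf 0x440080c0e40c0080408c226dd71441100) (.leaf 0x4400c0c0180c0080488c2d29a71441100))))) (.sR 816 (.leaf 0x44014080080a006050883954e71441100) (.leaf 0x44014080240a0060507822cbf97441100))) (.sR 672 (.leaf 0x42000000001202e048c00b2394b421080) (.sR 816 (.sg 24 (.leaf 0x420000000014017050940f28271421080) (.sR 768 (.leaf 0x42000000001200b048940b21871421080) (.leaf 0x4600c100080e0170508825aca71461100))) (.leaf 0x460140c0200c02c058882d5f771461100)))) (.leaf 0x44020080280a0010689445a7071441100))) (.sR 1008 (.sR 960 (.leaf 0x440200800c0a0010688463c1a71441100) (.leaf 0x42024080100a00107084a1b5871421100)) (.sR 1056 (.leaf 0x3803c0402c080000994004bdd25381000) (.sR 1104 (.leaf 0x3804404054080070a8fc46ba325381080)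 (.leaf 0x3c030040300800708085226e6713c1080))))) (.sR 1344 (.sR 1248 (.sR 1200 (.leaf 0x3804c00058080000b9d801f1d25381000) (.leaf 0x3804804034080070b0d460e6925381080)) (.sR 1296 (.leaf 0x380500005c080000c15c02efb25381000) (.leaf 0x3805800060080000d1ac02e264b381000))) (.sR 1440 (.sR 1392 (.leaf 0x3806404064080070e8c0c1d8725381080) (.leaf 0x3805800068080000d11c098ad25381000)) (.sR 1488 (.leaf 0x380600006c080000e17401e9d25381000) (.sR 1536 (.leaf 0x380700407008000100f45e27d25381000) (.leaf 0x380740407408000108f061b6325381000)))))) (.sR 2016 (.sR 1776 (.sR 1680 (.sR 1632 (.leaf 0x380780407808000110f06553425381000) (.leaf 0x3806c0007c0a000101980127d25381000)) (.sR 1728 (.leaf 0x380800408008000120e86cb9625381000) (.leaf 0x3806c000880a00010100133c125381000))) (.sR 1872 (.sR 1824 (.leaf 0x380880408c08000130e4745a125381000) (.leaf 0x3808800094080001311040b9d25381000)) (.sR 1920 (.leaf 0x3807c0409808000119080f69425381000) (.sR 1968 (.leaf 0x380900409c080001410846dd725381000)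 (.leaf 0x38084040a408000129100d33525381000))))) (.sR 2256 (.sR 2112 (.sR 2064 (.leaf 0x3808c040a8080001395c02efb25381000) (.leaf 0x40090000ac08000141600a00200401000)) (.sR 2160 (.leaf 0x380a0040b408000160fc68e3f4b381000) (.sR 2208 (.leaf 0x38088000bc0a000138c844cb225381000) (.leaf 0x38094000c40a0001512008c6425381000)))) (.sR 2352 (.sR 2304 (.leaf 0x38090000c80a000148cc3f20625381000) (.leaf 0x38098000cc0a000158f4194dd25381000)) (.sR 2400 (.leaf 0x38094000d00a000150b46be9425381000) (.sR 2448 (.leaf 0x380a0000d40a000168f8100e64b381000) (.leaf 0x38090000dc0a0001487e4686f71381000)))))))) (.sg 48 (.sR 1584 (.sR 1104 (.sR 864 (.sR 432 (.sR 336 (.leaf 0x400000000004026010b88a72c00400f00) (.leaf 0x48000000000a007028c4045324b481180)) (.sR 816 (.sr 1280 (.sR 720 (.sR 528 (.leaf 0x44000000000c020030b80ba6d4b441100) (.sg 40 (.sR 624 (.leaf 0x44000000000e012038a0072c171441100) (.sR 672 (.sr 1152 (.leaf 0x42000000000e01b038940394671421080) (.leaf 0x42000000000e028038940394671421080))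 (.leaf 0x4400c080000a01f0408c226dd71441100))) (.sR 624 (.leaf 0x46000000000e012038940cef471461180) (.sR 672 (.leaf 0x44008080140a0090388c1a71271441100) (.leaf 0x4400c080000a0090408c226dd71441100))))) (.sR 768 (.leaf 0x4401404004080130488c2d29a71441100) (.leaf 0x440180401c08013050883954e71441100))) (.sR 576 (.leaf 0x46000000000e00f038b408edb4b461100) (.sR 768 (.sg 40 (.sR 720 (.leaf 0x44000000001200b0489c16e5871441100) (.leaf 0x46010080040a00b0488c231fe71461100)) (.sR 720 (.leaf 0x48000000001200b0488c1b36271481180) (.leaf 0x4401404018080180488c2d29a71441100))) (.leaf 0x46018040080800f0508825aca71461100)))) (.leaf 0x4601c0402008000058882d5f771461100))) (.sR 960 (.sR 912 (.leaf 0x42024040280800006894668fb71421100) (.leaf 0x420240400c08000068848780871421100)) (.sR 1008 (.leaf 0x4402c0401008000078908ec874b441100) (.sR 1056 (.leaf 0x400440002c060030a1b80000225401000) (.leaf 0x3e038040500800009098e08674b3e1100))))) (.sR 1344 (.sR 1200 (.sR 1152 (.leaf 0x3c0380003006002088989e93f4b3c1080)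 (.leaf 0x3804c040fc080020b8f4542aa25381080)) (.sR 1248 (.leaf 0x4005004034080020c0f0629e14b401080) (.sR 1296 (.leaf 0x3c05804108080020d0dc7a7d9253c1080) (.leaf 0x3804800110060020a898dc53e4b381080)))) (.sR 1440 (.sR 1392 (.leaf 0x4004c00118060020b098b682925401080) (.leaf 0x3a0480011c060030a884a182b713a1000)) (.sR 1488 (.leaf 0x3e05400128060020c098c39b7253e1080) (.sR 1536 (.leaf 0x380680012c060030e97c01b3c25381000) (.leaf 0x3805c00138080020d8a8bac9725381080)))))) (.sR 2016 (.sR 1776 (.sR 1680 (.sR 1632 (.leaf 0x3806c0013c060030f12c06c8225381000) (.leaf 0x3806400144060030e0b46852225381000)) (.sR 1728 (.leaf 0x4406400084080020e894fef5325441080) (.leaf 0x380740003806002100b0b220e25381080))) (.sR 1872 (.sR 1824 (.leaf 0x4606c00090080020f894fe48025461080) (.leaf 0x4206c0003c080020f88637b464b421080)) (.sR 1920 (.leaf 0x380900004006002138a9089a325381080) (.sR 1968 (.leaf 0x38080000a008002120a8ce3ed25381080) (.leaf 0x380980004406002148a1a475f25381080))))) (.sR 2256 (.sR 2112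 (.sR 2064 (.leaf 0x3a09c0004806002150a1a669c253a1080) (.leaf 0x40098000b0080021589dd9dad25401080)) (.sR 2160 (.leaf 0x420a00015c080021609af0b274b421080) (.sR 2208 (.leaf 0x460a4001600800216896e017e4b461080) (.leaf 0x460a8001640800217096f98244b461080)))) (.sR 2352 (.sR 2304 (.leaf 0x4a0ac001740800217892f6fb3714a1080) (.leaf 0x440ac00180080021789abbfae71441080)) (.sR 2400 (.leaf 0x3e0a80018c080021789eef418713e1080) (.sR 2448 (.leaf 0x3e0ac040d8080021789ad43ae713e1080) (.leaf 0x3e0b00004c0600217896c9a02713e1080))))))) (.sR 1200 (.sR 960 (.sR 432 (.sR 384 (.leaf 0x4a0000000006025018bc5e403254a1080) (.leaf 0x460000000008002020b0148644b461180)) (.sR 864 (.sr 1280 (.sR 720 (.sR 528 (.leaf 0x46000000000a0210289806dd471461180) (.sg 56 (.sR 624 (.sR 576 (.leaf 0x44000000000c00903098166bf71441180) (.sr 1152 (.leaf 0x44000000000c01c0308c1883471441100) (.leaf 0x44000000000c0290308c1883471441100))) (.sR 672 (.leaf 0x4400c04014080140388c1a71271441100) (.leaf 0x4401004000080140408c226dd71441100)))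 (.sR 624 (.sR 576 (.leaf 0x46000000000c0090308c27e1d71461200) (.leaf 0x44008040e00800c0308c1883471441100)) (.sR 672 (.leaf 0x4400c040140800c0388c1a71271441100) (.leaf 0x44010040000800c0408c226dd71441100))))) (.sR 768 (.leaf 0x4601404018080150488c019d697461100) (.sR 816 (.leaf 0x440180401c08015050883954e71441100) (.leaf 0x420240002406022060985749471421100)))) (.sR 720 (.sR 480 (.leaf 0x46000000000a02f028ac176214b461180) (.sR 528 (.leaf 0x4c000000000e00f038a80359f714c1200) (.sg 56 (.sR 672 (.leaf 0x480000000010018040900ff5171481180) (.leaf 0x4601404000080190489c0378471461100)) (.sR 624 (.leaf 0x48000000000e019038941141d71481180) (.sR 672 (.sr 1408 (.leaf 0x46000000000e02a038840214397461180) (.leaf 0x46000000000e032038840214397461180)) (.leaf 0x4401004000080300408c226dd71441100)))))) (.sR 768 (.leaf 0x4601404004080100488c019d697461100) (.sR 816 (.leaf 0x460180401c080100508825aca71461100) (.leaf 0x4401c040240801005888468e271441100))))) (.sR 912 (.leaf 0x46024000e806003060880d15897461100)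 (.leaf 0x4402c000ec060030709454c7871441100)))) (.sR 1056 (.sR 1008 (.leaf 0x4203000010060030789087eb371421100) (.leaf 0x44038000f0060030889c8b38f4b441100)) (.sR 1104 (.leaf 0x400400005006003098a0c5aa14b401100) (.sR 1152 (.leaf 0x3e048000f4060030a8a0f80154b3e1100) (.leaf 0x49c38000f8060030880000000c8489104))))) (.sR 1440 (.sR 1296 (.sR 1248 (.leaf 0x4603c0010006003090716b33597461100) (.leaf 0x4ac4000104060030980000000d0499104)) (.sR 1344 (.leaf 0x4804c0010c060030b081276c771481100) (.sR 1392 (.leaf 0x4805400114060030c0854144e71481100) (.leaf 0x4e06000120060030d8850f7ba714e1100)))) (.sR 1584 (.sR 1488 (.leaf 0x4e06800124060030e881a88f6974e1100) (.sR 1536 (.leaf 0x4a06800130060030e87ee4431974a1100) (.leaf 0x4a06800134060030e87ab1336974a1100))) (.sR 1632 (.leaf 0x4e06c00140060030f075e1c82974e1100) (.sR 1680 (.leaf 0x4e06c00148060030f071dfcce974e1100) (.sr 1280 (.sR 2064 (.sR 1872 (.sR 1776 (.sR 1728 (.leaf 0x3a0800008408004120a90d349253a1080) (.leaf 0x380880003806004128a52aa0825381080))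 (.sR 1824 (.leaf 0x420880009008004130a131a9a25421080) (.leaf 0x380880003c08004130acfc7aa25381080))) (.sR 1968 (.sR 1920 (.leaf 0x380900004006004138a9089a325381080) (.leaf 0x38090000a008004140a514ff725381080)) (.sR 2016 (.leaf 0x3c0980004406004148a16a617253c1080) (.leaf 0x3c09c0004806004150a18716e253c1080)))) (.sR 2256 (.sR 2160 (.sR 2112 (.leaf 0x3c098000b0080041589f2970d4b3c1080) (.leaf 0x420a4000b8060041609af0b274b421080)) (.sR 2208 (.leaf 0x460a4000c00600416896e017e4b461080) (.leaf 0x3a0a80016c060041689f155d34b3a1080))) (.sR 2352 (.sR 2304 (.leaf 0x4a0b0001700600417892f6fb3714a1080) (.leaf 0x440b00017c060041789abbfae71441080)) (.sR 2400 (.leaf 0x3e0b000188060041789eef418713e1080) (.sR 2448 (.leaf 0x3e0b000194060041789ad43ae713e1080) (.sg 56 (.leaf 0x3e0a8001980a02317896c9a02713e1080) (.leaf 0x3e0b00004c0602417896c9a02713e1080))))))) (.sR 2064 (.sR 1872 (.sR 1776 (.sR 1728 (.leaf 0x380840014c06005120a910dae25381080) (.leaf 0x380880003806005128a52aa0825381080))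 (.sR 1824 (.leaf 0x3e08c0015006005130a17903f253e1080) (.leaf 0x400880003c08031130ace62a125401080))) (.sR 1968 (.sR 1920 (.leaf 0x380900004006005138a9089a325381080) (.leaf 0x380940015406005140a514ff725381080)) (.sR 2016 (.leaf 0x3a0980004406005148a1896be253a1080) (.leaf 0x3a09c0004806005150a1a669c253a1080)))) (.sR 2256 (.sR 2160 (.sR 2112 (.leaf 0x420a000158060051589db056025421080) (.leaf 0x420a4000b8060051609af0b274b421080)) (.sR 2208 (.leaf 0x460a4000c00600516896e017e4b461080) (.leaf 0x460ac001680600517096f98244b461080))) (.sR 2352 (.sR 2304 (.leaf 0x4a0b0001780600517892f6fb3714a1080) (.leaf 0x440b000184060051789abbfae71441080)) (.sR 2400 (.leaf 0x3e0b000190060051789eef418713e1080) (.sR 2448 (.leaf 0x3e0b0000d8060051789ad43ae713e1080) (.leaf 0x3e0b00004c0600517896c9a02713e1080))))))))))))))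
theorem k29 : ChunkP 60 61 1024 1536 0 64 0 2484 :=
  chkD_sound (Q := 40) (C := [c534.c, c532.c, c535.c, c536.c, c519.c, c664.c, c504.c, c533.c, c506.c, c511.c, c531.c, c657.c, c517.c, c530.c, c652.c, c658.c, c662.c, c502.c, c508.c, c509.c, c513.c, c516.c, c529.c, c655.c, c659.c, c661.c, c488.c, c489.c, c490.c, c503.c, c505.c, c507.c, c510.c, c512.c, c515.c, c518.c, c520.c, c537.c, c538.c, c603.c, c604.c, c605.c, c641.c, c651.c, c653.c, c654.c, c656.c, c660.c, c663.c, c665.c, c693.c])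
    (T := [f_w168_180_16_10_40, f_w180_192_16_10_35e, f_w192_204_16_10_30e, f_w228_240_16_20_55, f_w240_252_16_15_45, f_w156_168_16_10_40e, f_w180_192_16_10_40, f_w192_204_16_10_40, f_w204_216_16_10_30e, f_w204_216_16_10_40, f_w216_228_16_20_40, f_w252_264_0_10_20e, f_w276_288_8_10_35e, f_w300_312_8_30_50, f_w432_444_8_20_40, f_w456_468_8_10_30, f_w468_480_8_20_35, f_w492_504_8_20_30, f_w504_516_8_20_30, f_w612_624_8_20_20, f_w264_276_16_15_40, f_w264_276_8_40_30, f_w288_300_0_5_0, f_w312_324_0_5_0, f_w324_336_0_5_0, f_w336_348_8_40_40, f_w348_360_0_5_0, f_w360_372_0_5_0, f_w372_384_0_40_30, f_w384_396_0_40_30, f_w396_408_0_40_30, f_w408_420_0_5_0, f_w420_432_0_40_30, f_w420_432_8_5_20, f_w432_444_0_5_0, f_w444_456_0_40_30, f_w444_456_8_5_20, f_w456_468_0_30_30, f_w468_480_0_5_0e, f_w480_492_0_40_20, f_w480_492_8_10_20, f_w492_504_0_5_0e, f_w504_516_0_5_0e, f_w516_528_0_20_30, f_w516_528_8_10_20, f_w528_540_0_40_30, f_w528_540_8_20_30, f_w540_552_0_5_0, f_w540_552_8_20_30,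 f_w552_564_0_5_0, f_w564_576_0_5_0, f_w576_588_0_5_0, f_w588_600_0_5_0, f_w600_612_0_5_0, f_w600_612_8_20_20, f_w612_624_0_5_15, f_w144_156_16_10_40e, f_w168_180_16_10_35e, f_w216_228_16_10_40e, f_w228_240_16_10_35e, f_w252_264_16_15_40, f_w276_288_16_15_40, f_w288_300_16_15_45, f_w288_300_8_30_50, f_w300_312_16_15_40, f_w312_324_16_20_45, f_w312_324_8_30_50, f_w324_336_16_15_40, f_w324_336_8_10_35e, f_w336_348_16_10_35, f_w336_348_8_10_30e, f_w348_360_0_5_20e, f_w348_360_16_15_35, f_w360_372_16_15_35, f_w360_372_8_5_20e, f_w372_384_0_20_40e, f_w372_384_16_10_30e, f_w384_396_16_5_20e, f_w384_396_8_10_30, f_w396_408_0_20_40e, f_w396_408_16_10_30, f_w408_420_0_20_40e, f_w408_420_16_10_30, f_w420_432_8_25_40, f_w444_456_8_20_40, f_w480_492_8_10_15e, f_w516_528_8_25_40, f_w528_540_8_10_20, f_w540_552_8_15_30, f_w552_564_8_15_30, f_w552_564_8_20_30, f_w552_564_8_5_10e, f_w564_576_8_10_10e, f_w564_576_8_10_20, f_w564_576_8_20_30, f_w576_588_8_10_10e, f_w576_588_8_10_25,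 f_w576_588_8_20_20, f_w588_600_8_10_10e, f_w588_600_8_10_20, f_w588_600_8_20_20, f_w600_612_8_10_10e, f_w612_624_8_10_15]) (t := t29)
    (all_cons p534 (all_cons p532 (all_cons p535 (all_cons p536 (all_cons p519 (all_cons p664 (all_cons p504 (all_cons p533 (all_cons p506 (all_cons p511 (all_cons p531 (all_cons p657 (all_cons p517 (all_cons p530 (all_cons p652 (all_cons p658 (all_cons p662 (all_cons p502 (all_cons p508 (all_cons p509 (all_cons p513 (all_cons p516 (all_cons p529 (all_cons p655 (all_cons p659 (all_cons p661 (all_cons p488 (all_cons p489 (all_cons p490 (all_cons p503 (all_cons p505 (all_cons p507 (all_cons p510 (all_cons p512 (all_cons p515 (all_cons p518 (all_cons p520 (all_cons p537 (all_cons p538 (all_cons p603 (all_cons p604 (all_cons p605 (all_cons p641 (all_cons p651 (all_cons p653 (all_cons p654 (all_cons p656 (all_cons p660 (all_cons p663 (all_cons p665 (all_cons p693 all_nil))))))))))))))))))))))))))))))))))))))))))))))))))) (all_cons f_w168_180_16_10_40_p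 (all_cons f_w180_192_16_10_35e_p (all_cons f_w192_204_16_10_30e_p (all_cons f_w228_240_16_20_55_p (all_cons f_w240_252_16_15_45_p (all_cons f_w156_168_16_10_40e_p (all_cons f_w180_192_16_10_40_p (all_cons f_w192_204_16_10_40_p (all_cons f_w204_216_16_10_30e_p (all_cons f_w204_216_16_10_40_p (all_cons f_w216_228_16_20_40_p (all_cons f_w252_264_0_10_20e_p (all_cons f_w276_288_8_10_35e_p (all_cons f_w300_312_8_30_50_p (all_cons f_w432_444_8_20_40_p (all_cons f_w456_468_8_10_30_p (all_cons f_w468_480_8_20_35_p (all_cons f_w492_504_8_20_30_p (all_cons f_w504_516_8_20_30_p (all_cons f_w612_624_8_20_20_p (all_cons f_w264_276_16_15_40_p (all_cons f_w264_276_8_40_30_p (all_cons f_w288_300_0_5_0_p (all_cons f_w312_324_0_5_0_p (all_cons f_w324_336_0_5_0_p (all_cons f_w336_348_8_40_40_p (all_cons f_w348_360_0_5_0_p (all_cons f_w360_372_0_5_0_p (all_cons f_w372_384_0_40_30_p (all_cons f_w384_396_0_40_30_p (all_cons f_w396_408_0_40_30_p (all_cons f_w408_420_0_5_0_p (all_cons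 f_w420_432_0_40_30_p (all_cons f_w420_432_8_5_20_p (all_cons f_w432_444_0_5_0_p (all_cons f_w444_456_0_40_30_p (all_cons f_w444_456_8_5_20_p (all_cons f_w456_468_0_30_30_p (all_cons f_w468_480_0_5_0e_p (all_cons f_w480_492_0_40_20_p (all_cons f_w480_492_8_10_20_p (all_cons f_w492_504_0_5_0e_p (all_cons f_w504_516_0_5_0e_p (all_cons f_w516_528_0_20_30_p (all_cons f_w516_528_8_10_20_p (all_cons f_w528_540_0_40_30_p (all_cons f_w528_540_8_20_30_p (all_cons f_w540_552_0_5_0_p (all_cons f_w540_552_8_20_30_p (all_cons f_w552_564_0_5_0_p (all_cons f_w564_576_0_5_0_p (all_cons f_w576_588_0_5_0_p (all_cons f_w588_600_0_5_0_p (all_cons f_w600_612_0_5_0_p (all_cons f_w600_612_8_20_20_p (all_cons f_w612_624_0_5_15_p (all_cons f_w144_156_16_10_40e_p (all_cons f_w168_180_16_10_35e_p (all_cons f_w216_228_16_10_40e_p (all_cons f_w228_240_16_10_35e_p (all_cons f_w252_264_16_15_40_p (all_cons f_w276_288_16_15_40_p (all_cons f_w288_300_16_15_45_p (all_cons f_w288_300_8_30_50_p (all_cons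 f_w300_312_16_15_40_p (all_cons f_w312_324_16_20_45_p (all_cons f_w312_324_8_30_50_p (all_cons f_w324_336_16_15_40_p (all_cons f_w324_336_8_10_35e_p (all_cons f_w336_348_16_10_35_p (all_cons f_w336_348_8_10_30e_p (all_cons f_w348_360_0_5_20e_p (all_cons f_w348_360_16_15_35_p (all_cons f_w360_372_16_15_35_p (all_cons f_w360_372_8_5_20e_p (all_cons f_w372_384_0_20_40e_p (all_cons f_w372_384_16_10_30e_p (all_cons f_w384_396_16_5_20e_p (all_cons f_w384_396_8_10_30_p (all_cons f_w396_408_0_20_40e_p (all_cons f_w396_408_16_10_30_p (all_cons f_w408_420_0_20_40e_p (all_cons f_w408_420_16_10_30_p (all_cons f_w420_432_8_25_40_p (all_cons f_w444_456_8_20_40_p (all_cons f_w480_492_8_10_15e_p (all_cons f_w516_528_8_25_40_p (all_cons f_w528_540_8_10_20_p (all_cons f_w540_552_8_15_30_p (all_cons f_w552_564_8_15_30_p (all_cons f_w552_564_8_20_30_p (all_cons f_w552_564_8_5_10e_p (all_cons f_w564_576_8_10_10e_p (all_cons f_w564_576_8_10_20_p (all_cons f_w564_576_8_20_30_p (all_cons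 f_w576_588_8_10_10e_p (all_cons f_w576_588_8_10_25_p (all_cons f_w576_588_8_20_20_p (all_cons f_w588_600_8_10_10e_p (all_cons f_w588_600_8_10_20_p (all_cons f_w588_600_8_20_20_p (all_cons f_w600_612_8_10_10e_p (all_cons f_w612_624_8_10_15_p all_nil)))))))))))))))))))))))))))))))))))))))))))))))))))))))))))))))))))))))))))))))))))))))))))))))))))))))
    (by decide +kernel)
def t30 : Tree := (.leaf 0x440000000004000010a09060125440f00)
theorem k30 : ChunkP 60 61 1024 1536 64 80 0 384 :=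
  chkD_sound (Q := 40) (C := [c540.c])
    (T := []) (t := t30)
    (all_cons p540 all_nil) all_nil
    (by decide +kernel)
def t31 : Tree := (.leaf 0x460000000006000018a048c4c4b461100)
theorem k31 : ChunkP 60 61 1024 1536 64 80 384 432 :=
  chkD_sound (Q := 40) (C := [c538.c])
    (T := []) (t := t31)
    (all_cons p538 all_nil) all_nil
    (by decide +kernel)
def t32 : Tree := (.sR 1152 (.sR 912 (.sR 816 (.sR 480 (.leaf 0x42000000000602e01890242e371421000) (.sg 72 (.sR 672 (.sR 576 (.leaf 0x46000000000a02d02880061cd97461200) (.sR 624 (.sr 1152 (.leaf 0x44000000000a0290287815dd997441180) (.leaf 0x46000000000c0330307c06c7297461200)) (.leaf 0x4400c000bc0600d0307c0ef7b97441100))) (.sR 720 (.leaf 0x44010000c40600d0387c03ac197441100) (.sR 768 (.leaf 0x44018000cc0600d0488c2d29a71441100) (.leaf 0x42024000880600d060a857e094b421100)))) (.sR 672 (.sR 576 (.leaf 0x44000000000800d020781dc2497441180) (.sr 1152 (.sR 624 (.leaf 0x44000000000a02a0287815dd997441180) (.leaf 0x4200c00084060020307c18cdb97421100))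 (.sR 624 (.leaf 0x4400c000b8060010308c1883471441100) (.leaf 0x4400c00084060010307c0ef7b97441100)))) (.sR 720 (.leaf 0x44010000c0060090387c03ac197441100) (.sR 768 (.leaf 0x46018000c8060090488c231fe71461100) (.leaf 0x4601c00088060090508825aca71461100)))))) (.sR 864 (.leaf 0x4402c000d006000070b44b26c71441100) (.leaf 0x42030000d406000078b06d9cb4b421100))) (.sR 1008 (.sR 960 (.leaf 0x3e03c000d806000090b8bfdb54b3e1100) (.leaf 0x3a044000dc060000a0b1176cd4b3a1100)) (.sR 1056 (.leaf 0x3c044000e0060000a0ad2811a713c1100) (.sR 1104 (.leaf 0x4004c000e4060000b0a559c1171401100) (.leaf 0x44050000e8060000b89d7125671441100))))) (.sR 1392 (.sR 1248 (.sR 1200 (.leaf 0x4e058000ec060000c8913d940714e1100) (.leaf 0x4c05c000f0060000d08e54461974c1100)) (.sR 1296 (.leaf 0x4805c000f4060000d0924d1cb71481100) (.sR 1344 (.leaf 0x4a060000f8060000d88ac4400974a1100) (.leaf 0x4e060000fc060000d88919f9b714e1100)))) (.sR 1488 (.sR 1440 (.leaf 0x4a06400100060000e0868b431974a1100) (.leaf 0x4a06800104060000e88326c11974a1100))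 (.sR 1536 (.sg 72 (.leaf 0x4c06c0010c0600d0f07f00ba9974c1100) (.leaf 0x4c06c00108060090f07f00ba9974c1100)) (.sR 1584 (.leaf 0x4c06800110060000e879f4f50974c1100) (.sg 72 (.sR 1728 (.sR 1632 (.leaf 0x4e0700008c0600d0f876a3f2b974e1100) (.sR 1680 (.leaf 0x4e070000900600d0f87284935974e1100) (.leaf 0x380840006806009120a910dae25381080))) (.sR 1776 (.leaf 0x380880006c06009128a52aa0825381080) (.sR 1824 (.leaf 0x4008c0007006009130a15708425401080) (.sr 1152 (.sR 2160 (.sR 1968 (.sR 1872 (.leaf 0x380880009408002130acfc7aa25381080) (.sR 1920 (.leaf 0x380900009806002138a9089a325381080) (.leaf 0x380900009c08002140a514ff725381080))) (.sR 2064 (.sR 2016 (.leaf 0x40098000a006002148a121aab25401080) (.leaf 0x380940001c06002148a8ff61525381080)) (.sR 2112 (.leaf 0x3c098000a4080021589f2970d4b3c1080) (.leaf 0x420a400044060021609af0b274b421080)))) (.sR 2304 (.sR 2208 (.leaf 0x460a8000740600216896e017e4b461080) (.sR 2256 (.leaf 0x3a0a80002c060021689f155d34b3a1080) (.leaf 0x4a0b0000600600217892f6fb3714a1080)))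 (.sR 2400 (.sR 2352 (.leaf 0x440b000078060021789abbfae71441080) (.leaf 0x3e0b000048060021789eef418713e1080)) (.sR 2448 (.leaf 0x3e0b000034060021789ad43ae713e1080) (.sg 68 (.leaf 0x3e0b0000800602b17896c9a02713e1080) (.leaf 0x3e0b0000640602c17896c9a02713e1080)))))) (.sR 2160 (.sR 1968 (.sR 1872 (.leaf 0x380880009408001130acfc7aa25381080) (.sR 1920 (.leaf 0x380900009806001138a9089a325381080) (.leaf 0x380900009c08001140a514ff725381080))) (.sR 2064 (.sR 2016 (.leaf 0x3a098000a006001148a1896be253a1080) (.leaf 0x3c09c0011806001150a18716e253c1080)) (.sR 2112 (.leaf 0x48098000a4080011589d27b8e25481080) (.leaf 0x420a000124080011609af0b274b421080)))) (.sR 2304 (.sR 2208 (.leaf 0x460a4001280600116896e017e4b461080) (.sR 2256 (.leaf 0x3a0a80002c060011689f155d34b3a1080) (.leaf 0x4a0b0000600600117892f6fb3714a1080))) (.sR 2400 (.sR 2352 (.leaf 0x440b00012c060011789abbfae71441080) (.leaf 0x3e0b000048060011789eef418713e1080)) (.sR 2448 (.leaf 0x3e0b000034060011789ad43ae713e1080) (.sg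 68 (.leaf 0x3e0b0000800603417896c9a02713e1080) (.leaf 0x3e0b0000800603517896c9a02713e1080)))))))))) (.sR 1632 (.leaf 0x4c06c0008c060090f076978a9974c1100) (.sR 1680 (.leaf 0x4c06c00090060090f07286c3f974c1100) (.sr 1152 (.sR 1776 (.sR 1728 (.leaf 0x38084000680601a120a910dae25381080) (.leaf 0x3a0880006c0601a128a5196c5253a1080)) (.sR 1824 (.leaf 0x4208c000700601a130a131a9a25421080) (.sg 76 (.sR 2064 (.sR 1920 (.sR 1872 (.leaf 0x3808c0004c06008130acfc7aa25381080) (.leaf 0x380900003806008138a9089a325381080)) (.sR 1968 (.leaf 0x380940003c06008140a514ff725381080) (.sR 2016 (.leaf 0x3a0980002806008148a1896be253a1080) (.leaf 0x380940001c06008148a8ff61525381080)))) (.sR 2208 (.sR 2112 (.leaf 0x420a000040060081589db056025421080) (.sR 2160 (.leaf 0x420a400044060081609af0b274b421080) (.leaf 0x460a8000740600816896e017e4b461080))) (.sR 2256 (.sr 1088 (.leaf 0x3a0a80002c0601d1689f155d34b3a1080) (.leaf 0x3a0a80002c060151689f155d34b3a1080)) (.sR 2304 (.leaf 0x4a0b0000600600817892f6fb3714a1080)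 (.sr 1088 (.sR 2400 (.sR 2352 (.leaf 0x440a800130080161789abbfae71441080) (.leaf 0x3e0a800134080161789eef418713e1080)) (.sR 2448 (.leaf 0x3e0b0000340601d1789ad43ae713e1080) (.sR 2472 (.leaf 0x3c0ac0007c080161789ac7b7b713c1080) (.leaf 0x3c0ac0013808016178970df30713c1080)))) (.sR 2400 (.sR 2352 (.leaf 0x440b000078060151789abbfae71441080) (.leaf 0x3e0b000048060151789eef418713e1080)) (.sR 2448 (.leaf 0x3e0b000034060151789ad43ae713e1080) (.leaf 0x3e0b0000640601517896c9a02713e1080)))))))) (.sR 1920 (.sR 1872 (.leaf 0x3808c0004c0601b130acfc7aa25381080) (.leaf 0x38090000380601b138a9089a325381080)) (.sR 1968 (.leaf 0x3a0940003c0601b140a51033f253a1080) (.sr 1088 (.sR 2064 (.sR 2016 (.leaf 0x3a098000280600c148a1896be253a1080) (.leaf 0x380940001c0600c148a8ff61525381080)) (.sR 2112 (.leaf 0x440a0000400600c1589d846f525441080) (.sR 2160 (.leaf 0x420a4000440600c1609af0b274b421080) (.sR 2208 (.sR 2184 (.leaf 0x460a8000500600c16896e017e4b461080) (.leaf 0x400a4000540600c1689b0ac904b401080))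 (.sR 2232 (.leaf 0x3a0a8000580600c1689f155d34b3a1080) (.sR 2256 (.leaf 0x400ac0005c0600c1709b270334b401080) (.sg 78 (.sR 2376 (.sR 2304 (.sR 2280 (.leaf 0x380a4000300600b168a25eaad4b381080) (.leaf 0x460b0000200600b178971de4f71461080)) (.sR 2328 (.leaf 0x440ac000000600b1789abbfae71441080) (.sR 2352 (.leaf 0x420b00000c0600b1789adaa7271421080) (.leaf 0x3e0b0000100600b1789eef418713e1080)))) (.sR 2424 (.sR 2400 (.leaf 0x3c0ac000140600b1789f10c21713c1080) (.leaf 0x380ac000040600b1709ad7f474b381080)) (.sR 2448 (.sr 1056 (.leaf 0x400b004008080251809ac5baa71401080) (.leaf 0x400b4000080602f1809ac5baa71401080)) (.sR 2472 (.leaf 0x3c0ac0007c080281789ac7b7b713c1080) (.leaf 0x3c0b0000180600b178970df30713c1080))))) (.sR 2280 (.leaf 0x380a4000300601e168a25eaad4b381080) (.sR 2304 (.leaf 0x460b0000200601e178971de4f71461080) (.sr 1056 (.sR 2400 (.sR 2352 (.sR 2328 (.leaf 0x440a804000080101789abbfae71441080) (.leaf 0x420ac0400c080101789adaa7271421080)) (.sR 2376 (.leaf 0x3e0ac04010080101789eef418713e1080)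 (.leaf 0x3c0a804014080101789f10c21713c1080))) (.sR 2448 (.sR 2424 (.leaf 0x380a804004080101709ad7f474b381080) (.sg 79 (.leaf 0x400b004008080261809ac5baa71401080) (.leaf 0x400b004008080271809ac5baa71401080))) (.sR 2472 (.leaf 0x3c0ac0007c080101789ac7b7b713c1080) (.leaf 0x3c0ac0401808010178970df30713c1080)))) (.sR 2400 (.sR 2352 (.sR 2328 (.leaf 0x440ac00000060111789abbfae71441080) (.leaf 0x420b00000c060111789adaa7271421080)) (.sR 2376 (.leaf 0x3e0b000010060111789eef418713e1080) (.leaf 0x3c0ac00014060111789f10c21713c1080))) (.sR 2448 (.sR 2424 (.leaf 0x380ac00004060111709ad7f474b381080) (.sg 79 (.leaf 0x400b400008060301809ac5baa71401080) (.sR 2436 (.leaf 0x400b4000b00601f1809ac5baa71401080) (.leaf 0x3e0b4000b40601f1809b181b8713e1080)))) (.sR 2472 (.leaf 0x3c0b000024060111789ac7b7b713c1080) (.leaf 0x3c0b00001806011178970df30713c1080)))))))))))))) (.sR 2064 (.sR 2016 (.leaf 0x3a0980002806006148a1896be253a1080) (.leaf 0x380940001c06006148a8ff61525381080)) (.sR 2112 (.leaf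 0x440a000040060061589d846f525441080) (.sR 2160 (.leaf 0x420a400044060061609af0b274b421080) (.sR 2232 (.sR 2184 (.leaf 0x460a8000500600616896e017e4b461080) (.sR 2208 (.leaf 0x400a400054060061689b0ac904b401080) (.leaf 0x3a0a800058060061689f155d34b3a1080))) (.sR 2280 (.sR 2256 (.leaf 0x400ac0005c060061709b270334b401080) (.leaf 0x380a40003006006168a25eaad4b381080)) (.sR 2304 (.leaf 0x460b00002006006178971de4f71461080) (.sg 78 (.sR 2400 (.sR 2352 (.sR 2328 (.leaf 0x440ac000000600e1789abbfae71441080) (.leaf 0x420b00000c0600e1789adaa7271421080)) (.sR 2376 (.leaf 0x3e0b0000100600e1789eef418713e1080) (.leaf 0x3c0ac000140600e1789f10c21713c1080))) (.sR 2448 (.sR 2424 (.leaf 0x380ac000040600e1709ad7f474b381080) (.leaf 0x400b4000080600e1809ac5baa71401080)) (.sR 2472 (.leaf 0x3c0b0000240600e1789ac7b7b713c1080) (.leaf 0x3c0b0000180600e178970df30713c1080)))) (.sr 1120 (.sR 2376 (.sR 2328 (.leaf 0x440ac00000060121789abbfae71441080) (.sR 2352 (.leaf 0x420b00000c060121789adaa7271421080)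 (.leaf 0x3e0b000010060121789eef418713e1080))) (.sR 2448 (.sR 2400 (.leaf 0x3c0ac00014060121789f10c21713c1080) (.sg 79 (.sR 2424 (.leaf 0x380ac00004060201709ad7f474b381080) (.leaf 0x400b400008060201809ac5baa71401080)) (.sR 2424 (.leaf 0x380ac000040601c1709ad7f474b381080) (.sR 2436 (.leaf 0x400b4000b00601c1809ac5baa71401080) (.leaf 0x3e0b4000b40601c1809b181b8713e1080))))) (.sR 2472 (.leaf 0x3c0b000024060121789ac7b7b713c1080) (.leaf 0x3c0b00001806012178970df30713c1080)))) (.sR 2400 (.sR 2352 (.sR 2328 (.leaf 0x440ac000000600f1789abbfae71441080) (.leaf 0x420b00000c0600f1789adaa7271421080)) (.sR 2376 (.leaf 0x3e0b0000100600f1789eef418713e1080) (.leaf 0x3c0ac000140600f1789f10c21713c1080))) (.sR 2448 (.sR 2424 (.leaf 0x380ac000040600f1709ad7f474b381080) (.leaf 0x400b4000080600f1809ac5baa71401080)) (.sR 2472 (.leaf 0x3c0b0000240600f1789ac7b7b713c1080) (.leaf 0x3c0b0000180600f178970df30713c1080)))))))))))))))))) (.sR 1728 (.leaf 0x3c0840006806022120a908c14253c1080) (.sR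 1776 (.leaf 0x3a0880006c06022128a64bfb74b3a1080) (.sg 76 (.sR 2064 (.sR 1920 (.sR 1824 (.leaf 0x4008c0011406005130a24671d4b401080) (.sR 1872 (.leaf 0x3808c0004c06005130acfc7aa25381080) (.leaf 0x380900003806005138a9089a325381080))) (.sR 1968 (.leaf 0x380940003c06005140a514ff725381080) (.sR 2016 (.leaf 0x3a0980002806005148a1896be253a1080) (.leaf 0x380940001c06005148a8ff61525381080)))) (.sR 2208 (.sR 2112 (.leaf 0x440a000040060051589d846f525441080) (.sR 2160 (.leaf 0x420a400044060051609af0b274b421080) (.leaf 0x460a8000740600516896e017e4b461080))) (.sR 2304 (.sR 2256 (.sr 1216 (.leaf 0x3a0a80002c060171689f155d34b3a1080) (.leaf 0x3a0a80002c060191689f155d34b3a1080)) (.leaf 0x4a0b0000600600517892f6fb3714a1080)) (.sR 2352 (.leaf 0x440b000078060051789abbfae71441080) (.sr 1216 (.sR 2400 (.leaf 0x3e0b000048060171789eef418713e1080) (.sR 2448 (.leaf 0x3e0b000034060171789ad43ae713e1080) (.leaf 0x3e0b0000640601717896c9a02713e1080))) (.sR 2400 (.leaf 0x3e0b000048060191789eef418713e1080)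 (.sR 2448 (.leaf 0x3e0b000034060191789ad43ae713e1080) (.leaf 0x3e0b0000640601917896c9a02713e1080)))))))) (.sR 1824 (.leaf 0x3e08c0007006023130a17903f253e1080) (.sR 1872 (.leaf 0x3a08c0004c06023130acf8004253a1080) (.sr 1216 (.sR 2016 (.sR 1920 (.leaf 0x380900003806003138a9089a325381080) (.sR 1968 (.leaf 0x380940003c06003140a514ff725381080) (.leaf 0x3a0980002806003148a1896be253a1080))) (.sR 2064 (.leaf 0x380940001c06003148a8ff61525381080) (.sR 2112 (.leaf 0x4a0a000040060031589cf8289254a1080) (.sR 2208 (.sR 2160 (.sR 2136 (.leaf 0x420a4000a8060031609af0b274b421080) (.leaf 0x380a0000ac06003158a50af6425381080)) (.sR 2184 (.leaf 0x460a8000500600316896e017e4b461080) (.leaf 0x400a400054060031689b0ac904b401080))) (.sR 2256 (.sR 2232 (.leaf 0x3a0a800058060031689f155d34b3a1080) (.leaf 0x400ac0005c060031709b270334b401080)) (.sR 2280 (.leaf 0x3a0a40003006003168a21c7dc4b3a1080) (.sg 78 (.sR 2376 (.sR 2328 (.sR 2304 (.leaf 0x460b0000200600a178971de4f71461080) (.leaf 0x440ac000000600a1789abbfae71441080))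 (.sR 2352 (.leaf 0x420b00000c0600a1789adaa7271421080) (.leaf 0x3e0b0000100600a1789eef418713e1080))) (.sR 2424 (.sR 2400 (.leaf 0x3c0ac000140600a1789f10c21713c1080) (.leaf 0x380ac000040600a1709ad7f474b381080)) (.sR 2448 (.leaf 0x400b4000080600a1809ac5baa71401080) (.sR 2472 (.leaf 0x3c0b0000240600a1789ac7b7b713c1080) (.leaf 0x3c0b0000180600a178970df30713c1080))))) (.sR 2304 (.leaf 0x460b00002006032178971de4f71461080) (.sr 1184 (.sR 2376 (.sR 2328 (.leaf 0x440ac00000060131789abbfae71441080) (.sR 2352 (.leaf 0x420b00000c060131789adaa7271421080) (.leaf 0x3e0b000010060131789eef418713e1080))) (.sR 2448 (.sR 2400 (.leaf 0x3c0ac00014060131789f10c21713c1080) (.sg 79 (.sR 2424 (.leaf 0x380ac00004060211709ad7f474b381080) (.leaf 0x400b400008060211809ac5baa71401080)) (.sR 2424 (.leaf 0x380ac00004060311709ad7f474b381080) (.leaf 3)))) (.sR 2472 (.leaf 0x3c0b000024060131789ac7b7b713c1080) (.leaf 0x3c0b00001806013178970df30713c1080)))) (.sR 2376 (.sR 2328 (.leaf 0x440ac00000060141789abbfae71441080)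 (.sR 2352 (.leaf 0x420b00000c060141789adaa7271421080) (.leaf 0x3e0b000010060141789eef418713e1080))) (.sR 2424 (.sR 2400 (.leaf 0x3c0ac00014060141789f10c21713c1080) (.leaf 0x380ac00004060141709ad7f474b381080)) (.sR 2448 (.leaf 0x400b400008060141809ac5baa71401080) (.leaf 3))))))))))))) (.sR 1968 (.sR 1920 (.leaf 0x380900003806004138a9089a325381080) (.leaf 0x380940003c06004140a514ff725381080)) (.sR 2016 (.leaf 0x3c0980002806004148a16a617253c1080) (.sR 2064 (.leaf 0x380940001c06004148a8ff61525381080) (.sR 2160 (.sR 2112 (.sR 2088 (.leaf 0x4009c0011c060041589dd9dad25401080) (.leaf 0x3c0a00012006004158a16acaa253c1080)) (.sR 2136 (.leaf 0x420a4000a8060041609af0b274b421080) (.leaf 0x380a0000ac06004158a50af6425381080))) (.sR 2208 (.sR 2184 (.leaf 0x460a8000500600416896e017e4b461080) (.leaf 0x400a400054060041689b0ac904b401080)) (.sR 2232 (.leaf 0x3a0a800058060041689f155d34b3a1080) (.sR 2256 (.leaf 0x400ac0005c060041709b270334b401080) (.sg 78 (.sR 2376 (.sR 2304 (.sR 2280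 (.leaf 0x380a40003006007168a25eaad4b381080) (.leaf 0x460b00002006007178971de4f71461080)) (.sR 2328 (.leaf 0x440ac00000060071789abbfae71441080) (.sR 2352 (.leaf 0x420b00000c060071789adaa7271421080) (.leaf 0x3e0b000010060071789eef418713e1080)))) (.sR 2424 (.sR 2400 (.leaf 0x3c0ac00014060071789f10c21713c1080) (.leaf 0x380ac00004060071709ad7f474b381080)) (.sR 2448 (.leaf 0x400b400008060071809ac5baa71401080) (.sR 2472 (.leaf 0x3c0b000024060071789ac7b7b713c1080) (.leaf 0x3c0b00001806007178970df30713c1080))))) (.sR 2304 (.sR 2280 (.leaf 0x380a40003006024168a25eaad4b381080) (.leaf 0x460b00002006024178971de4f71461080)) (.sR 2400 (.sr 1248 (.sR 2352 (.sR 2328 (.leaf 0x440ac00000060181789abbfae71441080) (.leaf 0x420b00000c060181789adaa7271421080)) (.sR 2376 (.leaf 0x3e0b000010060181789eef418713e1080) (.leaf 0x3c0ac00014060181789f10c21713c1080))) (.sR 2328 (.leaf 0x440ac00000060361789abbfae71441080) (.leaf 3))) (.leaf 3))))))))))))))))))))))))))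
theorem k32 : ChunkP 60 61 1024 1280 64 80 432 2484 :=
  chkD_sound (Q := 40) (C := [c521.c, c607.c, c494.c, c597.c, c623.c, c609.c, c577.c, c622.c, c496.c, c522.c, c596.c, c479.c, c481.c, c520.c, c576.c, c583.c, c463.c, c552.c, c566.c, c590.c, c615.c, c575.c, c478.c, c595.c, c618.c, c621.c, c497.c, c498.c, c567.c, c477.c, c482.c, c553.c, c565.c, c589.c, c610.c, c611.c, c624.c, c461.c, c462.c, c464.c, c480.c, c491.c, c492.c, c493.c, c495.c, c514.c, c525.c, c550.c, c551.c, c591.c, c598.c, c605.c, c606.c, c608.c, c629.c])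
    (T := [f_w576_582_8_5_10e, f_w600_606_8_5_10e, f_w606_612_8_5_10e, f_w582_588_8_5_10e, f_w588_594_8_5_10e, f_w594_600_8_5_10e, f_w618_624_8_6_16e, f_w504_516_8_5_15e, f_w570_576_8_10_25e, f_w612_618_8_6_20e, f_w492_504_8_5_15e, f_w552_564_8_5_10e, f_w564_570_8_10_15e, f_w600_612_8_10_10e, f_w468_480_8_5_15e, f_w480_492_8_10_15e, f_w516_528_8_5_10e, f_w528_540_8_5_10e, f_w588_600_8_10_10e, f_w456_468_8_5_15e, f_w540_546_8_10_15e, f_w546_552_8_10_15e, f_w552_558_8_10_15e, f_w558_564_8_10_15e, f_w564_576_8_10_10e, f_w612_624_8_5_5e, f_w420_432_8_10_20e, f_w432_444_8_10_20e, f_w444_456_8_10_15e, f_w540_552_8_5_10e, f_w576_588_8_10_10e, f_w612_618_8_9_24, f_w612_624_8_20_20, f_w156_168_16_10_45, f_w192_204_16_10_40, f_w396_408_16_10_30, f_w408_420_16_10_30, f_w456_468_8_10_30, f_w468_480_8_20_35, f_w480_492_8_10_20, f_w492_504_8_20_30, f_w516_528_8_10_20, f_w528_534_8_10_15e, f_w534_540_8_10_15e, f_w606_609_8_5_15e, f_w609_612_8_6_18e, f_w144_156_16_10_40e, f_w156_168_16_10_40e,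 f_w168_180_16_10_35e, f_w168_180_16_10_40, f_w180_192_16_10_35e, f_w180_192_16_10_40, f_w204_216_16_10_30e, f_w216_228_16_10_40e, f_w228_240_16_10_35e, f_w240_252_16_10_35e, f_w252_264_16_15_40, f_w264_276_16_15_40, f_w276_288_16_15_40, f_w288_300_16_10_30e, f_w300_312_16_10_30e, f_w312_324_16_10_35e, f_w324_336_16_10_35e, f_w336_348_16_10_35, f_w348_360_16_10_30e, f_w360_372_16_10_25e, f_w372_384_16_10_30e, f_w372_384_16_20_45, f_w384_396_16_5_20e, f_w444_456_8_20_40, f_w504_516_8_20_30, f_w516_522_8_10_15e, f_w522_528_8_5_15e, f_w528_540_8_10_20, f_w540_552_8_20_30, f_w576_588_8_20_20, f_w576_588_8_5_10e, f_w588_600_8_5_5e, f_w618_624_8_9_21]) (t := t32)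
    (all_cons p521 (all_cons p607 (all_cons p494 (all_cons p597 (all_cons p623 (all_cons p609 (all_cons p577 (all_cons p622 (all_cons p496 (all_cons p522 (all_cons p596 (all_cons p479 (all_cons p481 (all_cons p520 (all_cons p576 (all_cons p583 (all_cons p463 (all_cons p552 (all_cons p566 (all_cons p590 (all_cons p615 (all_cons p575 (all_cons p478 (all_cons p595 (all_cons p618 (all_cons p621 (all_cons p497 (all_cons p498 (all_cons p567 (all_cons p477 (all_cons p482 (all_cons p553 (all_cons p565 (all_cons p589 (all_cons p610 (all_cons p611 (all_cons p624 (all_cons p461 (all_cons p462 (all_cons p464 (all_cons p480 (all_cons p491 (all_cons p492 (all_cons p493 (all_cons p495 (all_cons p514 (all_cons p525 (all_cons p550 (all_cons p551 (all_cons p591 (all_cons p598 (all_cons p605 (all_cons p606 (all_cons p608 (all_cons p629 all_nil))))))))))))))))))))))))))))))))))))))))))))))))))))))) (all_cons f_w576_582_8_5_10e_p (all_cons f_w600_606_8_5_10e_p (all_cons f_w606_612_8_5_10e_p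 (all_cons f_w582_588_8_5_10e_p (all_cons f_w588_594_8_5_10e_p (all_cons f_w594_600_8_5_10e_p (all_cons f_w618_624_8_6_16e_p (all_cons f_w504_516_8_5_15e_p (all_cons f_w570_576_8_10_25e_p (all_cons f_w612_618_8_6_20e_p (all_cons f_w492_504_8_5_15e_p (all_cons f_w552_564_8_5_10e_p (all_cons f_w564_570_8_10_15e_p (all_cons f_w600_612_8_10_10e_p (all_cons f_w468_480_8_5_15e_p (all_cons f_w480_492_8_10_15e_p (all_cons f_w516_528_8_5_10e_p (all_cons f_w528_540_8_5_10e_p (all_cons f_w588_600_8_10_10e_p (all_cons f_w456_468_8_5_15e_p (all_cons f_w540_546_8_10_15e_p (all_cons f_w546_552_8_10_15e_p (all_cons f_w552_558_8_10_15e_p (all_cons f_w558_564_8_10_15e_p (all_cons f_w564_576_8_10_10e_p (all_cons f_w612_624_8_5_5e_p (all_cons f_w420_432_8_10_20e_p (all_cons f_w432_444_8_10_20e_p (all_cons f_w444_456_8_10_15e_p (all_cons f_w540_552_8_5_10e_p (all_cons f_w576_588_8_10_10e_p (all_cons f_w612_618_8_9_24_p (all_cons f_w612_624_8_20_20_p (all_cons f_w156_168_16_10_45_p (all_cons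 f_w192_204_16_10_40_p (all_cons f_w396_408_16_10_30_p (all_cons f_w408_420_16_10_30_p (all_cons f_w456_468_8_10_30_p (all_cons f_w468_480_8_20_35_p (all_cons f_w480_492_8_10_20_p (all_cons f_w492_504_8_20_30_p (all_cons f_w516_528_8_10_20_p (all_cons f_w528_534_8_10_15e_p (all_cons f_w534_540_8_10_15e_p (all_cons f_w606_609_8_5_15e_p (all_cons f_w609_612_8_6_18e_p (all_cons f_w144_156_16_10_40e_p (all_cons f_w156_168_16_10_40e_p (all_cons f_w168_180_16_10_35e_p (all_cons f_w168_180_16_10_40_p (all_cons f_w180_192_16_10_35e_p (all_cons f_w180_192_16_10_40_p (all_cons f_w204_216_16_10_30e_p (all_cons f_w216_228_16_10_40e_p (all_cons f_w228_240_16_10_35e_p (all_cons f_w240_252_16_10_35e_p (all_cons f_w252_264_16_15_40_p (all_cons f_w264_276_16_15_40_p (all_cons f_w276_288_16_15_40_p (all_cons f_w288_300_16_10_30e_p (all_cons f_w300_312_16_10_30e_p (all_cons f_w312_324_16_10_35e_p (all_cons f_w324_336_16_10_35e_p (all_cons f_w336_348_16_10_35_p (all_cons f_w348_360_16_10_30e_p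 (all_cons f_w360_372_16_10_25e_p (all_cons f_w372_384_16_10_30e_p (all_cons f_w372_384_16_20_45_p (all_cons f_w384_396_16_5_20e_p (all_cons f_w444_456_8_20_40_p (all_cons f_w504_516_8_20_30_p (all_cons f_w516_522_8_10_15e_p (all_cons f_w522_528_8_5_15e_p (all_cons f_w528_540_8_10_20_p (all_cons f_w540_552_8_20_30_p (all_cons f_w576_588_8_20_20_p (all_cons f_w576_588_8_5_10e_p (all_cons f_w588_600_8_5_5e_p (all_cons f_w618_624_8_9_21_p all_nil)))))))))))))))))))))))))))))))))))))))))))))))))))))))))))))))))))))))))))))))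
    (by decide +kernel)
def t33 : Tree := (.sR 1152 (.sR 960 (.sR 864 (.sR 528 (.leaf 0x4a000000000c01c0309018fb2714a1280) (.sg 72 (.sR 720 (.sR 576 (.leaf 0x46000000000c01d0308c27e1d71461200) (.sR 672 (.sr 1408 (.sR 624 (.leaf 0x46000000000c0160308405dc497461180) (.leaf 0x4400c0408c080190388c1a71271441100)) (.leaf 0x48000000000e021038782144f97481200)) (.leaf 0x46014000d80600d0408c0641c97461100))) (.sR 768 (.leaf 0x46018000e00600d0488c231fe71461100) (.sR 816 (.leaf 0x42024000940600d060a847dd971421100) (.leaf 0x4802c000980600d070b42b3d44b481100)))) (.sR 720 (.sR 576 (.leaf 0x46000000000a01e02880061cd97461200) (.sr 1408 (.sR 624 (.leaf 0x46000000000c0160307c06c7297461200) (.sR 672 (.leaf 0x4400c0008c060010307c0ef7b97441100) (.leaf 0x4401400090060010408c226dd71441100))) (.sR 624 (.leaf 0x46000000000c0220307c06c7297461200) (.sR 672 (.leaf 0x44010000d4060000388c01f1c97441100) (.leaf 0x4601400090060000408c25b4c71461100))))) (.sR 768 (.leaf 0x44014000dc060080407c04a9d97441100)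 (.sR 816 (.leaf 0x4401800094060080487c132c097441100) (.leaf 0x4402c0009806008070b44d98b4b441100)))))) (.sR 912 (.leaf 0x44028000e4060020689445a7071441100) (.leaf 0x42034000e806002080ac7ccef4b421100))) (.sR 1056 (.sR 1008 (.leaf 0x42040000ec06002098b4b83914b421100) (.leaf 0x40040000f006002098acd996971401100)) (.sR 1104 (.leaf 0x4404c000f4060020b0a52d3f871441100) (.leaf 0x44050000f8060020b89d7125671441100)))) (.sR 1344 (.sR 1248 (.sR 1200 (.leaf 0x4c058000fc060020c891c643f974c1100) (.leaf 0x4e05c00100060020d08d9be1a974e1100)) (.sR 1296 (.leaf 0x4a05c00104060020d091bdd7c714a1100) (.leaf 0x4c06000108060020d88a0ab38974c1100))) (.sR 1440 (.sR 1392 (.leaf 0x480600010c060020d88aa9e1e97481100) (.leaf 0x4a06400110060020e0868b431974a1100)) (.sR 1488 (.leaf 0x4c06800114060020e88266eda974c1100) (.sg 72 (.sR 1728 (.sR 1584 (.sR 1536 (.leaf 0x4c06c0011c0600d0f07f00ba9974c1100) (.leaf 0x4c06c001200600d0f07ac3494974c1100)) (.sR 1632 (.leaf 0x4e0700009c0600d0f876a3f2b974e1100) (.sR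 1680 (.leaf 0x4e070000a00600d0f87284935974e1100) (.leaf 0x3a0840012806008120a90d349253a1080)))) (.sR 1824 (.sR 1776 (.leaf 0x3a0880003406008128a5196c5253a1080) (.leaf 0x4208c0001406008130a131a9a25421080)) (.sR 1920 (.sr 1408 (.sR 1872 (.leaf 0x380880012c0801a130acfc7aa25381080) (.leaf 0x38090000b806001138a9089a325381080)) (.sR 1872 (.leaf 0x3808c0001806000130acfc7aa25381080) (.leaf 0x38090000b806000138a9089a325381080))) (.sR 1968 (.leaf 0x3a0940002006008140a6091b24b3a1080) (.sr 1408 (.sR 2208 (.sR 2064 (.sR 2016 (.leaf 0x3a0980004006001148a1896be253a1080) (.leaf 0x3c09c0004806001150a18716e253c1080)) (.sR 2112 (.leaf 0x420a000024060011589db056025421080) (.sR 2160 (.leaf 0x420a40000c060011609af0b274b421080) (.leaf 0x460a4000100600116896e017e4b461080)))) (.sR 2352 (.sR 2256 (.leaf 0x460ac0002c0600117096f98244b461080) (.sR 2304 (.leaf 0x4a0b0000580600117892f6fb3714a1080) (.leaf 0x440b000030060011789abbfae71441080))) (.sR 2400 (.leaf 0x3e0b000078060011789eef418713e1080)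 (.sR 2448 (.leaf 0x3e0b000080060011789ad43ae713e1080) (.leaf 0x3e0b0000880600117896c9a02713e1080))))) (.sR 2208 (.sR 2064 (.sR 2016 (.leaf 0x3a0980004006000148a1896be253a1080) (.leaf 0x3a09c0004806000150a1a669c253a1080)) (.sR 2112 (.leaf 0x3e0a000134060001589ee938a4b3e1080) (.sR 2160 (.leaf 0x420a40000c060001609af0b274b421080) (.leaf 0x460a4000100600016896e017e4b461080)))) (.sR 2352 (.sR 2256 (.leaf 0x460ac0002c0600017096f98244b461080) (.sR 2304 (.leaf 0x4a0b0000580600017892f6fb3714a1080) (.leaf 0x440b000030060001789abbfae71441080))) (.sR 2400 (.leaf 0x3e0b000078060001789eef418713e1080) (.sR 2448 (.leaf 0x3e0b000080060001789ad43ae713e1080) (.leaf 0x3e0b0000880600017896c9a02713e1080)))))))))) (.sR 1584 (.sR 1536 (.leaf 0x4c06c00118060080f07f00ba9974c1100) (.leaf 0x4c06c00124060080f07ac3494974c1100)) (.sR 1632 (.leaf 0x4c06c0009c060080f076978a9974c1100) (.sR 1680 (.leaf 0x4c06c000a0060080f07286c3f974c1100) (.sr 1408 (.sR 1728 (.leaf 0x4c070000a4060010f86f2e56d974c1100)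 (.sg 76 (.sR 1968 (.sR 1824 (.sR 1776 (.leaf 0x3c088000a80600c128a514cc1253c1080) (.leaf 0x3c08c000ac0600c130a2ba1ba4b3c1080)) (.sR 1872 (.leaf 0x3808c000180600c130acfc7aa25381080) (.sR 1920 (.leaf 0x380900005c0600c138a9089a325381080) (.leaf 0x38094000200600c140a514ff725381080)))) (.sR 2064 (.sR 2016 (.leaf 0x3c098000c00600c148a16a617253c1080) (.leaf 0x38094001300600c148a8ff61525381080)) (.sR 2256 (.sr 1344 (.sR 2160 (.sR 2112 (.leaf 0x400a0000240600b1589dd9dad25401080) (.leaf 0x420a40000c0600b1609af0b274b421080)) (.sR 2208 (.leaf 0x460a4000100600b16896e017e4b461080) (.leaf 0x3a0a8001380600b1689f155d34b3a1080))) (.sR 2160 (.sR 2112 (.leaf 0x400a0000240600a1589dd9dad25401080) (.leaf 0x420a40000c0600a1609af0b274b421080)) (.sR 2208 (.leaf 0x460a4000100600a16896e017e4b461080) (.leaf 0x460ac0002c0600a17096f98244b461080)))) (.sR 2304 (.leaf 0x4a0b00013c0600c17892f6fb3714a1080) (.sr 1344 (.sR 2400 (.sR 2352 (.leaf 0x440b0001400600b1789abbfae71441080) (.leaf 0x3e0b0000740600b1789eef418713e1080))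 (.sR 2448 (.leaf 0x3e0b00007c0600b1789ad43ae713e1080) (.leaf 0x3e0b0001540600b17896c9a02713e1080))) (.sR 2400 (.sR 2352 (.leaf 0x440b0000300600a1789abbfae71441080) (.leaf 0x3e0b0000740600a1789eef418713e1080)) (.sR 2448 (.leaf 0x3e0b00007c0600a1789ad43ae713e1080) (.sR 2472 (.leaf 0x3c0b0000840600a1789ac7b7b713c1080) (.leaf 0x3c0b0000d00600a178970df30713c1080))))))))) (.sR 1776 (.leaf 0x3a088000340601b128a64bfb74b3a1080) (.sr 1344 (.sR 1920 (.sR 1824 (.leaf 0x3c08c0001406005130a1973e0253c1080) (.sR 1872 (.leaf 0x3808c0001806005130acfc7aa25381080) (.leaf 0x380900005c06005138a9089a325381080))) (.sR 1968 (.leaf 0x380940002006005140a514ff725381080) (.sR 2016 (.leaf 0x40098000c006005148a121aab25401080) (.sR 2136 (.sR 2064 (.sR 2040 (.leaf 0x380980000406005148a8ff61525381080) (.leaf 0x380980000806005150a51b62725381080)) (.sR 2088 (.leaf 0x4209c0004c060051589db056025421080) (.sR 2112 (.sg 78 (.leaf 0x380a00000006007158a1aa03125381080) (.leaf 0x3a0a00000006013158a18c50a253a1080))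 (.leaf 0x420a400028060051609af0b274b421080)))) (.sR 2184 (.sR 2160 (.leaf 0x380a00005006005158a50af6425381080) (.leaf 0x460a8000640600516896e017e4b461080)) (.sR 2208 (.leaf 0x400a400068060051689b0ac904b401080) (.sR 2472 (.sg 78 (.sR 2328 (.sR 2256 (.sR 2232 (.leaf 0x3a0a800054060071689f155d34b3a1080) (.leaf 0x400ac0006c060071709b270334b401080)) (.sR 2280 (.leaf 0x380a40007006007168a25eaad4b381080) (.sR 2304 (.leaf 0x460b0000c406007178971de4f71461080) (.leaf 0x440ac000c8060071789abbfae71441080)))) (.sR 2400 (.sR 2352 (.leaf 0x420b0000cc060071789adaa7271421080) (.sR 2376 (.leaf 0x3e0b000144060071789eef418713e1080) (.leaf 0x3c0ac00148060071789f10c21713c1080))) (.sR 2424 (.leaf 0x380ac0014c060071709ad7f474b381080) (.sR 2448 (.sr 1312 (.leaf 0x400b400150060181809ac5baa71401080) (.leaf 3)) (.leaf 0x3c0b000084060071789ac7b7b713c1080))))) (.sR 2256 (.sR 2232 (.leaf 0x3a0a800054060131689f155d34b3a1080) (.leaf 0x400ac0006c060131709b270334b401080)) (.sR 2280 (.leaf 0x380a40007006013168a25eaad4b381080)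 (.leaf 3)))) (.leaf 3)))))))) (.sR 1920 (.sR 1824 (.leaf 0x3e08c000140600e130a17903f253e1080) (.sR 1872 (.leaf 0x3a08c000180600e130acf8004253a1080) (.sR 1896 (.leaf 0x380900001c0600e138a9089a325381080) (.leaf 0x3808c000600600e130b4d1b9725381080)))) (.sR 1968 (.leaf 0x38094000200600e140a514ff725381080) (.sR 2352 (.sR 2016 (.sR 1992 (.leaf 0x3c0980003c0600e148a16a617253c1080) (.leaf 0x38098000440600e148a50ed8925381080)) (.sR 2064 (.sg 78 (.sR 2040 (.leaf 0x380980000406003148a8ff61525381080) (.leaf 0x380980000806003150a51b62725381080)) (.sR 2040 (.leaf 0x380980000406014148a8ff61525381080) (.leaf 0x380980000806014150a51b62725381080))) (.sR 2088 (.leaf 0x3c09c0004c0600e1589f2970d4b3c1080) (.sg 78 (.sR 2208 (.sR 2136 (.sR 2112 (.leaf 0x3a0a00000006003158a18c50a253a1080) (.leaf 0x420a400028060031609af0b274b421080)) (.sR 2160 (.leaf 0x380a00005006003158a50af6425381080) (.sR 2184 (.leaf 0x460a8000640600316896e017e4b461080) (.leaf 0x400a400068060031689b0ac904b401080)))) (.sR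 2280 (.sR 2232 (.leaf 0x3a0a800054060031689f155d34b3a1080) (.sR 2256 (.leaf 0x400ac0006c060031709b270334b401080) (.leaf 0x380a40007006003168a25eaad4b381080))) (.sR 2304 (.leaf 0x460b0000c406003178971de4f71461080) (.sR 2328 (.leaf 0x440ac000c8060031789abbfae71441080) (.leaf 0x420b0000cc060031789adaa7271421080))))) (.sR 2136 (.sR 2112 (.sr 1376 (.leaf 0x3a0a0000000601f158a18c50a253a1080) (.leaf 0x3c0a00000006020158a16acaa253c1080)) (.leaf 0x420a400028060141609af0b274b421080)) (.sR 2160 (.leaf 0x380a00005006014158a50af6425381080) (.leaf 3))))))) (.leaf 3)))))))) (.sR 1728 (.leaf 0x4c070000a4060000f86f2e56d974c1100) (.sg 76 (.sR 1872 (.sR 1776 (.leaf 0x3e088000a806012128a50f5ce253e1080) (.sR 1824 (.leaf 0x3c08c000ac06012130a2ba1ba4b3c1080) (.leaf 0x3a08c0001806012130acf8004253a1080))) (.sR 1920 (.leaf 0x3c0900005c06012138a8fe8e8253c1080) (.sR 1968 (.leaf 0x380940002006012140a514ff725381080) (.sr 1472 (.sR 2208 (.sR 2064 (.sR 2016 (.leaf 0x3c0980004006006148a16a617253c1080)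 (.leaf 0x3c09c0004806006150a18716e253c1080)) (.sR 2112 (.leaf 0x420a000024060061589db056025421080) (.sR 2160 (.leaf 0x420a40000c060061609af0b274b421080) (.leaf 0x460a4000100600616896e017e4b461080)))) (.sR 2352 (.sR 2256 (.leaf 0x460ac0002c0600617096f98244b461080) (.sR 2304 (.leaf 0x4a0b0000580600617892f6fb3714a1080) (.leaf 0x440b000030060061789abbfae71441080))) (.sR 2400 (.leaf 0x3e0b000074060061789eef418713e1080) (.sR 2448 (.leaf 0x3e0b00007c060061789ad43ae713e1080) (.sR 2472 (.leaf 0x3c0b000084060061789ac7b7b713c1080) (.leaf 0x3c0b0000d006006178970df30713c1080)))))) (.sR 2208 (.sR 2064 (.sR 2016 (.leaf 0x3a0980004006009148a1896be253a1080) (.leaf 0x3c09c0004806009150a18716e253c1080)) (.sR 2112 (.leaf 0x420a000024060091589db056025421080) (.sR 2160 (.leaf 0x420a40000c060091609af0b274b421080) (.leaf 0x460a4000100600916896e017e4b461080)))) (.sR 2352 (.sR 2256 (.leaf 0x460ac0002c0600917096f98244b461080) (.sR 2304 (.leaf 0x4a0b0000580600917892f6fb3714a1080) (.leaf 0x440b000030060091789abbfae71441080)))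 (.sR 2400 (.leaf 0x3e0b000078060091789eef418713e1080) (.sR 2448 (.leaf 0x3e0b000080060091789ad43ae713e1080) (.leaf 0x3e0b0000880600917896c9a02713e1080))))))))) (.sR 2256 (.sr 1472 (.sR 1776 (.leaf 0x3c0880003406011128a514cc1253c1080) (.sR 1824 (.leaf 0x3c08c0001406011130a2ba1ba4b3c1080) (.sR 1896 (.sR 1848 (.leaf 0x3808c000b006011130acfc7aa25381080) (.sR 1872 (.leaf 0x3808c000b406011130b0eadea25381080) (.sg 78 (.leaf 0x380900001c06004138a9089a325381080) (.leaf 0x380900001c06015138a9089a325381080)))) (.sR 1944 (.sR 1920 (.leaf 0x3c08c0006006011130b4c617a253c1080) (.leaf 0x38094000bc06011140a638da64b381080)) (.sR 2232 (.sg 78 (.sR 2088 (.sR 2016 (.sR 1968 (.leaf 0x380940003806004140a90294b25381080) (.sR 1992 (.leaf 0x3a0980003c06004148a1896be253a1080) (.leaf 0x380980004406004148a50ed8925381080))) (.sR 2040 (.leaf 0x380980000406004148a8ff61525381080) (.sR 2064 (.leaf 0x380980000806004150a51b62725381080) (.leaf 0x4009c0004c060041589dd9dad25401080)))) (.sR 2160 (.sR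 2112 (.leaf 0x3e0a00000006004158a145ceb253e1080) (.sR 2136 (.leaf 0x420a400028060041609af0b274b421080) (.leaf 0x380a00005006004158a50af6425381080))) (.sR 2184 (.leaf 0x460a8000640600416896e017e4b461080) (.sR 2208 (.leaf 0x400a400068060041689b0ac904b401080) (.leaf 0x3a0a800054060041689f155d34b3a1080))))) (.sR 1992 (.sR 1968 (.leaf 0x400940003806015140a8e9cc525401080) (.leaf 0x3c0980003c06015148a16a617253c1080)) (.sR 2016 (.leaf 0x380980004406015148a50ed8925381080) (.sR 2064 (.sr 1440 (.sR 2040 (.leaf 0x380980000406017148a8ff61525381080) (.leaf 0x380980000806017150a51b62725381080)) (.leaf 3)) (.leaf 3))))) (.leaf 3)))))) (.sR 1824 (.sR 1776 (.leaf 0x3a0880003406010128a5196c5253a1080) (.leaf 0x4208c0001406010130a131a9a25421080)) (.sR 2160 (.sR 1920 (.sR 1872 (.sR 1848 (.leaf 0x3808c000b006010130acfc7aa25381080) (.leaf 0x3808c000b406010130b0eadea25381080)) (.sR 1896 (.sg 78 (.leaf 0x380900001c0600f138a9089a325381080) (.leaf 0x3a0900001c06024138a903f75253a1080)) (.leaf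 0x3808c0006006010130b4d1b9725381080))) (.sR 1968 (.sR 1944 (.leaf 0x3c094000bc06010140a50a9ca253c1080) (.sg 78 (.leaf 0x38094000380600f140a90294b25381080) (.sr 1504 (.leaf 0x380940003806023140a90294b25381080) (.leaf 3)))) (.sR 1992 (.leaf 0x400980003c06010148a1eb4364b401080) (.sR 2136 (.sg 78 (.sR 2064 (.sR 2016 (.leaf 0x38098000440600f148a50ed8925381080) (.sR 2040 (.leaf 0x38098000040600f148a8ff61525381080) (.leaf 0x38098000080600f150a51b62725381080))) (.sR 2088 (.leaf 0x4009c0004c0600f1589dd9dad25401080) (.sR 2112 (.leaf 0x3c0a0000000600f158a16acaa253c1080) (.leaf 0x420a4000280600f1609af0b274b421080)))) (.leaf 3)) (.leaf 3))))) (.leaf 3)))) (.leaf 3)))))))))))))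
theorem k33 : ChunkP 60 61 1280 1536 64 80 432 2484 :=
  chkD_sound (Q := 40) (C := [c698.c, c644.c, c667.c, c675.c, c686.c, c635.c, c685.c, c634.c, c668.c, c706.c, c674.c, c633.c, c646.c, c666.c, c676.c, c707.c, c708.c, c687.c, c699.c, c636.c, c677.c, c688.c, c642.c, c683.c, c631.c, c643.c, c645.c, c648.c, c660.c, c661.c, c663.c, c671.c, c682.c, c693.c, c694.c, c703.c, c709.c])
    (T := [f_w522_528_8_5_15e, f_w504_510_8_5_15e, f_w510_516_8_5_15e, f_w528_540_8_20_30, f_w540_552_8_20_30, f_w444_456_8_10_15e, f_w456_468_8_5_15e, f_w468_474_8_5_20e, f_w480_492_8_10_15e, f_w516_528_8_5_10e, f_w528_534_8_10_15e, f_w552_564_8_20_30, f_w576_588_8_20_20, f_w432_444_8_10_20e, f_w486_492_8_5_20e, f_w492_498_8_10_20e, f_w492_504_8_20_30, f_w498_504_8_10_20e, f_w504_516_8_20_30, f_w516_522_8_10_15e, f_w534_540_8_10_15e, f_w552_558_8_10_15e, f_w564_576_8_20_30, f_w468_480_8_5_15e, f_w474_480_8_10_20e, f_w540_546_8_10_15e, f_w546_552_8_10_15e, f_w558_564_8_10_15e, f_w564_570_8_10_15e,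 f_w588_600_8_10_10e, f_w588_600_8_20_20, f_w600_612_8_10_10e, f_w600_612_8_20_20, f_w612_618_8_6_20e, f_w612_624_8_20_20, f_w156_168_16_10_45, f_w168_180_16_10_40, f_w192_204_16_10_40, f_w204_216_16_10_40, f_w396_408_16_10_30, f_w408_420_16_10_30, f_w420_432_16_15_30, f_w432_444_8_20_40, f_w444_456_8_20_40, f_w456_462_8_10_30e, f_w462_468_8_10_20e, f_w468_480_8_20_35, f_w480_486_8_10_20e, f_w492_504_8_5_15e, f_w570_576_8_10_25e, f_w576_582_8_5_10e, f_w582_588_8_5_10e, f_w618_624_8_6_16e, f_w156_168_16_10_40e, f_w168_180_16_10_35e, f_w180_192_16_10_35e, f_w180_192_16_10_40, f_w216_228_16_10_40e, f_w228_240_16_10_35e, f_w240_252_16_10_35e, f_w252_264_16_15_40, f_w264_276_16_15_40, f_w276_288_16_15_40, f_w288_300_16_10_30e, f_w300_312_16_10_30e, f_w312_324_16_10_35e, f_w324_336_16_10_35e, f_w336_348_16_10_35, f_w348_360_16_10_30e, f_w360_372_16_10_25e, f_w372_384_16_10_30e, f_w372_384_16_20_45, f_w384_396_16_20_45, f_w384_396_16_5_20e, f_w420_432_8_10_20e, f_w456_468_8_10_30,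 f_w504_516_8_5_15e, f_w516_528_8_25_40, f_w552_564_8_5_10e, f_w564_576_8_10_10e, f_w576_588_8_10_10e, f_w588_594_8_5_10e, f_w594_600_8_5_10e, f_w600_606_8_5_10e, f_w606_612_8_5_10e, f_w612_624_8_5_5e]) (t := t33)
    (all_cons p698 (all_cons p644 (all_cons p667 (all_cons p675 (all_cons p686 (all_cons p635 (all_cons p685 (all_cons p634 (all_cons p668 (all_cons p706 (all_cons p674 (all_cons p633 (all_cons p646 (all_cons p666 (all_cons p676 (all_cons p707 (all_cons p708 (all_cons p687 (all_cons p699 (all_cons p636 (all_cons p677 (all_cons p688 (all_cons p642 (all_cons p683 (all_cons p631 (all_cons p643 (all_cons p645 (all_cons p648 (all_cons p660 (all_cons p661 (all_cons p663 (all_cons p671 (all_cons p682 (all_cons p693 (all_cons p694 (all_cons p703 (all_cons p709 all_nil))))))))))))))))))))))))))))))))))))) (all_cons f_w522_528_8_5_15e_p (all_cons f_w504_510_8_5_15e_p (all_cons f_w510_516_8_5_15e_p (all_cons f_w528_540_8_20_30_p (all_cons f_w540_552_8_20_30_p (all_cons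 f_w444_456_8_10_15e_p (all_cons f_w456_468_8_5_15e_p (all_cons f_w468_474_8_5_20e_p (all_cons f_w480_492_8_10_15e_p (all_cons f_w516_528_8_5_10e_p (all_cons f_w528_534_8_10_15e_p (all_cons f_w552_564_8_20_30_p (all_cons f_w576_588_8_20_20_p (all_cons f_w432_444_8_10_20e_p (all_cons f_w486_492_8_5_20e_p (all_cons f_w492_498_8_10_20e_p (all_cons f_w492_504_8_20_30_p (all_cons f_w498_504_8_10_20e_p (all_cons f_w504_516_8_20_30_p (all_cons f_w516_522_8_10_15e_p (all_cons f_w534_540_8_10_15e_p (all_cons f_w552_558_8_10_15e_p (all_cons f_w564_576_8_20_30_p (all_cons f_w468_480_8_5_15e_p (all_cons f_w474_480_8_10_20e_p (all_cons f_w540_546_8_10_15e_p (all_cons f_w546_552_8_10_15e_p (all_cons f_w558_564_8_10_15e_p (all_cons f_w564_570_8_10_15e_p (all_cons f_w588_600_8_10_10e_p (all_cons f_w588_600_8_20_20_p (all_cons f_w600_612_8_10_10e_p (all_cons f_w600_612_8_20_20_p (all_cons f_w612_618_8_6_20e_p (all_cons f_w612_624_8_20_20_p (all_cons f_w156_168_16_10_45_p (all_cons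 f_w168_180_16_10_40_p (all_cons f_w192_204_16_10_40_p (all_cons f_w204_216_16_10_40_p (all_cons f_w396_408_16_10_30_p (all_cons f_w408_420_16_10_30_p (all_cons f_w420_432_16_15_30_p (all_cons f_w432_444_8_20_40_p (all_cons f_w444_456_8_20_40_p (all_cons f_w456_462_8_10_30e_p (all_cons f_w462_468_8_10_20e_p (all_cons f_w468_480_8_20_35_p (all_cons f_w480_486_8_10_20e_p (all_cons f_w492_504_8_5_15e_p (all_cons f_w570_576_8_10_25e_p (all_cons f_w576_582_8_5_10e_p (all_cons f_w582_588_8_5_10e_p (all_cons f_w618_624_8_6_16e_p (all_cons f_w156_168_16_10_40e_p (all_cons f_w168_180_16_10_35e_p (all_cons f_w180_192_16_10_35e_p (all_cons f_w180_192_16_10_40_p (all_cons f_w216_228_16_10_40e_p (all_cons f_w228_240_16_10_35e_p (all_cons f_w240_252_16_10_35e_p (all_cons f_w252_264_16_15_40_p (all_cons f_w264_276_16_15_40_p (all_cons f_w276_288_16_15_40_p (all_cons f_w288_300_16_10_30e_p (all_cons f_w300_312_16_10_30e_p (all_cons f_w312_324_16_10_35e_p (all_cons f_w324_336_16_10_35e_p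 (all_cons f_w336_348_16_10_35_p (all_cons f_w348_360_16_10_30e_p (all_cons f_w360_372_16_10_25e_p (all_cons f_w372_384_16_10_30e_p (all_cons f_w372_384_16_20_45_p (all_cons f_w384_396_16_20_45_p (all_cons f_w384_396_16_5_20e_p (all_cons f_w420_432_8_10_20e_p (all_cons f_w456_468_8_10_30_p (all_cons f_w504_516_8_5_15e_p (all_cons f_w516_528_8_25_40_p (all_cons f_w552_564_8_5_10e_p (all_cons f_w564_576_8_10_10e_p (all_cons f_w576_588_8_10_10e_p (all_cons f_w588_594_8_5_10e_p (all_cons f_w594_600_8_5_10e_p (all_cons f_w600_606_8_5_10e_p (all_cons f_w606_612_8_5_10e_p (all_cons f_w612_624_8_5_5e_p all_nil))))))))))))))))))))))))))))))))))))))))))))))))))))))))))))))))))))))))))))))))))))))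
    (by decide +kernel)
def t34 : Tree := (.leaf 0x4c00000000060000189c835664b4c1180)
theorem k34 : ChunkP 60 61 1024 1536 80 96 0 432 :=
  chkD_sound (Q := 40) (C := [c539.c])
    (T := []) (t := t34)
    (all_cons p539 all_nil) all_nil
    (by decide +kernel)
def t35 : Tree := (.leaf 0x44000000000600001880010b497441280)
theorem k35 : ChunkP 60 61 1024 1536 80 96 432 480 :=
  chkD_sound (Q := 40) (C := [c537.c])
    (T := []) (t := t35)
    (all_cons p537 all_nil) all_nil
    (by decide +kernel)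
def t36 : Tree := (.leaf 0x400000000006000018800b76a97400f80)
theorem k36 : ChunkP 60 61 1024 1280 80 96 480 528 :=
  chkD_sound (Q := 40) (C := [c528.c])
    (T := []) (t := t36)
    (all_cons p528 all_nil) all_nil
    (by decide +kernel)
def t37 : Tree := (.sR 816 (.sR 576 (.leaf 0x4200000000080030207c00e0797421100) (.sR 768 (.sr 1152 (.sR 672 (.sR 624 (.leaf 0x4400c00000060000308c1883471441100) (.leaf 0x4400c00010060000307c0ef7b97441100)) (.sR 720 (.leaf 0x4201000004060000387c2715797421100) (.leaf 0x4601c00008060000509c0830071461100))) (.sR 672 (.sR 624 (.leaf 0x4200800000060020287c0b82297421100) (.leaf 0x4200c0000c060020307c18cdb97421100)) (.sR 720 (.leaf 0x4401000004060020387c03ac197441100) (.leaf 0x4601800008060020488c019d697461100)))) (.leaf 0x4401800014060010487c132c097441100))) (.sR 864 (.leaf 0x420400001806001098a9661ed71421100) (.sR 912 (.leaf 0x440440001c060010a0a59861771441100) (.leaf 0x4a04800020060010a89d1549d4b4a1100))))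
theorem k37 : ChunkP 60 61 1024 1280 80 88 528 960 :=
  chkD_sound (Q := 40) (C := [c497.c, c523.c, c610.c, c524.c])
    (T := [f_w144_156_16_10_40e, f_w168_180_16_10_40, f_w180_192_16_10_40, f_w156_168_16_10_40e, f_w156_168_16_10_45, f_w192_204_16_10_30e, f_w204_216_16_10_30e, f_w216_228_16_10_40e, f_w228_240_16_10_35e]) (t := t37)
    (all_cons p497 (all_cons p523 (all_cons p610 (all_cons p524 all_nil)))) (all_cons f_w144_156_16_10_40e_p (all_cons f_w168_180_16_10_40_p (all_cons f_w180_192_16_10_40_p (all_cons f_w156_168_16_10_40e_p (all_cons f_w156_168_16_10_45_p (all_cons f_w192_204_16_10_30e_p (all_cons f_w204_216_16_10_30e_p (all_cons f_w216_228_16_10_40e_p (all_cons f_w228_240_16_10_35e_p all_nil)))))))))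
    (by decide +kernel)
def t38 : Tree := (.sR 1008 (.leaf 0x4a04c00000060000b099db948714a1100) (.sR 1056 (.leaf 0x4c05000004060000b896136c6974c1100) (.leaf 0x4a05000008060000b899211c84b4a1100)))
theorem k38 : ChunkP 60 61 1024 1280 80 88 960 1104 :=
  chkD_sound (Q := 40) (C := [c523.c])
    (T := [f_w240_252_16_10_35e, f_w252_264_16_10_35e, f_w264_276_16_10_30e]) (t := t38)
    (all_cons p523 all_nil) (all_cons f_w240_252_16_10_35e_p (all_cons f_w252_264_16_10_35e_p (all_cons f_w264_276_16_10_30e_p all_nil)))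
    (by decide +kernel)
def t39 : Tree := (.sR 1152 (.leaf 0x4805400000060000c09649a3671481100) (.leaf 0x4c05800004060000c891ccf1b714c1100))
theorem k39 : ChunkP 60 61 1024 1280 80 88 1104 1200 :=
  chkD_sound (Q := 40) (C := [c523.c])
    (T := [f_w276_288_16_10_30e, f_w288_300_16_10_30e]) (t := t39)
    (all_cons p523 all_nil) (all_cons f_w276_288_16_10_30e_p (all_cons f_w288_300_16_10_30e_p all_nil))
    (by decide +kernel)
def t40 : Tree := (.leaf 0x4c05c00000060000d08e54461974c1100)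
theorem k40 : ChunkP 60 61 1024 1280 80 88 1200 1248 :=
  chkD_sound (Q := 40) (C := [c523.c])
    (T := [f_w300_312_16_10_30e]) (t := t40)
    (all_cons p523 all_nil) (all_cons f_w300_312_16_10_30e_p all_nil)
    (by decide +kernel)

end Pool.Agent.Lib.MP_af3a4a_an.P1.CHK.DATA.N60x61
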