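import Pool.Agent.Lib.MP_af3a4a_an.P1.CHK.DATA.N60x61.C1
import Pool.Agent.Lib.MP_af3a4a_an.P1.CHK.DATA.N60x61.C2
import Pool.Agent.Lib.MP_af3a4a_an.P1.CHK.DATA.F.W144a
import Pool.Agent.Lib.MP_af3a4a_an.P1.CHK.DATA.F.W192a
import Pool.Agent.Lib.MP_af3a4a_an.P1.CHK.DATA.F.W240a
import Pool.Agent.Lib.MP_af3a4a_an.P1.CHK.DATA.F.W288a
import Pool.Agent.Lib.MP_af3a4a_an.P1.CHK.DATA.F.W336a
import Pool.Agent.Lib.MP_af3a4a_an.P1.CHK.DATA.F.W384a
import Pool.Agent.Lib.MP_af3a4a_an.P1.CHK.DATA.F.W432a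
import Pool.Agent.Lib.MP_af3a4a_an.P1.CHK.DATA.F.W432b
import Pool.Agent.Lib.MP_af3a4a_an.P1.CHK.DATA.F.W480a
import Pool.Agent.Lib.MP_af3a4a_an.P1.CHK.DATA.F.W480b
import Pool.Agent.Lib.MP_af3a4a_an.P1.CHK.DATA.F.W528a
import Pool.Agent.Lib.MP_af3a4a_an.P1.CHK.DATA.F.W528b
import Pool.Agent.Lib.MP_af3a4a_an.P1.CHK.DATA.F.W528c
import Pool.Agent.Lib.MP_af3a4a_an.P1.CHK.DATA.F.W528d
import Pool.Agent.Lib.MP_af3a4a_an.P1.CHK.DATA.F.W576a
import Pool.Agent.Lib.MP_af3a4a_an.P1.CHK.DATA.F.W576b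
import Pool.Agent.Lib.MP_af3a4a_an.P1.CHK.DATA.F.W576c
import Pool.Agent.Lib.MP_af3a4a_an.P1.CHK.DATA.F.W576d
import Pool.Agent.Lib.MP_af3a4a_an.P1.CHK.DATA.F.W576e

/-! chunks for 60 <= N <= 61 (generated) -/

set_option autoImplicit false
set_option maxRecDepth 100000

namespace Pool.Agent.Lib.MP_af3a4a_an.P1.CHK.DATA.N60x61

open BOX

def t41 : Tree := (.sR 1488 (.sR 1344 (.sR 1296 (.leaf 0x40060000ec060300d8c8a0ee625401080) (.leaf 0x4a060000f0060030d88ac4400974a1100)) (.sR 1392 (.leaf 0x4c064000f4060030e0869e56a974c1100) (.sR 1440 (.leaf 0x4e068000f8060030e88272e36974e1100) (.leaf 0x4a068000fc060030e88326c11974a1100)))) (.sR 1632 (.sR 1536 (.leaf 0x4c06c00100060030f07f00ba9974c1100) (.sR 1584 (.leaf 0x4c06c00104060030f07ac3494974c1100) (.leaf 0x4e07000108060030f876a3f2b974e1100))) (.sR 1680 (.leaf 0x4e0700010c060030f87284935974e1100) (.sR 1728 (.leaf 0x4c07000110060030f86f2e56d974c1100) (.sg 84 (.sr 1088 (.sR 1824 (.sR 1776 (.leaf 0x38088000a40600e128a52aa0825381080)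 (.leaf 0x3e08c000a80600e130a17903f253e1080)) (.sR 1872 (.leaf 0x3a08c000ac0600e130acf8004253a1080) (.sR 1920 (.sR 1896 (.leaf 0x38090000440600e138a9089a325381080) (.leaf 0x3808c000200600e130b4d1b9725381080)) (.sR 1944 (.leaf 0x3c094000300600e140a50a9ca253c1080) (.sg 82 (.sR 2040 (.sR 1992 (.sR 1968 (.leaf 0x380940000c06007140a90294b25381080) (.leaf 0x3a0980000006007148a1896be253a1080)) (.sR 2016 (.leaf 0x380980003406007148a50ed8925381080) (.leaf 0x380980000406007148a8ff61525381080))) (.sR 2088 (.sR 2064 (.leaf 0x380980001006007150a51b62725381080) (.leaf 0x4209c00024060071589db056025421080)) (.sR 2112 (.leaf 0x3c0a00002806007158a16acaa253c1080) (.sR 2136 (.leaf 0x420a400008060071609af0b274b421080) (.sr 1056 (.sR 2208 (.sR 2160 (.leaf 0x380a00001406012158a50af6425381080) (.sR 2184 (.leaf 0x460a8000180601216896e017e4b461080) (.leaf 0x400a40001c060121689b0ac904b401080))) (.sR 2232 (.leaf 0x3a0a800048060121689f155d34b3a1080) (.sR 2256 (.leaf 0x400ac0004c060121709b270334b401080)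 (.sg 81 (.sR 2352 (.sR 2304 (.sR 2280 (.leaf 0x380a00402c08001168a25eaad4b381080) (.leaf 0x460ac0403808001178971de4f71461080)) (.sR 2328 (.leaf 0x440a80405c080011789abbfae71441080) (.leaf 0x420ac04064080011789adaa7271421080))) (.sR 2448 (.sR 2376 (.leaf 0x3e0ac04090080011789eef418713e1080) (.sR 2412 (.sR 2388 (.leaf 0x3c0ac04094080011789f10c21713c1080) (.sR 2400 (.leaf 0x3c0a800134080011789eeca1a713c1080) (.leaf 0x3c0a8040e0080011789ec97df713c1080))) (.sR 2424 (.leaf 0x3a0ac0409c080011789f181d3713a1080) (.sR 2436 (.leaf 0x400b004068080011809ac5baa71401080) (.leaf 0x3c0ac040a0080011789ae6738713c1080))))) (.sR 2472 (.leaf 0x3c0ac040e8080011789ac7b7b713c1080) (.leaf 0x3c0a8001440800117092de3804b3c1080)))) (.sR 2280 (.leaf 0x380a40002c06002168a25eaad4b381080) (.sR 2472 (.sR 2352 (.sR 2316 (.sR 2292 (.leaf 0x460b00005406002178971de4f71461080) (.sR 2304 (.leaf 0x460ac000c80802d17896ec6cc71461080) (.leaf 0x440b000058060021789abbfae71441080))) (.sR 2328 (.leaf 0x420b000060060021789b0869971421080)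 (.sR 2340 (.leaf 0x380ac00088060021709ecc5944b381080) (.leaf 0x400ac0008c060021789b263bf71401080)))) (.sR 2388 (.sR 2364 (.leaf 0x3e0ac000d0060021789eef418713e1080) (.sR 2376 (.sr 1040 (.leaf 0x3e0ac000d8080101789ec722a713e1080) (.leaf 0x3e0ac000d8080311789ec722a713e1080)) (.leaf 0x3c0b0000dc060021789f10c21713c1080))) (.sR 2412 (.sR 2400 (.leaf 0x3c0ac00098060021789eeca1a713c1080) (.leaf 0x3c0ac000e4060021789ec97df713c1080)) (.sR 2424 (.leaf 0x380ac00138060021709ac99794b381080) (.sr 1040 (.sR 2448 (.sR 2436 (.leaf 0x400b004068080101809ac5baa71401080) (.leaf 0x3c0ac040a0080101789ae6738713c1080)) (.sR 2460 (.leaf 0x3e0b00013c080101809af2e2e713e1080) (.leaf 0x3a0ac00140080101789b24d99713a1080))) (.leaf 3)))))) (.leaf 3))))))) (.sR 2208 (.sR 2160 (.leaf 0x380a00001406014158a50af6425381080) (.sR 2184 (.leaf 0x460a8000180601416896e017e4b461080) (.leaf 0x400a40001c060141689b0ac904b401080))) (.sR 2232 (.leaf 0x3a0a800048060141689f155d34b3a1080) (.sR 2256 (.leaf 0x400ac0004c060141709b270334b401080)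 (.sg 81 (.sR 2328 (.sR 2280 (.leaf 0x380a40002c06000168a25eaad4b381080) (.sR 2304 (.leaf 0x460b00003806000178971de4f71461080) (.leaf 0x440ac0005c060001789abbfae71441080))) (.sR 2448 (.sR 2352 (.leaf 0x420b000064060001789adaa7271421080) (.sR 2400 (.sR 2376 (.sR 2364 (.leaf 0x3e0ac00130060001789eef418713e1080) (.leaf 0x3e0b0000d4060001789ec722a713e1080)) (.sR 2388 (.leaf 0x3c0b000094060001789f10c21713c1080) (.leaf 0x3c0ac00098060001789eeca1a713c1080))) (.sR 2424 (.sR 2412 (.leaf 0x3c0ac000e4060001789ec97df713c1080) (.leaf 0x3a0b00009c060001789f181d3713a1080)) (.sR 2436 (.leaf 0x400b400068060001809ac5baa71401080) (.leaf 0x3c0b0000a0060001789ae6738713c1080))))) (.sR 2472 (.leaf 0x3c0b0000e8060001789ac7b7b713c1080) (.leaf 0x3c0b00014806000178970df30713c1080)))) (.sR 2280 (.leaf 0x380a40002c06008168a25eaad4b381080) (.sR 2400 (.sR 2340 (.sR 2304 (.sR 2292 (.leaf 0x460b00005406008178971de4f71461080) (.leaf 0x460b0000cc0600817896ec6cc71461080)) (.sR 2316 (.leaf 0x440b000058060081789abbfae71441080)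 (.sR 2328 (.leaf 0x420b000060060081789b0869971421080) (.leaf 0x380ac00088060081709ecc5944b381080)))) (.sR 2364 (.sR 2352 (.sr 1072 (.leaf 0x400ac0008c0602b1789b263bf71401080) (.leaf 0x400ac0008c060361789b263bf71401080)) (.leaf 0x3e0ac000d0060081789eef418713e1080)) (.sR 2376 (.sr 1072 (.leaf 0x3e0b0000d40602b1789ec722a713e1080) (.leaf 3)) (.sR 2388 (.leaf 0x3c0b0000dc060081789f10c21713c1080) (.leaf 3))))) (.leaf 3)))))))))))) (.sR 1992 (.sR 1968 (.leaf 0x380940000c0601e140a90294b25381080) (.leaf 0x3e098000000601e148a147ab4253e1080)) (.sR 2016 (.leaf 0x38098000340601e148a613a574b381080) (.sR 2352 (.sr 1056 (.sR 2064 (.sR 2040 (.leaf 0x380980000406018148a8ff61525381080) (.leaf 0x380980001006018150a51b62725381080)) (.sR 2088 (.leaf 0x4609c00024060181589d56b2a25461080) (.sR 2112 (.leaf 0x3a0a00002806018158a29ba9f4b3a1080) (.sg 83 (.sR 2160 (.sR 2136 (.leaf 0x420a4000080600d1609af0b274b421080) (.leaf 0x380a0000140600d158a50af6425381080)) (.sR 2184 (.leaf 0x460a8000180600d16896e017e4b461080)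 (.sR 2208 (.leaf 0x420a40001c0600d1689aba6974b421080) (.sR 2232 (.sR 2220 (.leaf 0x3a0a00012c0802e1689f155d34b3a1080) (.leaf 0x380a8000c00600d1689f31bf54b381080)) (.sR 2244 (.leaf 0x400ac000c40600d1709b270334b401080) (.sR 2340 (.sr 1040 (.sR 2292 (.sR 2268 (.sR 2256 (.leaf 0x400a400050080061709b00df74b401080) (.leaf 0x3e0a404080080061709b29bb74b3e1080)) (.sR 2280 (.leaf 0x3a0a404084080061709f141034b3a1080) (.leaf 0x460ac0405408006178971de4f71461080))) (.sR 2316 (.sR 2304 (.leaf 0x460ac000c80800617896ec6cc71461080) (.leaf 0x440ac04058080061789abbfae71441080)) (.sR 2328 (.leaf 0x420ac04060080061789b0869971421080) (.leaf 0x380a804088080061709ecc5944b381080)))) (.sR 2280 (.sR 2256 (.leaf 0x400a400050080131709b00df74b401080) (.sR 2268 (.leaf 0x3e0a404080080131709b29bb74b3e1080) (.leaf 0x3a0a404084080131709f141034b3a1080))) (.sR 2292 (.leaf 0x460ac0405408013178971de4f71461080) (.sR 2304 (.leaf 0x460ac040cc0801317896ec6cc71461080) (.leaf 3))))) (.leaf 3))))))) (.sR 2136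 (.leaf 0x420a4000080601b1609af0b274b421080) (.sR 2232 (.sR 2208 (.sR 2196 (.sr 1040 (.sR 2160 (.sR 2148 (.leaf 0x3c0a000078080111609efca614b3c1080) (.leaf 0x3a09c0007c080111609f17e594b3a1080)) (.sR 2172 (.leaf 0x380a0040b408011160a2b0b9f4b381080) (.sR 2184 (.leaf 0x400a4040b8080111689b31f704b401080) (.leaf 0x400a004124080111689b0ac904b401080)))) (.sR 2160 (.sR 2148 (.leaf 0x3c0a000078080291609efca614b3c1080) (.leaf 0x3a09c0007c080291609f17e594b3a1080)) (.sR 2172 (.leaf 0x380a4000b406028160a2b0b9f4b381080) (.sR 2184 (.leaf 0x400a8000b8060281689b31f704b401080) (.leaf 3))))) (.leaf 0x380a0001280601b160a5da1d84b381080)) (.sR 2220 (.leaf 0x3a0a4000bc0601b1689f155d34b3a1080) (.leaf 3))) (.leaf 3))))))) (.sR 2088 (.sR 2040 (.leaf 0x380980000406019148a8ff61525381080) (.sR 2064 (.leaf 0x380980001006019150a51b62725381080) (.leaf 0x4409c00024060191589d846f525441080))) (.sR 2112 (.leaf 0x3a0a00002806019158a29ba9f4b3a1080) (.sR 2280 (.sg 83 (.sR 2160 (.sR 2136 (.leaf 0x420a4000080600b1609af0b274b421080)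 (.leaf 0x380a0000140600b158a50af6425381080)) (.sR 2184 (.leaf 0x460a8000180600b16896e017e4b461080) (.sR 2208 (.leaf 0x400a40001c0600b1689b0ac904b401080) (.sR 2232 (.sR 2220 (.leaf 0x3a0a4000bc0600b1689f155d34b3a1080) (.leaf 0x380a8000c00600b1689f31bf54b381080)) (.sR 2244 (.leaf 0x400ac000c40600b1709b270334b401080) (.sr 1072 (.sR 2256 (.sr 1064 (.leaf 0x400a400050080321709b00df74b401080) (.leaf 0x400a400050080351709b00df74b401080)) (.sR 2268 (.leaf 0x3e0a8000800602c1709b29bb74b3e1080) (.leaf 0x3a0a8000840602c1709f141034b3a1080))) (.leaf 3))))))) (.sR 2136 (.leaf 0x420a400008060331609af0b274b421080) (.sR 2160 (.sr 1072 (.sr 1064 (.sR 2148 (.leaf 0x3c0a0000780802a1609efca614b3c1080) (.leaf 0x3a09c0007c0802a1609f17e594b3a1080)) (.leaf 3)) (.leaf 3)) (.leaf 3)))) (.leaf 3))))) (.leaf 3))))))))) (.sR 1824 (.sR 1776 (.leaf 0x38088000a40600f128a52aa0825381080) (.leaf 0x4008c000a80600f130a15708425401080)) (.sR 1872 (.leaf 0x3808c000ac0600f130ad44eb04b381080) (.sR 2448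 (.sR 1920 (.sR 1896 (.leaf 0x38090000440600f138a9089a325381080) (.leaf 0x3808c000200600f130b4d1b9725381080)) (.sR 1944 (.leaf 0x3a094000300600f140a6091b24b3a1080) (.sg 82 (.sR 2064 (.sR 1992 (.sR 1968 (.leaf 0x380940000c06005140a90294b25381080) (.leaf 0x3a0980000006005148a1896be253a1080)) (.sR 2016 (.leaf 0x380980003406005148a50ed8925381080) (.sR 2040 (.leaf 0x380980000406005148a8ff61525381080) (.leaf 0x380980001006005150a51b62725381080)))) (.sR 2112 (.sR 2088 (.leaf 0x4209c00024060051589db056025421080) (.leaf 0x3c0a00002806005158a16acaa253c1080)) (.sR 2136 (.leaf 0x420a400008060051609af0b274b421080) (.sR 2160 (.leaf 0x3a0a00001406005158a504abc253a1080) (.sr 1120 (.sR 2232 (.sR 2184 (.leaf 0x460a8000180601516896e017e4b461080) (.sR 2208 (.leaf 0x400a40001c060151689b0ac904b401080) (.leaf 0x3a0a800048060151689f155d34b3a1080))) (.sR 2256 (.leaf 0x400ac0004c060151709b270334b401080) (.sR 2280 (.leaf 0x380a40002c06015168a25eaad4b381080) (.sg 81 (.sR 2328 (.sR 2304 (.leaf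 0x460b00003806004178971de4f71461080) (.leaf 0x440ac0005c060041789abbfae71441080)) (.sR 2352 (.leaf 0x420b000064060041789adaa7271421080) (.sR 2376 (.leaf 0x3e0b000090060041789eef418713e1080) (.sR 2412 (.sR 2388 (.leaf 0x3c0b000094060041789f10c21713c1080) (.sR 2400 (.leaf 0x3c0ac00098060041789eeca1a713c1080) (.leaf 0x3c0ac000e0060041789ec97df713c1080))) (.sR 2424 (.leaf 0x3a0b00009c060041789f181d3713a1080) (.sR 2436 (.leaf 0x400b400068060041809ac5baa71401080) (.leaf 3))))))) (.sR 2304 (.leaf 0x460b00003806021178971de4f71461080) (.sR 2328 (.sR 2316 (.leaf 0x440b000058060211789abbfae71441080) (.leaf 0x420b000060060211789b0869971421080)) (.leaf 3))))))) (.sR 2232 (.sR 2184 (.leaf 0x460a8000180601a16896e017e4b461080) (.sR 2208 (.leaf 0x400a40001c0601a1689b0ac904b401080) (.leaf 0x3a0a8000480601a1689f155d34b3a1080))) (.sR 2256 (.leaf 0x400ac0004c0601a1709b270334b401080) (.sR 2376 (.sg 81 (.sR 2304 (.sR 2280 (.leaf 0x380a40002c06017168a25eaad4b381080) (.leaf 0x460b00003806017178971de4f71461080))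 (.sR 2328 (.leaf 0x440ac0005c060171789abbfae71441080) (.sR 2352 (.leaf 0x420b000064060171789adaa7271421080) (.leaf 0x3e0b000090060171789eef418713e1080)))) (.leaf 3)) (.leaf 3))))))))) (.sR 1992 (.sR 1968 (.leaf 0x380940000c06024140a90294b25381080) (.leaf 0x3e0980000006024148a147ab4253e1080)) (.sR 2016 (.leaf 0x380980011406024148a613a574b381080) (.sR 2208 (.sr 1120 (.sR 2064 (.sR 2040 (.leaf 0x380980000406022148a8ff61525381080) (.leaf 0x380980001006022150a51b62725381080)) (.sR 2088 (.leaf 0x4409c00024060221589d846f525441080) (.sg 83 (.sR 2136 (.sR 2112 (.leaf 0x3a0a00002806016158a18c50a253a1080) (.leaf 0x420a400008060161609af0b274b421080)) (.sR 2160 (.leaf 0x380a00001406016158a50af6425381080) (.sR 2184 (.leaf 0x460a8000180601616896e017e4b461080) (.leaf 0x400a40001c060161689b0ac904b401080)))) (.leaf 3)))) (.sR 2064 (.sR 2040 (.leaf 0x380980000406026148a8ff61525381080) (.leaf 0x380980001006026150a51b62725381080)) (.sR 2088 (.leaf 0x4609c00024060261589d56b2a25461080)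 (.sR 2160 (.sg 83 (.sR 2112 (.leaf 0x3a0a00002806025158a18c50a253a1080) (.sR 2136 (.leaf 0x420a400008060251609af0b274b421080) (.leaf 0x380a00001406025158a50af6425381080))) (.leaf 3)) (.leaf 3))))) (.leaf 3))))))) (.leaf 3))))) (.sR 2112 (.sr 1088 (.sg 86 (.sR 1824 (.sR 1776 (.sR 1752 (.leaf 0x380840003c0600a120b0e50c325381080) (.leaf 0x380880006c0600a128a90539f25381080)) (.sR 1800 (.leaf 0x38088000400600a128b0f0a0a25381080) (.leaf 0x3808c000700600a130a91179d25381080))) (.sR 1872 (.sR 1848 (.leaf 0x3808c000740600a130acfc7aa25381080) (.leaf 0x3808c000b00600a130b0eadea25381080)) (.sR 1896 (.leaf 0x38090000440600a138a9089a325381080) (.sr 1056 (.sR 1944 (.sR 1920 (.leaf 0x3808c000200601c130b4d1b9725381080) (.leaf 0x38094000300601c140a514ff725381080)) (.sR 1968 (.leaf 0x380940000c0601c140a90294b25381080) (.sg 85 (.sR 2016 (.sR 1992 (.leaf 0x3a0980000006009148a1896be253a1080) (.leaf 0x380980003406009148a50ed8925381080)) (.sR 2040 (.leaf 0x380980000406009148a8ff61525381080)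 (.sR 2064 (.leaf 0x380980001006009150a51b62725381080) (.sR 2088 (.sR 2076 (.leaf 0x380980011806009148acea61c25381080) (.leaf 0x400a00011c060091589dbb35f25401080)) (.sR 2100 (.leaf 0x3a0a00012006009158a18c50a253a1080) (.leaf 3)))))) (.sR 1992 (.leaf 0x3a098000000602f148a2a6e5d4b3a1080) (.leaf 3))))) (.sR 1944 (.sR 1920 (.leaf 0x3808c0002006020130b4d1b9725381080) (.leaf 0x380940003006020140a514ff725381080)) (.sR 1968 (.leaf 0x380940000c06020140a90294b25381080) (.sR 2040 (.sg 85 (.sR 1992 (.leaf 0x3c098000000601f148a16a617253c1080) (.sR 2016 (.leaf 0x38098000340601f148a50ed8925381080) (.leaf 0x38098000040601f148a8ff61525381080))) (.leaf 3)) (.leaf 3)))))))) (.sR 1776 (.sR 1752 (.leaf 0x380840003c06027120b0e50c325381080) (.leaf 0x400880006c06027128a8f077825401080)) (.sR 1848 (.sr 1056 (.sR 1800 (.leaf 0x38088000400601d128b0f0a0a25381080) (.sR 1824 (.leaf 0x3a08c000700601d130a90d453253a1080) (.leaf 0x3808c000740601d130ad44eb04b381080))) (.sR 1800 (.leaf 0x380880004006034128b0f0a0a25381080)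 (.leaf 3))) (.leaf 3)))) (.sR 2016 (.sR 1992 (.sg 86 (.sR 1824 (.sR 1776 (.sR 1752 (.leaf 0x380840003c0600c120b0e50c325381080) (.leaf 0x380880006c0600c128a90539f25381080)) (.sR 1800 (.leaf 0x38088000400600c128b0f0a0a25381080) (.leaf 0x3808c000700600c130a91179d25381080))) (.sR 1872 (.sR 1848 (.leaf 0x3808c000740600c130acfc7aa25381080) (.leaf 0x3808c000b00600c130b0eadea25381080)) (.sR 1896 (.leaf 0x3c090000440600c138a8fe8e8253c1080) (.sr 1120 (.sR 1944 (.sR 1920 (.leaf 0x3808c0002006023130b4d1b9725381080) (.leaf 0x380940003006023140a514ff725381080)) (.sR 1968 (.leaf 0x380940000c06023140a90294b25381080) (.sg 85 (.leaf 0x3a0980000006037148a1896be253a1080) (.leaf 3)))) (.sR 1920 (.leaf 0x3808c0002006039130b4d1b9725381080) (.leaf 3)))))) (.sR 1752 (.leaf 0x380840003c06038120b0e50c325381080) (.leaf 3))) (.leaf 3)) (.leaf 3))) (.leaf 3)))))))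
theorem k41 : ChunkP 60 61 1024 1152 80 88 1248 2484 :=
  chkD_sound (Q := 40) (C := [c554.c, c465.c, c467.c, c497.c, c568.c, c578.c, c459.c, c483.c, c556.c, c473.c, c486.c, c557.c, c581.c, c469.c, c484.c, c579.c, c458.c, c460.c, c466.c, c543.c, c555.c, c569.c, c571.c, c584.c, c471.c, c558.c, c585.c, c472.c, c474.c, c476.c, c485.c, c560.c, c561.c, c570.c, c572.c, c574.c, c580.c, c586.c, c587.c, c487.c, c544.c, c545.c, c547.c, c548.c, c549.c, c468.c, c470.c, c475.c, c500.c, c542.c, c546.c, c559.c, c562.c, c563.c, c564.c, c573.c, c582.c, c588.c])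
    (T := [f_w492_498_8_10_20e, f_w504_510_8_5_15e, f_w528_534_8_10_15e, f_w486_492_8_5_20e, f_w510_516_8_5_15e, f_w534_540_8_10_15e, f_w540_546_8_10_15e, f_w546_552_8_10_15e, f_w474_480_8_10_20e, f_w516_522_8_10_15e, f_w522_528_8_5_15e, f_w564_570_8_10_15e, f_w480_486_8_10_20e, f_w498_504_8_10_20e, f_w570_576_8_10_25e, f_w432_438_8_10_25e, f_w444_450_8_10_30e, f_w468_474_8_5_20e, f_w552_558_8_10_15e, f_w558_564_8_10_15e, f_w561_564_8_10_20e, f_w570_573_8_10_20e, f_w576_579_8_10_20e, f_w576_582_8_5_10e, f_w579_582_8_10_20e, f_w582_588_8_5_10e, f_w606_609_8_6_18f, f_w438_444_8_10_25e, f_w450_456_8_10_30e, f_w456_462_8_10_30e, f_w534_537_8_10_25e, f_w537_540_8_10_25e, f_w564_567_8_10_20e, f_w567_570_8_10_20e, f_w582_585_8_10_20e, f_w585_588_8_10_20e, f_w588_594_8_5_10e, f_w594_597_8_10_20e, f_w597_600_8_6_18f, f_w603_606_8_9_21e, f_w609_612_8_10_15f, f_w432_444_8_10_20e, f_w444_456_8_10_15e, f_w456_468_8_5_15e, f_w462_468_8_10_20e, f_w540_543_8_10_25e, f_w543_546_8_10_25e,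 f_w552_555_8_5_15f, f_w555_558_8_5_15f, f_w558_561_8_5_15f, f_w573_576_8_10_20e, f_w573_576_8_9_21f, f_w588_591_8_10_15f, f_w591_594_8_10_15f, f_w591_594_8_5_15e, f_w594_597_8_6_18f, f_w600_603_8_5_15e, f_w600_603_8_6_18f, f_w612_618_8_6_20e, f_w312_324_8_10_30e, f_w324_336_16_15_40, f_w336_348_16_10_35, f_w348_360_16_10_30e, f_w360_372_16_10_25e, f_w372_384_16_10_30e, f_w384_396_16_5_20e, f_w396_408_16_5_20e, f_w408_420_16_5_20e, f_w420_432_16_5_20e, f_w498_504_8_5_15f, f_w516_519_8_10_20f, f_w519_522_8_10_20f, f_w522_525_8_10_20f, f_w546_549_8_10_25e, f_w549_552_8_5_15f, f_w552_555_8_10_20e, f_w588_591_8_5_15e, f_w597_600_8_5_15e, f_w603_606_8_6_18f, f_w612_615_8_6_20e, f_w615_618_8_6_20e, f_w618_621_8_6_20e, f_w618_624_8_6_16e]) (t := t41)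
    (all_cons p554 (all_cons p465 (all_cons p467 (all_cons p497 (all_cons p568 (all_cons p578 (all_cons p459 (all_cons p483 (all_cons p556 (all_cons p473 (all_cons p486 (all_cons p557 (all_cons p581 (all_cons p469 (all_cons p484 (all_cons p579 (all_cons p458 (all_cons p460 (all_cons p466 (all_cons p543 (all_cons p555 (all_cons p569 (all_cons p571 (all_cons p584 (all_cons p471 (all_cons p558 (all_cons p585 (all_cons p472 (all_cons p474 (all_cons p476 (all_cons p485 (all_cons p560 (all_cons p561 (all_cons p570 (all_cons p572 (all_cons p574 (all_cons p580 (all_cons p586 (all_cons p587 (all_cons p487 (all_cons p544 (all_cons p545 (all_cons p547 (all_cons p548 (all_cons p549 (all_cons p468 (all_cons p470 (all_cons p475 (all_cons p500 (all_cons p542 (all_cons p546 (all_cons p559 (all_cons p562 (all_cons p563 (all_cons p564 (all_cons p573 (all_cons p582 (all_cons p588 all_nil)))))))))))))))))))))))))))))))))))))))))))))))))))))))))) (all_cons f_w492_498_8_10_20e_p (all_cons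 f_w504_510_8_5_15e_p (all_cons f_w528_534_8_10_15e_p (all_cons f_w486_492_8_5_20e_p (all_cons f_w510_516_8_5_15e_p (all_cons f_w534_540_8_10_15e_p (all_cons f_w540_546_8_10_15e_p (all_cons f_w546_552_8_10_15e_p (all_cons f_w474_480_8_10_20e_p (all_cons f_w516_522_8_10_15e_p (all_cons f_w522_528_8_5_15e_p (all_cons f_w564_570_8_10_15e_p (all_cons f_w480_486_8_10_20e_p (all_cons f_w498_504_8_10_20e_p (all_cons f_w570_576_8_10_25e_p (all_cons f_w432_438_8_10_25e_p (all_cons f_w444_450_8_10_30e_p (all_cons f_w468_474_8_5_20e_p (all_cons f_w552_558_8_10_15e_p (all_cons f_w558_564_8_10_15e_p (all_cons f_w561_564_8_10_20e_p (all_cons f_w570_573_8_10_20e_p (all_cons f_w576_579_8_10_20e_p (all_cons f_w576_582_8_5_10e_p (all_cons f_w579_582_8_10_20e_p (all_cons f_w582_588_8_5_10e_p (all_cons f_w606_609_8_6_18f_p (all_cons f_w438_444_8_10_25e_p (all_cons f_w450_456_8_10_30e_p (all_cons f_w456_462_8_10_30e_p (all_cons f_w534_537_8_10_25e_p (all_cons f_w537_540_8_10_25e_p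 (all_cons f_w564_567_8_10_20e_p (all_cons f_w567_570_8_10_20e_p (all_cons f_w582_585_8_10_20e_p (all_cons f_w585_588_8_10_20e_p (all_cons f_w588_594_8_5_10e_p (all_cons f_w594_597_8_10_20e_p (all_cons f_w597_600_8_6_18f_p (all_cons f_w603_606_8_9_21e_p (all_cons f_w609_612_8_10_15f_p (all_cons f_w432_444_8_10_20e_p (all_cons f_w444_456_8_10_15e_p (all_cons f_w456_468_8_5_15e_p (all_cons f_w462_468_8_10_20e_p (all_cons f_w540_543_8_10_25e_p (all_cons f_w543_546_8_10_25e_p (all_cons f_w552_555_8_5_15f_p (all_cons f_w555_558_8_5_15f_p (all_cons f_w558_561_8_5_15f_p (all_cons f_w573_576_8_10_20e_p (all_cons f_w573_576_8_9_21f_p (all_cons f_w588_591_8_10_15f_p (all_cons f_w591_594_8_10_15f_p (all_cons f_w591_594_8_5_15e_p (all_cons f_w594_597_8_6_18f_p (all_cons f_w600_603_8_5_15e_p (all_cons f_w600_603_8_6_18f_p (all_cons f_w612_618_8_6_20e_p (all_cons f_w312_324_8_10_30e_p (all_cons f_w324_336_16_15_40_p (all_cons f_w336_348_16_10_35_p (all_cons f_w348_360_16_10_30e_p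 (all_cons f_w360_372_16_10_25e_p (all_cons f_w372_384_16_10_30e_p (all_cons f_w384_396_16_5_20e_p (all_cons f_w396_408_16_5_20e_p (all_cons f_w408_420_16_5_20e_p (all_cons f_w420_432_16_5_20e_p (all_cons f_w498_504_8_5_15f_p (all_cons f_w516_519_8_10_20f_p (all_cons f_w519_522_8_10_20f_p (all_cons f_w522_525_8_10_20f_p (all_cons f_w546_549_8_10_25e_p (all_cons f_w549_552_8_5_15f_p (all_cons f_w552_555_8_10_20e_p (all_cons f_w588_591_8_5_15e_p (all_cons f_w597_600_8_5_15e_p (all_cons f_w603_606_8_6_18f_p (all_cons f_w612_615_8_6_20e_p (all_cons f_w615_618_8_6_20e_p (all_cons f_w618_621_8_6_20e_p (all_cons f_w618_624_8_6_16e_p all_nil)))))))))))))))))))))))))))))))))))))))))))))))))))))))))))))))))))))))))))))))))))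
    (by decide +kernel)
def t42 : Tree := (.sR 1488 (.sR 1344 (.sR 1296 (.leaf 0x520600005c060010d8852f35f97521100) (.leaf 0x4a06000060060010d88ac4400974a1100)) (.sR 1392 (.leaf 0x4c06400064060010e0869e56a974c1100) (.sR 1440 (.leaf 0x4e06800068060010e88272e36974e1100) (.leaf 0x4a0680006c060010e88326c11974a1100)))) (.sR 1632 (.sR 1536 (.leaf 0x4e06c00070060010f07e400b8974e1100) (.sR 1584 (.leaf 0x4c06c00074060010f07ac3494974c1100) (.leaf 0x4e07000078060010f876a3f2b974e1100))) (.sR 1680 (.leaf 0x4e0700007c060010f87284935974e1100) (.sR 2304 (.sg 84 (.sR 1728 (.leaf 0x4c07000080060110f86f2e56d974c1100) (.sr 1216 (.sR 1776 (.leaf 0x3a0880003c06007128a5196c5253a1080) (.sR 1824 (.leaf 0x3c08c0008806007130a2ba1ba4b3c1080) (.sR 1848 (.leaf 0x3808c0001c06007130acfc7aa25381080) (.sR 1872 (.leaf 0x3808c0002006007130b0eadea25381080) (.sg 82 (.sR 2016 (.sR 1944 (.sR 1896 (.leaf 0x380900000406000138a9089a325381080) (.sR 1920 (.leaf 0x3808c0000806000130b4d1b9725381080) (.leaf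 0x380940000c06000140a514ff725381080))) (.sR 1968 (.leaf 0x380940001006000140a90294b25381080) (.sR 1992 (.leaf 0x3a0980000006000148a1896be253a1080) (.leaf 0x380980001406000148a50ed8925381080)))) (.sR 2088 (.sR 2040 (.leaf 0x380980001806000148a8ff61525381080) (.sR 2064 (.leaf 0x380980002406000150a51b62725381080) (.leaf 0x4209c00028060001589db056025421080))) (.sR 2136 (.sR 2112 (.leaf 0x400a00002c06000158a11dc7325401080) (.leaf 0x420a400030060001609af0b274b421080)) (.sR 2160 (.leaf 0x3a0a00004c06000158a504abc253a1080) (.sr 1184 (.sR 2232 (.sR 2184 (.leaf 0x460a8000340600416896e017e4b461080) (.sR 2208 (.leaf 0x400a400050060041689b0ac904b401080) (.leaf 0x3a0a800054060041689f155d34b3a1080))) (.sR 2256 (.leaf 0x400ac00058060041709b270334b401080) (.sR 2280 (.leaf 0x380a40008c06004168a25eaad4b381080) (.sg 81 (.leaf 0x460b00009006010178971de4f71461080) (.leaf 3))))) (.sR 2208 (.sR 2184 (.leaf 0x460a8000340600916896e017e4b461080) (.leaf 0x400a400050060091689b0ac904b401080))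 (.sR 2232 (.leaf 0x3a0a800054060091689f155d34b3a1080) (.sR 2256 (.leaf 0x400ac00058060091709b270334b401080) (.leaf 3))))))))) (.sR 1944 (.sR 1896 (.leaf 0x380900000406008138a9089a325381080) (.sR 1920 (.leaf 0x3808c0000806008130b4d1b9725381080) (.leaf 0x380940000c06008140a514ff725381080))) (.sR 1968 (.leaf 0x3c0940001006008140a8f7a1a253c1080) (.sR 2088 (.sr 1184 (.sR 2016 (.sR 1992 (.leaf 0x3a0980000006005148a1896be253a1080) (.leaf 0x380980001406005148a50ed8925381080)) (.sR 2040 (.leaf 0x380980001806005148a8ff61525381080) (.sR 2064 (.leaf 0x380980002406005150a51b62725381080) (.leaf 0x4409c00028060051589d846f525441080)))) (.sR 2016 (.sR 1992 (.leaf 0x3a098000000600b148a1896be253a1080) (.leaf 0x38098000140600b148a50ed8925381080)) (.sR 2040 (.leaf 0x38098000180600b148a8ff61525381080) (.leaf 3)))) (.leaf 3))))))))) (.sR 1776 (.leaf 0x3c0880003c06006128a514cc1253c1080) (.sR 2208 (.sR 1848 (.sR 1800 (.leaf 0x380880004406006128b0f0a0a25381080) (.sR 1824 (.leaf 0x3808c0004806006130a91179d25381080)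 (.leaf 0x3a08c0001c06006130acf8004253a1080))) (.sR 1872 (.leaf 0x3c08c0002006006130b0e09ad253c1080) (.sR 2184 (.sg 82 (.sR 1992 (.sR 1920 (.sR 1896 (.leaf 0x380900000406002138a9089a325381080) (.leaf 0x3808c0000806002130b4d1b9725381080)) (.sR 1944 (.leaf 0x380940000c06002140a514ff725381080) (.sR 1968 (.leaf 0x380940001006002140a90294b25381080) (.leaf 0x3a0980000006002148a1896be253a1080)))) (.sR 2040 (.sR 2016 (.leaf 0x380980001406002148a50ed8925381080) (.leaf 0x380980001806002148a8ff61525381080)) (.sR 2064 (.leaf 0x3c0980002406002150a50fbfb253c1080) (.sR 2088 (.leaf 0x4409c00028060021589d846f525441080) (.sr 1248 (.sR 2136 (.sR 2112 (.leaf 0x3a0a00002c0600a158a18c50a253a1080) (.leaf 0x420a4000300600a1609af0b274b421080)) (.sR 2160 (.leaf 0x380a00004c0600a158a50af6425381080) (.leaf 0x460a8000340600a16896e017e4b461080))) (.sR 2112 (.leaf 0x3c0a00002c0600f158a16acaa253c1080) (.sR 2136 (.leaf 0x420a4000300600f1609af0b274b421080) (.leaf 3)))))))) (.sR 1920 (.sR 1896 (.leaf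 0x3a090000040600c138a903f75253a1080) (.leaf 0x3808c000080600c130b4d1b9725381080)) (.sR 1944 (.leaf 0x380940000c0600c140a638da64b381080) (.sR 1992 (.sr 1248 (.sR 1968 (.leaf 0x38094000100600d140a90294b25381080) (.leaf 0x3a098000000600d148a1896be253a1080)) (.leaf 3)) (.leaf 3))))) (.leaf 3)))) (.leaf 3))))) (.sR 1728 (.leaf 0x4c07000084060120f86f2e56d974c1100) (.sR 1872 (.sr 1216 (.sg 86 (.sR 1800 (.sR 1752 (.leaf 0x380840003806003120b0e50c325381080) (.sR 1776 (.leaf 0x380880004006003128a90539f25381080) (.leaf 0x380880004406003128b0f0a0a25381080))) (.sR 1824 (.leaf 0x3a08c0004806003130a90d453253a1080) (.sR 1848 (.leaf 0x3c08c0001c06003130acf2c5e253c1080) (.leaf 0x3808c0002006003130b12e1a44b381080)))) (.leaf 3)) (.sR 1776 (.sg 86 (.sR 1752 (.leaf 0x38084000380600e120b0e50c325381080) (.leaf 0x3c088000400600e128a8fc5a4253c1080)) (.leaf 3)) (.leaf 3))) (.leaf 3)))) (.leaf 3)))))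
theorem k42 : ChunkP 60 61 1152 1280 80 88 1248 2484 :=
  chkD_sound (Q := 40) (C := [c599.c, c610.c, c625.c, c602.c, c593.c, c594.c, c626.c, c600.c, c601.c, c616.c, c619.c, c617.c, c627.c, c620.c, c628.c, c630.c, c592.c, c609.c, c611.c])
    (T := [f_w492_498_8_10_20e, f_w468_474_8_5_20e, f_w474_480_8_10_20e, f_w480_486_8_10_20e, f_w486_492_8_5_20e, f_w498_504_8_10_20e, f_w504_510_8_5_15e, f_w456_462_8_10_30e, f_w462_468_8_10_20e, f_w510_516_8_5_15e, f_w516_522_8_10_15e, f_w522_528_8_5_15e, f_w528_534_8_10_15e, f_w540_546_8_10_15e, f_w432_438_8_10_25e, f_w432_444_8_10_20e, f_w438_444_8_10_25e, f_w444_450_8_10_30e, f_w450_456_8_10_30e, f_w534_540_8_10_15e, f_w546_552_8_10_15e, f_w552_558_8_10_15e, f_w558_564_8_10_15e, f_w312_324_16_10_35e, f_w324_336_16_15_40, f_w336_348_16_10_35, f_w348_360_16_10_30e, f_w360_372_16_10_25e, f_w372_384_16_10_30e, f_w384_396_16_5_20e, f_w396_408_16_5_20e, f_w408_420_16_5_20e, f_w420_432_16_15_30, f_w420_432_16_5_20e, f_w444_456_8_10_15e,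 f_w564_570_8_10_15e, f_w570_576_8_10_25e]) (t := t42)
    (all_cons p599 (all_cons p610 (all_cons p625 (all_cons p602 (all_cons p593 (all_cons p594 (all_cons p626 (all_cons p600 (all_cons p601 (all_cons p616 (all_cons p619 (all_cons p617 (all_cons p627 (all_cons p620 (all_cons p628 (all_cons p630 (all_cons p592 (all_cons p609 (all_cons p611 all_nil))))))))))))))))))) (all_cons f_w492_498_8_10_20e_p (all_cons f_w468_474_8_5_20e_p (all_cons f_w474_480_8_10_20e_p (all_cons f_w480_486_8_10_20e_p (all_cons f_w486_492_8_5_20e_p (all_cons f_w498_504_8_10_20e_p (all_cons f_w504_510_8_5_15e_p (all_cons f_w456_462_8_10_30e_p (all_cons f_w462_468_8_10_20e_p (all_cons f_w510_516_8_5_15e_p (all_cons f_w516_522_8_10_15e_p (all_cons f_w522_528_8_5_15e_p (all_cons f_w528_534_8_10_15e_p (all_cons f_w540_546_8_10_15e_p (all_cons f_w432_438_8_10_25e_p (all_cons f_w432_444_8_10_20e_p (all_cons f_w438_444_8_10_25e_p (all_cons f_w444_450_8_10_30e_p (all_cons f_w450_456_8_10_30e_p (all_cons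 f_w534_540_8_10_15e_p (all_cons f_w546_552_8_10_15e_p (all_cons f_w552_558_8_10_15e_p (all_cons f_w558_564_8_10_15e_p (all_cons f_w312_324_16_10_35e_p (all_cons f_w324_336_16_15_40_p (all_cons f_w336_348_16_10_35_p (all_cons f_w348_360_16_10_30e_p (all_cons f_w360_372_16_10_25e_p (all_cons f_w372_384_16_10_30e_p (all_cons f_w384_396_16_5_20e_p (all_cons f_w396_408_16_5_20e_p (all_cons f_w408_420_16_5_20e_p (all_cons f_w420_432_16_15_30_p (all_cons f_w420_432_16_5_20e_p (all_cons f_w444_456_8_10_15e_p (all_cons f_w564_570_8_10_15e_p (all_cons f_w570_576_8_10_25e_p all_nil)))))))))))))))))))))))))))))))))))))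
    (by decide +kernel)
def t43 : Tree := (.sR 576 (.leaf 0x42000000000800702078217b197421180) (.sR 1632 (.sr 1152 (.sR 912 (.sR 720 (.sR 624 (.leaf 0x4200800004060000287c0b82297421100) (.sR 672 (.leaf 0x42c0800000060000280000000d0425104) (.leaf 0x4340c00038060000300000000d042d104))) (.sR 816 (.sR 768 (.leaf 0x4300c00040060000300000000e0429104) (.leaf 0x4381000048060000380000000e042d104)) (.sR 864 (.leaf 0x420200005006000058884a41297421100) (.leaf 0x400440000c060000a0a582df84b401100)))) (.sR 1104 (.sR 1008 (.sR 960 (.leaf 0x4804800058060000a89dc6a7471481100) (.leaf 0x4e04c00010060000b098fe61e4b4e1100)) (.sR 1056 (.leaf 0x4c05000014060000b895e7d88714c1100) (.leaf 0x4805000018060000b8998007a4b481100))) (.sR 1200 (.sR 1152 (.leaf 0x4e0540001c060000c0950631b4b4e1100) (.leaf 0x4a05800020060000c8925b6b0714a1100)) (.sR 1248 (.leaf 0x4a05c00024060000d08f0a758974a1100) (.sg 92 (.sR 1440 (.sR 1344 (.sR 1296 (.leaf 0x3c06000060060060d8c8d97bb4b3c1080) (.leaf 0x4c06000028060030d88a4d1e1714c1100))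 (.sR 1392 (.leaf 0x4c0640002c060030e0869e56a974c1100) (.leaf 0x4e06800030060030e88272e36974e1100))) (.sR 1536 (.sR 1488 (.leaf 0x4a06800064060030e88326c11974a1100) (.sr 1088 (.leaf 0x4c06c00034060050f07f00ba9974c1100) (.leaf 0x4c06c00034060080f07f00ba9974c1100))) (.sR 1584 (.leaf 0x4c06c00068060030f07ac3494974c1100) (.leaf 0x4e0700006c060030f876a3f2b974e1100)))) (.leaf 3)))))) (.sR 960 (.sR 768 (.sR 624 (.leaf 0x4200800004060010287c0b82297421100) (.sR 720 (.sg 92 (.sR 672 (.leaf 0x4400c00000060020307c0ef7b97441100) (.leaf 0x4340c00008060020300000000d042d104)) (.sR 672 (.leaf 0x42c0800000060040280000000d0425104) (.leaf 0x4340c00008060040300000000d042d104))) (.leaf 0x4300c0003c060010300000000e0429104))) (.sR 864 (.sR 816 (.leaf 0x420280004406001068b859b9197421100) (.leaf 0x400400004c06001098a9371cf4b401100)) (.sR 912 (.leaf 0x420440000c060010a0a54211f4b421100) (.leaf 0x4a04800054060010a89d1549d4b4a1100)))) (.sR 1104 (.sR 1008 (.leaf 0x4a04c00010060010b099db948714a1100)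 (.sR 1056 (.leaf 0x4e05000014060010b8955b5d6714e1100) (.leaf 0x4a05000018060010b899211c84b4a1100))) (.sR 1200 (.sR 1152 (.leaf 0x4a0540001c060010c095c002e714a1100) (.leaf 0x4c05800020060010c891c643f974c1100)) (.sR 1440 (.sg 92 (.sR 1296 (.sR 1248 (.leaf 0x4e05c00024060020d08dd6154714e1100) (.leaf 0x4605c0005c060020d092da68f71461100)) (.sR 1344 (.leaf 0x4e06000028060020d889bcfb7714e1100) (.sR 1392 (.leaf 0x4c0640002c060020e0869e56a974c1100) (.leaf 0x4e06800030060020e88272e36974e1100)))) (.leaf 3)) (.leaf 3)))))) (.leaf 3)))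
theorem k43 : ChunkP 60 61 1024 1280 88 96 528 2484 :=
  chkD_sound (Q := 40) (C := [c500.c, c613.c, c612.c, c499.c, c614.c, c484.c, c501.c, c524.c, c579.c])
    (T := [f_w156_168_16_10_45, f_w144_156_16_10_40e, f_w168_180_16_10_40, f_w216_228_16_10_40e, f_w240_252_16_10_35e, f_w252_264_16_10_35e, f_w264_276_16_10_30e, f_w276_288_16_10_30e, f_w288_300_16_10_30e, f_w300_312_16_10_30e, f_w324_336_16_10_35e, f_w336_348_16_10_35, f_w348_360_16_10_30e, f_w372_384_16_10_30e, f_w168_180_16_10_35e, f_w180_192_16_10_35e, f_w180_192_16_10_40, f_w192_204_16_10_30e, f_w192_204_16_10_40, f_w204_216_16_10_30e, f_w204_216_16_10_40, f_w228_240_16_10_35e, f_w228_240_16_10_40, f_w312_324_16_10_35e, f_w312_324_8_10_30e, f_w360_372_16_10_25e, f_w384_396_16_5_20e, f_w396_408_16_5_20e]) (t := t43)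
    (all_cons p500 (all_cons p613 (all_cons p612 (all_cons p499 (all_cons p614 (all_cons p484 (all_cons p501 (all_cons p524 (all_cons p579 all_nil))))))))) (all_cons f_w156_168_16_10_45_p (all_cons f_w144_156_16_10_40e_p (all_cons f_w168_180_16_10_40_p (all_cons f_w216_228_16_10_40e_p (all_cons f_w240_252_16_10_35e_p (all_cons f_w252_264_16_10_35e_p (all_cons f_w264_276_16_10_30e_p (all_cons f_w276_288_16_10_30e_p (all_cons f_w288_300_16_10_30e_p (all_cons f_w300_312_16_10_30e_p (all_cons f_w324_336_16_10_35e_p (all_cons f_w336_348_16_10_35_p (all_cons f_w348_360_16_10_30e_p (all_cons f_w372_384_16_10_30e_p (all_cons f_w168_180_16_10_35e_p (all_cons f_w180_192_16_10_35e_p (all_cons f_w180_192_16_10_40_p (all_cons f_w192_204_16_10_30e_p (all_cons f_w192_204_16_10_40_p (all_cons f_w204_216_16_10_30e_p (all_cons f_w204_216_16_10_40_p (all_cons f_w228_240_16_10_35e_p (all_cons f_w228_240_16_10_40_p (all_cons f_w312_324_16_10_35e_p (all_cons f_w312_324_8_10_30e_p (all_cons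 f_w360_372_16_10_25e_p (all_cons f_w384_396_16_5_20e_p (all_cons f_w396_408_16_5_20e_p all_nil))))))))))))))))))))))))))))
    (by decide +kernel)
def t44 : Tree := (.sR 528 (.leaf 0x46000000000801c0207c1078097461280) (.sR 2112 (.sg 88 (.sR 576 (.leaf 0x46000000000a01b02878171e697461280) (.sr 1408 (.sR 1104 (.sR 864 (.sR 720 (.sR 624 (.leaf 0x4400800004060000287c1b2c297441100) (.sg 84 (.sR 672 (.leaf 0x4200c00008060080307c18cdb97421100) (.leaf 0x4401400024060080408c226dd71441100)) (.sR 672 (.leaf 0x4400c00008060090307c0ef7b97441100) (.leaf 0x4401000024060090387c03ac197441100)))) (.sR 768 (.leaf 0x4401400028060000407c04a9d97441100) (.sR 816 (.leaf 0x4481400048060000400000000d043d104) (.leaf 0x3e03c0004c06000090b928375713e1100)))) (.sR 960 (.sR 912 (.leaf 0x4204400010060000a0a54211f4b421100) (.leaf 0x4a04800050060000a89d46dc3714a1100)) (.sR 1008 (.leaf 0x4c04c000d0060000b0998bdda974c1100) (.sR 1056 (.leaf 0x4c0500008c060000b896136c6974c1100) (.leaf 0x4605000094060000b89a2fc4071461100)))))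 (.sR 1344 (.sR 1200 (.sR 1152 (.leaf 0x4a054000d4060000c095c002e714a1100) (.leaf 0x4a05800030060000c8925b6b0714a1100)) (.sR 1248 (.leaf 0x5005c0005c060000d08d4605071501100) (.sR 1296 (.leaf 0x4805c00060060000d0924d1cb71481100) (.leaf 0x4a06000098060000d88ac4400974a1100)))) (.sR 1488 (.sR 1392 (.leaf 0x4c06400064060000e0869e56a974c1100) (.sR 1440 (.leaf 0x4e0680009c060000e88272e36974e1100) (.leaf 0x4a068000a0060000e88326c11974a1100))) (.sR 1536 (.sg 84 (.leaf 0x4c06c00034060080f07f00ba9974c1100) (.leaf 0x4c06c00034060090f07f00ba9974c1100)) (.sR 1584 (.leaf 0x4c068000a4060000e879f4f50974c1100) (.sg 84 (.sR 1680 (.sR 1632 (.leaf 0x4e07000068060080f876a3f2b974e1100) (.leaf 0x4e070000a8060080f87284935974e1100)) (.sR 1728 (.leaf 0x4c070000ac060080f86f2e56d974c1100) (.sr 1344 (.sR 1776 (.sR 1752 (.leaf 0x3a0840001406010120b0e0e2a253a1080) (.leaf 0x380880001806010128a9a644b4b381080)) (.sR 2088 (.sg 82 (.sR 1920 (.sR 1848 (.sR 1800 (.leaf 0x380880000006003128b0f0a0a25381080)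 (.sR 1824 (.leaf 0x3808c0003806003130a91179d25381080) (.leaf 0x3808c0003c06003130acfc7aa25381080))) (.sR 1872 (.leaf 0x3808c0004006003130b0eadea25381080) (.sR 1896 (.leaf 0x380900006c06003138a9089a325381080) (.leaf 0x3808c000b006003130b4d1b9725381080)))) (.sR 1992 (.sR 1944 (.leaf 0x38094000b406003140a514ff725381080) (.sR 1968 (.leaf 0x38094000b806003140a90294b25381080) (.leaf 0x3c098000bc06003148a16a617253c1080))) (.sR 2016 (.leaf 0x38098000dc06003148a50ed8925381080) (.sR 2064 (.sr 1312 (.sR 2040 (.leaf 0x38098000c006014148a8ff61525381080) (.leaf 0x38098000e006014150a51b62725381080)) (.sR 2040 (.leaf 0x38098000c00601d148a8ff61525381080) (.leaf 3))) (.leaf 0x3c09c000e4060031589f2970d4b3c1080))))) (.sR 1824 (.sR 1800 (.leaf 0x380880000006011128b0f0a0a25381080) (.leaf 0x3a08c0003806011130a90d453253a1080)) (.sR 1848 (.leaf 0x3a08c0003c06011130acf8004253a1080) (.sR 1872 (.leaf 0x3c08c0004006011130b0e09ad253c1080) (.leaf 3))))) (.leaf 3))) (.sR 2016 (.sR 1992 (.sg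 82 (.sR 1848 (.sR 1776 (.sR 1752 (.leaf 0x380840001406004120b0e50c325381080) (.leaf 0x380880001806004128a90539f25381080)) (.sR 1800 (.leaf 0x380880000006004128b0f0a0a25381080) (.sR 1824 (.leaf 0x3808c0003806004130a91179d25381080) (.leaf 0x3808c0003c06004130acfc7aa25381080)))) (.sR 1896 (.sR 1872 (.leaf 0x3808c0004006004130b0eadea25381080) (.leaf 0x400900006c06004138a8f186225401080)) (.sR 1920 (.leaf 0x3808c000b006004130b4d1b9725381080) (.sR 1944 (.leaf 0x3a094000b406004140a51033f253a1080) (.sr 1376 (.sR 1968 (.leaf 0x38094000b806016140a90294b25381080) (.leaf 0x3a098000bc06016148a1896be253a1080)) (.leaf 3)))))) (.sR 1752 (.leaf 0x3c084000140601f120b0dc04d253c1080) (.sR 1800 (.sr 1376 (.sR 1776 (.leaf 0x380880001806017128a90539f25381080) (.leaf 0x380880000006017128b0f0a0a25381080)) (.leaf 3)) (.leaf 3)))) (.leaf 3)) (.leaf 3))))) (.sR 1632 (.leaf 0x4e06800068060090e871b8b58974e1100) (.sR 1680 (.leaf 0x4e070000d8060090f87284935974e1100) (.leaf 3))))))))) (.sR 1152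 (.sR 912 (.sR 816 (.sR 768 (.sg 84 (.sR 672 (.sR 624 (.leaf 0x46000000000c0210307c06c7297461200) (.leaf 0x4400c00008060050307c0ef7b97441100)) (.sR 720 (.leaf 0x4401000024060050387c03ac197441100) (.leaf 0x440240002c06005060bc32a0171441100))) (.sR 672 (.sR 624 (.leaf 0x48000000000e0200387820cee97481280) (.leaf 0x4400c000700600d0307c0ef7b97441100)) (.sR 720 (.leaf 0x440100000c0600d0387c03ac197441100) (.leaf 0x43c100002c0600d0380000000d0435104)))) (.leaf 0x440240004406001060a82e54e71441100)) (.sR 864 (.leaf 0x4601c0004c06001050781392897461100) (.leaf 0x4404400010060010a0a5340914b441100))) (.sR 1008 (.sR 960 (.leaf 0x4204400050060010a0ad40a2671421100) (.leaf 0x4a04c00054060010b099db948714a1100)) (.sR 1056 (.leaf 0x4404c0008c060010b0a18c0c771441100) (.sR 1104 (.leaf 0x4204c00094060010b0a5770c697421100) (.leaf 0x4e05400058060010c0950631b4b4e1100))))) (.sR 1344 (.sR 1248 (.sR 1200 (.leaf 0x4a05800030060010c8925b6b0714a1100) (.leaf 0x5005c0005c060010d08d4605071501100))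 (.sR 1296 (.leaf 0x4805c00060060010d0924d1cb71481100) (.leaf 0x4c06000098060010d88a0ab38974c1100))) (.sR 1440 (.sR 1392 (.sg 84 (.leaf 0x4c06400064060050e0869e56a974c1100) (.leaf 0x4c064000640600d0e0869e56a974c1100)) (.leaf 0x520680009c060010e880f842597521100)) (.sR 1488 (.leaf 0x4a068000a0060010e88326c11974a1100) (.sR 1920 (.sg 84 (.sR 1632 (.sR 1536 (.leaf 0x4c06c00034060050f07f00ba9974c1100) (.sR 1584 (.leaf 0x4e070000a4060050f87ad8fb2974e1100) (.leaf 0x4e07000068060050f876a3f2b974e1100))) (.sR 1680 (.leaf 0x4e070000a8060050f87284935974e1100) (.sR 1728 (.leaf 0x4c070000ac060050f86f2e56d974c1100) (.sr 1472 (.sR 1896 (.sg 82 (.sR 1800 (.sR 1752 (.leaf 0x38084000140600b120b0e50c325381080) (.sR 1776 (.leaf 0x3a088000180600b128a9012d1253a1080) (.leaf 0x3a088000000600b128b0ec4eb253a1080))) (.sR 1824 (.leaf 0x3e08c000380600b130a9027cf253e1080) (.sR 1848 (.leaf 0x3808c0003c0600b130ad44eb04b381080) (.sr 1440 (.sR 1872 (.leaf 0x3808c0004006019130b0eadea25381080) (.leaf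 0x3a0900006c06019138a903f75253a1080)) (.leaf 3))))) (.leaf 3)) (.leaf 3)) (.sR 1824 (.sR 1800 (.sg 82 (.sR 1752 (.leaf 0x3a0840001406013120b0e0e2a253a1080) (.sR 1776 (.leaf 0x380880001806013128a9a644b4b381080) (.leaf 0x3c0880000006013128b1281ed4b3c1080))) (.leaf 3)) (.leaf 3)) (.leaf 3)))))) (.sR 1536 (.leaf 0x4a064000340600d0e07e0dd5c974a1100) (.leaf 3))) (.leaf 3)))))))) (.sR 1296 (.sr 1408 (.sR 576 (.leaf 0x440000000008000020781dc2497441180) (.sg 92 (.sR 912 (.sR 720 (.sR 624 (.leaf 0x4200800004060020287c0b82297421100) (.sR 672 (.sr 1344 (.leaf 0x4200c00008060100307c18cdb97421100) (.leaf 0x4400c000080601e0307c0ef7b97441100)) (.leaf 0x4340c0000c060020300000000d042d104))) (.sR 816 (.sR 768 (.leaf 0x4401400028060020407c04a9d97441100) (.leaf 0x4381000048060020380000000e042d104)) (.sR 864 (.leaf 0x420400004c06002098a9661ed71421100) (.leaf 0x4004400010060020a0a582df84b401100)))) (.sR 1104 (.sR 1008 (.sR 960 (.leaf 0x4804800050060020a89dc6a7471481100) (.leaf 0x4e04c00054060020b098fe61e4b4e1100))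 (.sR 1056 (.leaf 0x4c05000088060020b895e7d88714c1100) (.leaf 0x4805000090060020b8998007a4b481100))) (.sR 1200 (.sR 1152 (.leaf 0x4e05400058060020c0950631b4b4e1100) (.leaf 0x4a05800030060020c8925b6b0714a1100)) (.sR 1248 (.leaf 0x5005c0005c060020d08d4605071501100) (.sr 1344 (.leaf 0x4e06000060060100d886a7c29974e1100) (.leaf 3)))))) (.sR 768 (.sR 624 (.leaf 0x42008000040600a0287c0b82297421100) (.sR 672 (.leaf 0x42c08000700600a0280000000d0425104) (.sr 1344 (.sR 720 (.leaf 0x4340c00024060150300000000d042d104) (.leaf 0x43c100002c060150380000000d0435104)) (.sR 720 (.leaf 0x4340c0000c060180300000000d042d104) (.leaf 0x4300c0002c060180300000000e0429104))))) (.sR 864 (.sR 816 (.leaf 0x43810000440600a0380000000e042d104) (.leaf 0x4401c000840600a0507822cbf97441100)) (.sR 912 (.leaf 0x48424000100600a0600000000c0471104) (.leaf 3)))))) (.sR 576 (.leaf 0x46000000000a02202878171e697461280) (.sR 1200 (.sg 92 (.sR 960 (.sR 864 (.sR 816 (.sr 1472 (.sR 672 (.sR 624 (.leaf 0x4200800004060060287c0b82297421100)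 (.sR 648 (.leaf 0x420100001c0600603894220ef71421100) (.leaf 0x420140002006006040a02384c71421100))) (.sR 720 (.leaf 0x4340c0000c060060300000000d042d104) (.sR 768 (.leaf 0x4401400028060060407c04a9d97441100) (.leaf 0x4481400048060060400000000d043d104)))) (.sR 672 (.sR 624 (.leaf 0x48000000000e0230387820cee97481280) (.sR 648 (.leaf 0x420100001c0600e03894220ef71421100) (.leaf 0x42014000200600e040a02384c71421100))) (.sR 720 (.leaf 0x4340c0000c0600e0300000000d042d104) (.sR 768 (.leaf 0x44014000280600e0407c04a9d97441100) (.leaf 0x4403c000440600e090ad09cda4b441100))))) (.leaf 0x4401c00084060070507822cbf97441100)) (.sR 912 (.leaf 0x4404400010060070a0a59861771441100) (.leaf 0x48048000cc060070a89dc6a7471481100))) (.sR 1056 (.sR 1008 (.leaf 0x4a04c00054060070b099db948714a1100) (.leaf 0x4e05000088060070b8955b5d6714e1100)) (.sR 1104 (.leaf 0x4605000090060070b89a2fc4071461100) (.sR 1152 (.leaf 0x4a05400058060070c095c002e714a1100) (.sr 1472 (.leaf 0x4a05800030060060c8925b6b0714a1100)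 (.leaf 3)))))) (.sR 816 (.sr 1472 (.sR 624 (.leaf 0x44008000040600c0287c1b2c297441100) (.sR 696 (.sR 648 (.leaf 0x4400c0001c0600c030843f64871441100) (.sR 672 (.leaf 0x44010000200600c0388c010d497441100) (.leaf 0x44010000740600c03884401b771441100))) (.sR 768 (.sR 744 (.sg 94 (.sR 720 (.leaf 0x4340c00078060120300000000d042d104) (.leaf 0x43c100007c060120380000000c8439104)) (.leaf 3)) (.leaf 0x40038000800600c088b8efe5c4b401100)) (.sR 792 (.sg 94 (.leaf 0x44018000c806012048840b73597441100) (.leaf 3)) (.leaf 3))))) (.sR 768 (.sR 648 (.sR 600 (.leaf 0x46000000000c024030783024397461280) (.sR 624 (.leaf 0x4600c000c40600f0308c1590397461100) (.leaf 0x4400c0001c0600f030840304f97441100))) (.sR 696 (.sR 672 (.leaf 0x4200c000200600f0307c18cdb97421100) (.leaf 0x4340c000740600f0300000000c8431104)) (.sR 744 (.sg 94 (.sR 720 (.leaf 0x4340c000780601a0300000000d042d104) (.leaf 0x4300c0007c0601a0300000000d8429104)) (.leaf 3)) (.leaf 0x40038000800600f088b91efc071401100)))) (.leaf 3)))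 (.leaf 3))) (.leaf 3)))) (.leaf 3))) (.leaf 3)))
theorem k44 : ChunkP 60 61 1280 1536 80 96 480 2484 :=
  chkD_sound (Q := 40) (C := [c647.c, c700.c, c649.c, c637.c, c678.c, c699.c, c690.c, c702.c, c646.c, c648.c, c650.c, c689.c, c692.c, c701.c, c711.c, c713.c, c638.c, c639.c, c691.c, c710.c, c632.c, c640.c, c672.c, c673.c, c681.c, c684.c, c712.c, c663.c, c665.c, c670.c, c679.c, c680.c, c695.c, c696.c, c697.c, c704.c, c705.c])
    (T := [f_w444_450_8_10_30e, f_w144_156_16_10_40e, f_w156_168_16_10_45, f_w168_180_16_10_35e, f_w216_228_16_10_40e, f_w432_438_8_10_25e, f_w438_444_8_10_25e, f_w156_162_16_10_40e, f_w162_168_16_10_35e, f_w168_180_16_10_40, f_w180_192_16_10_35e, f_w180_192_16_10_40, f_w288_300_16_10_30e, f_w372_384_16_10_30e, f_w450_456_8_10_30e, f_w456_462_8_10_30e, f_w462_468_8_10_20e, f_w192_204_16_10_30e, f_w192_204_16_10_40, f_w204_216_16_10_40, f_w228_240_16_10_40, f_w240_252_16_10_35e, f_w276_288_16_10_30e, f_w300_312_16_10_30e, f_w312_324_16_10_35e,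 f_w336_348_16_10_35, f_w396_408_16_10_30, f_w468_474_8_5_20e, f_w156_168_16_10_40e, f_w168_174_16_10_45e, f_w174_180_16_15_45e, f_w180_186_16_15_45e, f_w186_192_16_10_45f, f_w204_216_16_10_30e, f_w252_264_16_10_35e, f_w252_264_16_15_40, f_w264_276_16_10_30e, f_w264_276_16_15_40, f_w324_336_16_10_35e, f_w348_360_16_10_30e, f_w360_372_16_10_25e, f_w384_396_16_5_20e, f_w408_420_16_10_30, f_w420_432_16_15_30, f_w474_480_8_10_20e, f_w480_486_8_10_20e, f_w486_492_8_5_20e, f_w492_498_8_10_20e, f_w504_510_8_5_15e, f_w150_156_16_10_35f, f_w192_198_16_15_50e, f_w228_240_16_10_35e, f_w240_252_16_15_45, f_w276_288_16_15_40, f_w408_420_16_5_20e, f_w498_504_8_10_20e, f_w510_516_8_5_15e, f_w516_522_8_10_15e]) (t := t44)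
    (all_cons p647 (all_cons p700 (all_cons p649 (all_cons p637 (all_cons p678 (all_cons p699 (all_cons p690 (all_cons p702 (all_cons p646 (all_cons p648 (all_cons p650 (all_cons p689 (all_cons p692 (all_cons p701 (all_cons p711 (all_cons p713 (all_cons p638 (all_cons p639 (all_cons p691 (all_cons p710 (all_cons p632 (all_cons p640 (all_cons p672 (all_cons p673 (all_cons p681 (all_cons p684 (all_cons p712 (all_cons p663 (all_cons p665 (all_cons p670 (all_cons p679 (all_cons p680 (all_cons p695 (all_cons p696 (all_cons p697 (all_cons p704 (all_cons p705 all_nil))))))))))))))))))))))))))))))))))))) (all_cons f_w444_450_8_10_30e_p (all_cons f_w144_156_16_10_40e_p (all_cons f_w156_168_16_10_45_p (all_cons f_w168_180_16_10_35e_p (all_cons f_w216_228_16_10_40e_p (all_cons f_w432_438_8_10_25e_p (all_cons f_w438_444_8_10_25e_p (all_cons f_w156_162_16_10_40e_p (all_cons f_w162_168_16_10_35e_p (all_cons f_w168_180_16_10_40_p (all_cons f_w180_192_16_10_35e_p (all_cons f_w180_192_16_10_40_p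 (all_cons f_w288_300_16_10_30e_p (all_cons f_w372_384_16_10_30e_p (all_cons f_w450_456_8_10_30e_p (all_cons f_w456_462_8_10_30e_p (all_cons f_w462_468_8_10_20e_p (all_cons f_w192_204_16_10_30e_p (all_cons f_w192_204_16_10_40_p (all_cons f_w204_216_16_10_40_p (all_cons f_w228_240_16_10_40_p (all_cons f_w240_252_16_10_35e_p (all_cons f_w276_288_16_10_30e_p (all_cons f_w300_312_16_10_30e_p (all_cons f_w312_324_16_10_35e_p (all_cons f_w336_348_16_10_35_p (all_cons f_w396_408_16_10_30_p (all_cons f_w468_474_8_5_20e_p (all_cons f_w156_168_16_10_40e_p (all_cons f_w168_174_16_10_45e_p (all_cons f_w174_180_16_15_45e_p (all_cons f_w180_186_16_15_45e_p (all_cons f_w186_192_16_10_45f_p (all_cons f_w204_216_16_10_30e_p (all_cons f_w252_264_16_10_35e_p (all_cons f_w252_264_16_15_40_p (all_cons f_w264_276_16_10_30e_p (all_cons f_w264_276_16_15_40_p (all_cons f_w324_336_16_10_35e_p (all_cons f_w348_360_16_10_30e_p (all_cons f_w360_372_16_10_25e_p (all_cons f_w384_396_16_5_20e_p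 (all_cons f_w408_420_16_10_30_p (all_cons f_w420_432_16_15_30_p (all_cons f_w474_480_8_10_20e_p (all_cons f_w480_486_8_10_20e_p (all_cons f_w486_492_8_5_20e_p (all_cons f_w492_498_8_10_20e_p (all_cons f_w504_510_8_5_15e_p (all_cons f_w150_156_16_10_35f_p (all_cons f_w192_198_16_15_50e_p (all_cons f_w228_240_16_10_35e_p (all_cons f_w240_252_16_15_45_p (all_cons f_w276_288_16_15_40_p (all_cons f_w408_420_16_5_20e_p (all_cons f_w498_504_8_10_20e_p (all_cons f_w510_516_8_5_15e_p (all_cons f_w516_522_8_10_15e_p all_nil))))))))))))))))))))))))))))))))))))))))))))))))))))))))))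
    (by decide +kernel)
def t45 : Tree := (.sR 432 (.leaf 0x480000000006002018a47ba774b481000) (.sR 624 (.sr 1280 (.sR 576 (.leaf 0x440000000008000020781dc2497441180) (.leaf 0x4240400000060010200000000d041d104)) (.sR 480 (.leaf 0x3e00000000040030107c12095973e0f00) (.leaf 3))) (.leaf 3)))
theorem k45 : ChunkP 60 61 1024 1536 96 101 0 2484 :=
  chkD_sound (Q := 40) (C := [c526.c, c527.c, c541.c, c669.c])
    (T := [f_w144_156_16_10_40e]) (t := t45)
    (all_cons p526 (all_cons p527 (all_cons p541 (all_cons p669 all_nil)))) (all_cons f_w144_156_16_10_40e_p all_nil)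
    (by decide +kernel)
def t46 : Tree := (.sg 32 (.sg 16 (.sR 1632 (.sR 1200 (.sR 960 (.sR 576 (.sR 336 (.leaf 0x400000000006001018d4590f400400f00) (.leaf 0x4000000000120020490c2606800401000)) (.sR 864 (.leaf 0x3e0000000018002060b4174964b3e1000) (.leaf 0x42000000001a007068981c21371421080))) (.sR 1056 (.sR 1008 (.sr 1792 (.leaf 0x400000000018008060780dd7f97401000) (.leaf 0x3a000000001c010070980d358713a0f80)) (.leaf 0x38010000cc18002080b83e5054b381000)) (.sR 1104 (.leaf 0x3a0300c0040c007090c067c3a253a1080) (.sR 1152 (.leaf 0x3a0340c0080e0070a0d851a4a253a1080) (.leaf 0x3803c0c00c0e0020b1500393925381000))))) (.sR 1392 (.sR 1296 (.sR 1248 (.leaf 0x3803c0c0100c0070a8c079fc225381080) (.leaf 0x380400c0140e0020b9140c31825381000)) (.sR 1344 (.leaf 0x380440c0180e0020c1140b3fd25381000) (.leaf 0x380500c01c0c0070d0dc65fa525381080))) (.sR 1488 (.sR 1440 (.leaf 0x380440c0200e0020c0c844cb225381000) (.leaf 0x38050080240c0020d0f01cc1625381000)) (.sR 1536 (.leaf 0x3806c080280a002100f45e27d25381000)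 (.sR 1584 (.leaf 0x380700802c0a002108f061b6325381000) (.leaf 0x38074080300a002110f06553425381000)))))) (.sR 2064 (.sR 1824 (.sR 1728 (.sR 1680 (.leaf 0x38060040340c0020f0f81621425381000) (.leaf 0x3807c080380a002120e86cb9625381000)) (.sR 1776 (.leaf 0x380640403c0c0020f8d8320d625381000) (.leaf 0x38084080400a002130e4745a125381000))) (.sR 1920 (.sR 1872 (.leaf 0x38084040440a0021311040b9d25381000) (.leaf 0x3806c0c0480c002108bc5744025381000)) (.sR 1968 (.leaf 0x400900404c08002141082800200401000) (.sR 2016 (.leaf 0x380740c0500c002118c050dd725381000) (.leaf 0x3807c0c0540c002128e4247a525381000))))) (.sR 2256 (.sR 2160 (.sR 2112 (.leaf 0x4008c040580a002141600a00200401000) (.leaf 0x380a00405c08002160fc68e3f4b381000)) (.sR 2208 (.leaf 0x3807c040600c002128951207e25381000) (.leaf 0x38084040640c002138ac770a125381000))) (.sR 2352 (.sR 2304 (.leaf 0x38084040a80c00213898b6a2625381000) (.leaf 0x3808c040b00c002148b06f8fb25381000)) (.sR 2400 (.leaf 0x38088040b80c00214089bacfc4b381000)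 (.sR 2448 (.leaf 0x38094040c00c002158b46852325381000) (.leaf 0x380bc040c408002198e89a9fd71381000))))))) (.sR 1584 (.sR 1152 (.sR 720 (.sR 528 (.sR 336 (.leaf 0x400000000006006018d85331100400f80) (.leaf 0x5000000000100050410418b6a25501080)) (.sR 624 (.leaf 0x440000000014005051040959025441080) (.leaf 0x480000000016005058e002f594b481080))) (.sR 1008 (.sR 768 (.leaf 0x460000000016005058c401cf74b461080) (.sr 1792 (.sR 912 (.leaf 0x42000000001800c0609817a7471421080) (.sR 960 (.leaf 0x46000000001a0080688415c5897461100) (.leaf 0x460200c0000c008070845378071461100))) (.leaf 0x40000000001a0110688c22f3a71401000))) (.sR 1056 (.leaf 0x3a030080740a001088d829ffd253a1000) (.sR 1104 (.leaf 0x3a03c0400408005098d84dbd3253a1080) (.leaf 0x38040040080a0050a8ec5cbed4b381080))))) (.sR 1344 (.sR 1248 (.sR 1200 (.leaf 0x380440400c0a0010b1500393925381000) (.leaf 0x3804404010080050a8c079fc225381080)) (.sR 1296 (.leaf 0x38048040140a0010b9140c31825381000) (.leaf 0x3804c040180a0010c1140b3fd25381000)))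 (.sR 1440 (.sR 1392 (.leaf 0x3805c0401c080050d8e07270025381080) (.leaf 0x3804c040200a0010c0c844cb225381000)) (.sR 1488 (.leaf 0x38054040240a0010d0f01cc1625381000) (.sR 1536 (.leaf 0x380740002806001100f45e27d25381000) (.leaf 0x380780002c06001108f061b6325381000)))))) (.sR 2016 (.sR 1776 (.sR 1680 (.sR 1632 (.leaf 0x3807c0003006001110f06553425381000) (.leaf 0x38064000340a0010f0f81621425381000)) (.sR 1728 (.leaf 0x380840003806001120e86cb9625381000) (.leaf 0x380680003c0a0010f8d8320d625381000))) (.sR 1872 (.sR 1824 (.leaf 0x3808c0004006001130e4745a125381000) (.leaf 0x3808800044080011311040b9d25381000)) (.sR 1920 (.leaf 0x380780404808001110dc2af8b25381000) (.sR 1968 (.leaf 0x380940004c060011410846dd725381000) (.leaf 0x3807c0405008001118c050dd725381000))))) (.sR 2256 (.sR 2112 (.sR 2064 (.leaf 0x380840405408001128e4247a525381000) (.leaf 0x400900005808001141600a00200401000)) (.sR 2160 (.leaf 0x380a40005c06001160fc68e3f4b381000) (.sR 2208 (.leaf 0x38080000600a001128951207e25381000)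 (.leaf 0x3808c000640a001140cc41edd25381000)))) (.sR 2352 (.sR 2304 (.leaf 0x38088000a80a00113898b6a2625381000) (.leaf 0x38090000b00a001148b06f8fb25381000)) (.sR 2400 (.leaf 0x3808c000b80a00114089bacfc4b381000) (.sR 2448 (.leaf 0x38098000c00a001158b46852325381000) (.leaf 0x380c0000c406001198e89a9fd71381000)))))))) (.sg 48 (.sR 1584 (.sR 1104 (.sR 864 (.sR 480 (.sR 336 (.leaf 0x5e000000000600f018d8986b94b5e0f80) (.leaf 0x4c000000000e001038ec11998254c1100)) (.sR 576 (.leaf 0x4e0000000012001048e0074aa4b4e1100) (.sr 1792 (.sR 768 (.leaf 0x4800000000140090509c1358d71481100) (.sR 816 (.leaf 0x4800000000160090589801c8871481100) (.leaf 0x46018080680a009058882d5f771461100))) (.leaf 0x46000000001600a058941ea9471461080)))) (.sR 960 (.sR 912 (.leaf 0x460240406c0800106894261a071461100) (.leaf 0x460240407008001068844536971461100)) (.sR 1008 (.leaf 0x460280400008001070845378071461100) (.sR 1056 (.leaf 0x3e0380007406000088d802d6e4b3e1000) (.leaf 0x3804400004060060a0f04594f25381080)))))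 (.sR 1344 (.sR 1200 (.sR 1152 (.leaf 0x3e04400008080060a8ec3a7a8253e1080) (.leaf 0x3e0480000c080000b15000415253e1000)) (.sR 1248 (.leaf 0x3804c00010060060b0d460e6925381080) (.sR 1296 (.leaf 0x3a04c00014080000b91408643253a1000) (.leaf 0x3805000018080000c1140b3fd25381000)))) (.sR 1440 (.sR 1392 (.leaf 0x3a0680001c060060e8c0bf3b1253a1080) (.leaf 0x3a05400020080000c8ec19522253a1000)) (.sR 1488 (.leaf 0x3805800024080000d0f01cc1625381000) (.sR 1536 (.leaf 0x380740002806000100f45e27d25381000) (.leaf 0x380780002c06000108f061b6325381000)))))) (.sR 2016 (.sR 1776 (.sR 1680 (.sR 1632 (.leaf 0x3807c0003006000110f06553425381000) (.leaf 0x38064000340a0000f0f81621425381000)) (.sR 1728 (.leaf 0x380840003806000120e86cb9625381000) (.leaf 0x3a0680003c0a0000f8d82c633253a1000))) (.sR 1872 (.sR 1824 (.leaf 0x3808c0004006000130e4745a125381000) (.leaf 0x3808800044080001311040b9d25381000)) (.sR 1920 (.leaf 0x3807c0004806000110dc2af8b25381000) (.sR 1968 (.leaf 0x380940004c060001410846dd725381000)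 (.leaf 0x380800005006000118c050dd725381000))))) (.sR 2256 (.sR 2112 (.sR 2064 (.leaf 0x380880005406000128e4247a525381000) (.leaf 0x3809000058080001416002a6a25381000)) (.sR 2160 (.leaf 0x380a40005c06000160fc68e3f4b381000) (.sR 2208 (.leaf 0x38080000600a00012894930434b381000) (.leaf 0x3e08c000640a000140cc3431a253e1000)))) (.sR 2352 (.sR 2304 (.leaf 0x380b00010806000178f48245471381000) (.leaf 0x380b40010c06000180f0883bd71381000)) (.sR 2400 (.leaf 0x380b80011006000188f08e47f71381000) (.sR 2448 (.leaf 0x380b000114060001799801c4771381000) (.leaf 0x3c08c001200a0001406e3efed973c1000))))))) (.sR 1152 (.sR 864 (.sR 480 (.sR 384 (.leaf 0x5a0000000008006020cc7e5214b5a1180) (.leaf 0x4a000000000c006030c0069894b4a1180)) (.sR 528 (.leaf 0x4e0000000010001040b016e674b4e1200) (.sR 816 (.sr 1792 (.sR 624 (.leaf 0x4a000000001000d040a005a92714a1180) (.sR 768 (.sg 56 (.leaf 0x46000000001200b0488c0761f97461100) (.leaf 0x48000000001200b0487c0ef8797481180)) (.leaf 0x4601c000c80600e0508825aca71461100)))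 (.sR 768 (.leaf 0x4e000000001600a058943e763714e1180) (.leaf 0x48000000001400a0507c079e097481180))) (.leaf 0x480200006806000058880b29e97481100)))) (.sR 1008 (.sR 912 (.leaf 0x4402c0006c06000070a44867f71441100) (.sR 960 (.leaf 0x4202c00070060000709476c4c71421100) (.leaf 0x4803000000060000789070d504b481100))) (.sR 1056 (.leaf 0x48038000d0060000889c63f0d4b481100) (.sR 1104 (.leaf 0x4203c000d40600009098b249e4b421100) (.leaf 0x40044000d8060000a09cd97a54b401100))))) (.sR 1440 (.sR 1296 (.sR 1200 (.leaf 0x49c38000dc060000880000000c8489104) (.sR 1248 (.leaf 0x4803c000e006000090711bbc797481100) (.leaf 0x44044000e4060000a079aff8897441100))) (.sR 1344 (.leaf 0x46048000e8060000a875abef597461100) (.sR 1392 (.leaf 0x4a048000ec060000a86dc27af974a1100) (.leaf 0x46058000f0060000c881ea94997461100)))) (.sR 1584 (.sR 1488 (.leaf 0x48060000f4060000d8822710797481100) (.sR 1536 (.leaf 0x5006c000f8060000f07d8362497501100) (.leaf 0x4c06c000fc060000f07ac3494974c1100))) (.sR 1632 (.leaf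 0x4c06c00100060000f076978a9974c1100) (.sR 1680 (.leaf 0x4c06c00104060000f07286c3f974c1100) (.sr 1792 (.sR 2064 (.sR 1872 (.sR 1776 (.sR 1728 (.leaf 0x3c06800078080030f0a4b5501253c1080) (.leaf 0x380880007c06003128a52aa0825381080)) (.sR 1824 (.leaf 0x3a0740008008003108b0afb9c253a1080) (.leaf 0x380880008408003130acfc7aa25381080))) (.sR 1968 (.sR 1920 (.leaf 0x380900008806003138a9089a325381080) (.leaf 0x380900008c08003140a514ff725381080)) (.sR 2016 (.leaf 0x3a0980009006003148a1896be253a1080) (.leaf 0x3a09c0009406003150a1a669c253a1080)))) (.sR 2256 (.sR 2160 (.sR 2112 (.leaf 0x4209800098080031589db056025421080) (.leaf 0x420a00009c080031609af0b274b421080)) (.sR 2208 (.leaf 0x460a4000a00800316896e017e4b461080) (.leaf 0x460a8000a40800317096f98244b461080))) (.sR 2352 (.sR 2304 (.leaf 0x4a0ac000ac0800317892f6fb3714a1080) (.leaf 0x440ac000b4080031789abbfae71441080)) (.sR 2400 (.leaf 0x3e0a8000bc080031789eef418713e1080) (.sR 2448 (.leaf 0x3e0b00011c060031789ad43ae713e1080)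 (.leaf 0x3e0b0001280600317896c9a02713e1080)))))) (.sR 2064 (.sR 1872 (.sR 1776 (.sR 1728 (.leaf 0x3a06400078080040e895192d14b3a1080) (.leaf 0x380880007c06004128a52aa0825381080)) (.sR 1824 (.leaf 0x440700008008004100a09a50a25441080) (.leaf 0x380880008408004130acfc7aa25381080))) (.sR 1968 (.sR 1920 (.leaf 0x380900008806004138a9089a325381080) (.leaf 0x380900008c08004140a514ff725381080)) (.sR 2016 (.leaf 0x3a0980009006004148a1896be253a1080) (.leaf 0x3a09c0009406004150a1a669c253a1080)))) (.sR 2256 (.sR 2160 (.sR 2112 (.leaf 0x4209800098080041589db056025421080) (.leaf 0x420a00009c080041609af0b274b421080)) (.sR 2208 (.leaf 0x460a4000a00800416896e017e4b461080) (.leaf 0x460a8000a40800417096f98244b461080))) (.sR 2352 (.sR 2304 (.leaf 0x4a0ac000ac0800417892f6fb3714a1080) (.leaf 0x440ac000b4080041789abbfae71441080)) (.sR 2400 (.leaf 0x3e0a8000bc080041789eef418713e1080) (.sR 2448 (.leaf 0x3e0a8001180a0041789ad43ae713e1080) (.leaf 0x3e0a8001240a00417896c9a02713e1080))))))))))))))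
theorem k46 : ChunkP 60 61 1536 2048 0 64 0 2484 :=
  chkD_sound (Q := 40) (C := [c745.c, c743.c, c741.c, c736.c, c805.c, c742.c, c744.c, c740.c, c728.c, c730.c, c802.c, c732.c, c729.c, c731.c, c734.c, c746.c, c800.c, c801.c])
    (T := [f_w240_252_16_15_45, f_w264_276_8_40_30, f_w276_288_8_50_40, f_w288_300_0_5_0, f_w300_312_8_30_50, f_w312_324_0_5_0, f_w324_336_0_5_0, f_w336_348_8_40_40, f_w348_360_0_5_0, f_w360_372_0_5_0, f_w372_384_0_40_30, f_w384_396_0_40_30, f_w396_408_0_40_30, f_w408_420_0_5_0, f_w420_432_0_40_30, f_w432_444_0_5_0, f_w444_456_0_40_30, f_w456_468_0_30_30, f_w468_480_0_5_0e, f_w480_492_0_40_20, f_w492_504_0_5_0e, f_w504_516_0_5_0e, f_w516_528_0_20_30, f_w528_540_0_40_30, f_w540_552_0_5_0, f_w552_564_0_5_0, f_w204_216_16_10_30e, f_w216_228_16_20_40, f_w228_240_16_20_55, f_w252_264_0_10_20e, f_w420_432_8_5_20, f_w432_444_8_20_40, f_w444_456_8_5_20, f_w456_468_8_10_30, f_w468_480_8_20_35, f_w480_492_8_10_20, f_w492_504_8_20_30, f_w504_516_8_20_30,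 f_w516_528_8_10_20, f_w528_540_8_10_20, f_w540_552_8_15_30, f_w552_564_8_15_30, f_w564_576_0_5_0, f_w564_576_8_10_20, f_w576_588_0_5_0, f_w576_588_8_10_25, f_w588_600_0_5_0, f_w588_600_8_10_20, f_w600_612_0_5_0, f_w612_624_0_40_20, f_w192_204_16_10_40, f_w252_264_0_35_70d, f_w252_264_16_15_40, f_w264_276_16_15_40, f_w276_288_16_15_40, f_w288_300_16_15_45, f_w300_312_16_15_40, f_w312_324_16_20_45, f_w324_336_16_15_40, f_w336_348_16_10_35, f_w348_360_16_15_35, f_w360_372_16_15_35, f_w372_384_16_20_45, f_w384_396_16_20_45, f_w396_408_16_10_30, f_w408_420_16_10_30, f_w564_576_0_30_20, f_w576_588_0_40_10, f_w588_600_0_40_20, f_w600_612_0_10_10e, f_w600_612_8_10_20, f_w600_612_8_20_20, f_w612_624_0_5_15, f_w612_624_8_10_15, f_w612_624_8_20_20]) (t := t46)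
    (all_cons p745 (all_cons p743 (all_cons p741 (all_cons p736 (all_cons p805 (all_cons p742 (all_cons p744 (all_cons p740 (all_cons p728 (all_cons p730 (all_cons p802 (all_cons p732 (all_cons p729 (all_cons p731 (all_cons p734 (all_cons p746 (all_cons p800 (all_cons p801 all_nil)))))))))))))))))) (all_cons f_w240_252_16_15_45_p (all_cons f_w264_276_8_40_30_p (all_cons f_w276_288_8_50_40_p (all_cons f_w288_300_0_5_0_p (all_cons f_w300_312_8_30_50_p (all_cons f_w312_324_0_5_0_p (all_cons f_w324_336_0_5_0_p (all_cons f_w336_348_8_40_40_p (all_cons f_w348_360_0_5_0_p (all_cons f_w360_372_0_5_0_p (all_cons f_w372_384_0_40_30_p (all_cons f_w384_396_0_40_30_p (all_cons f_w396_408_0_40_30_p (all_cons f_w408_420_0_5_0_p (all_cons f_w420_432_0_40_30_p (all_cons f_w432_444_0_5_0_p (all_cons f_w444_456_0_40_30_p (all_cons f_w456_468_0_30_30_p (all_cons f_w468_480_0_5_0e_p (all_cons f_w480_492_0_40_20_p (all_cons f_w492_504_0_5_0e_p (all_cons f_w504_516_0_5_0e_p (all_cons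 f_w516_528_0_20_30_p (all_cons f_w528_540_0_40_30_p (all_cons f_w540_552_0_5_0_p (all_cons f_w552_564_0_5_0_p (all_cons f_w204_216_16_10_30e_p (all_cons f_w216_228_16_20_40_p (all_cons f_w228_240_16_20_55_p (all_cons f_w252_264_0_10_20e_p (all_cons f_w420_432_8_5_20_p (all_cons f_w432_444_8_20_40_p (all_cons f_w444_456_8_5_20_p (all_cons f_w456_468_8_10_30_p (all_cons f_w468_480_8_20_35_p (all_cons f_w480_492_8_10_20_p (all_cons f_w492_504_8_20_30_p (all_cons f_w504_516_8_20_30_p (all_cons f_w516_528_8_10_20_p (all_cons f_w528_540_8_10_20_p (all_cons f_w540_552_8_15_30_p (all_cons f_w552_564_8_15_30_p (all_cons f_w564_576_0_5_0_p (all_cons f_w564_576_8_10_20_p (all_cons f_w576_588_0_5_0_p (all_cons f_w576_588_8_10_25_p (all_cons f_w588_600_0_5_0_p (all_cons f_w588_600_8_10_20_p (all_cons f_w600_612_0_5_0_p (all_cons f_w612_624_0_40_20_p (all_cons f_w192_204_16_10_40_p (all_cons f_w252_264_0_35_70d_p (all_cons f_w252_264_16_15_40_p (all_cons f_w264_276_16_15_40_p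 (all_cons f_w276_288_16_15_40_p (all_cons f_w288_300_16_15_45_p (all_cons f_w300_312_16_15_40_p (all_cons f_w312_324_16_20_45_p (all_cons f_w324_336_16_15_40_p (all_cons f_w336_348_16_10_35_p (all_cons f_w348_360_16_15_35_p (all_cons f_w360_372_16_15_35_p (all_cons f_w372_384_16_20_45_p (all_cons f_w384_396_16_20_45_p (all_cons f_w396_408_16_10_30_p (all_cons f_w408_420_16_10_30_p (all_cons f_w564_576_0_30_20_p (all_cons f_w576_588_0_40_10_p (all_cons f_w588_600_0_40_20_p (all_cons f_w600_612_0_10_10e_p (all_cons f_w600_612_8_10_20_p (all_cons f_w600_612_8_20_20_p (all_cons f_w612_624_0_5_15_p (all_cons f_w612_624_8_10_15_p (all_cons f_w612_624_8_20_20_p all_nil)))))))))))))))))))))))))))))))))))))))))))))))))))))))))))))))))))))))))))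
    (by decide +kernel)
def t47 : Tree := (.sR 480 (.sR 384 (.leaf 0x4a000000000401b010a47e7b14b4a1000) (.leaf 0x4a000000000a0130289816bbb714a1280)) (.sR 528 (.leaf 0x4c000000000e0130389405cd6714c1280) (.sr 1792 (.sR 1152 (.sR 960 (.sR 864 (.sg 72 (.sR 720 (.sR 672 (.leaf 0x48000000000e019038782144f97481200) (.leaf 0x4800000000120180487c2a34397481200)) (.sR 768 (.leaf 0x4401c000400600b0509c1e66771441100) (.sR 816 (.leaf 0x440240001c0600b060a8455954b441100) (.leaf 0x40028000440600b068a878acd4b401100)))) (.sR 768 (.sR 672 (.leaf 0x48000000000e01a038782144f97481200) (.sr 1664 (.sR 720 (.leaf 0x46018000c4060070489c02cce97461100) (.leaf 0x460200004006007058ac296864b461100)) (.sR 720 (.leaf 0x48000000001201e0487c2a34397481200) (.leaf 0x460200004006008058ac296864b461100)))) (.sR 816 (.leaf 0x4601c0001c0600105088024d197461100) (.leaf 0x4602c0004406001070b43c2684b461100)))) (.sR 912 (.leaf 0x44024000cc06003060882d99597441100) (.leaf 0x42030000d006003078a0754c471421100)))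 (.sR 1056 (.sR 1008 (.leaf 0x480380004806003088a84927571481100) (.leaf 0x400440004c060030a0ad039ce71401100)) (.sR 1104 (.leaf 0x4004c00050060030b0a559c1171401100) (.leaf 0x4605000094060030b89d04ede4b461100)))) (.sR 1344 (.sR 1248 (.sR 1200 (.leaf 0x4204400098060030a090d68a071421100) (.leaf 0x4a0580009c060030c895204cb714a1100)) (.sR 1296 (.leaf 0x4a05c000e8060030d091bdd7c714a1100) (.leaf 0x4c060000a0060030d88a0ab38974c1100))) (.sR 1440 (.sR 1392 (.leaf 0x50064000a4060030e085244ea97501100) (.leaf 0x4a06400054060030e0868b431974a1100)) (.sR 1488 (.leaf 0x5006800058060030e880ed7a497501100) (.sg 72 (.sR 1824 (.sR 1632 (.sR 1536 (.leaf 0x4c06c000200600b0f07f00ba9974c1100) (.sR 1584 (.leaf 0x4e070000240600b0f87ad8fb2974e1100) (.leaf 0x4e070000280600b0f876a3f2b974e1100))) (.sR 1728 (.sR 1680 (.leaf 0x3c080000ac06001118acfcfb7253c1080) (.leaf 0x3a084000fc06001120a9af2734b3a1080)) (.sR 1776 (.leaf 0x3c0880000006001128a514cc1253c1080) (.leaf 0x4208c0000406001130a131a9a25421080))))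 (.sR 2016 (.sR 1920 (.sR 1872 (.sr 1664 (.leaf 0x3808c0003006007130acfc7aa25381080) (.leaf 0x3a0880006808008130acf8004253a1080)) (.leaf 0x3a0900000806001138a903f75253a1080)) (.sR 1968 (.leaf 0x3a0940001406001140a51033f253a1080) (.leaf 0x400980000c06001148a121aab25401080))) (.sR 2112 (.sR 2064 (.leaf 0x4209c0001006001150a1148de25421080) (.sr 1664 (.leaf 0x420a000018060071589db056025421080) (.leaf 0x42098000c0080081589e55d054b421080))) (.sR 2160 (.leaf 0x420a400038060011609af0b274b421080) (.sr 1664 (.sR 2304 (.sR 2208 (.leaf 0x460a4000740600716896e017e4b461080) (.sR 2256 (.leaf 0x460ac0007c0600717096f98244b461080) (.leaf 0x4a0b0000800600717892f6fb3714a1080))) (.sR 2400 (.sR 2352 (.leaf 0x440b000084060071789abbfae71441080) (.leaf 0x3e0b00003c060071789eef418713e1080)) (.sR 2448 (.leaf 0x3e0b000088060071789ad43ae713e1080) (.leaf 0x3e0b00008c0600717896c9a02713e1080)))) (.sR 2304 (.sR 2208 (.leaf 0x460a4000700800816896e017e4b461080) (.sR 2256 (.leaf 0x460a8000780800817096f98244b461080)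 (.leaf 0x4a0b0000800600817892f6fb3714a1080))) (.sR 2400 (.sR 2352 (.leaf 0x440b000084060081789abbfae71441080) (.leaf 0x3e0b00003c060081789eef418713e1080)) (.sR 2448 (.leaf 0x3e0b000088060081789ad43ae713e1080) (.leaf 0x3e0b00008c0600817896c9a02713e1080))))))))) (.sR 1632 (.sR 1536 (.leaf 0x4c06c00020060010f07f00ba9974c1100) (.sR 1584 (.leaf 0x4c06c00024060010f07ac3494974c1100) (.leaf 0x4e07000028060010f876a3f2b974e1100))) (.sR 1728 (.sR 1680 (.leaf 0x4e070000a8060010f87284935974e1100) (.leaf 0x4c0700005c060010f86f2e56d974c1100)) (.sR 2400 (.sr 1664 (.sg 76 (.sR 2064 (.sR 1872 (.sR 1776 (.leaf 0x3a0880000006004128a5196c5253a1080) (.sR 1824 (.leaf 0x4008c0000406004130a15708425401080) (.leaf 0x3808c000b006004130acfc7aa25381080))) (.sR 1968 (.sR 1920 (.leaf 0x380900000806004138a9089a325381080) (.leaf 0x380940001406004140a514ff725381080)) (.sR 2016 (.leaf 0x3c0980000c06004148a16a617253c1080) (.leaf 0x3e09c0001006004150a164127253e1080)))) (.sR 2208 (.sR 2112 (.sr 1600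 (.leaf 0x420a000120060121589db056025421080) (.leaf 0x460a000018060141589d56b2a25461080)) (.sR 2160 (.leaf 0x420a400038060041609af0b274b421080) (.leaf 0x460a4000740600416896e017e4b461080))) (.sR 2304 (.sR 2256 (.sr 1600 (.leaf 0x460ac0007c0601217096f98244b461080) (.leaf 0x460ac0007c0601417096f98244b461080)) (.leaf 0x4a0b0001280600417892f6fb3714a1080)) (.sR 2352 (.leaf 0x440b000130060041789abbfae71441080) (.leaf 0x3e0b000138060041789eef418713e1080))))) (.sR 2064 (.sr 1600 (.sR 1776 (.leaf 0x3a0880002c0600a128a5196c5253a1080) (.sR 1824 (.leaf 0x4208c000600600a130a131a9a25421080) (.sR 1920 (.sR 1872 (.sR 1848 (.leaf 0x3808c000640600a130acfc7aa25381080) (.leaf 0x3808c0006c0600a130b0eadea25381080)) (.sR 1896 (.sg 78 (.leaf 0x38090000340600e138a9089a325381080) (.leaf 0x3a0900003406017138a903f75253a1080)) (.leaf 0x3808c000b40600a130b4d1b9725381080))) (.sR 1968 (.sR 1944 (.leaf 0x3a094000b80600a140a51033f253a1080) (.sg 78 (.leaf 0x38094000bc0600e140a90294b25381080) (.leaf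 3))) (.sR 1992 (.leaf 0x40098001100600a148a121aab25401080) (.sR 2016 (.leaf 0x38098001140600a148a613a574b381080) (.sg 78 (.sR 2040 (.leaf 0x38098001180600e148a8ff61525381080) (.leaf 0x380980011c0600e150a51b62725381080)) (.leaf 3)))))))) (.sR 1824 (.sR 1776 (.leaf 0x3c0880002c0600c128a514cc1253c1080) (.leaf 0x4408c000600600c130a10953a25441080)) (.sR 1968 (.sR 1896 (.sR 1848 (.leaf 0x3808c000640600c130acfc7aa25381080) (.sR 1872 (.leaf 0x3808c0006c0600c130b0eadea25381080) (.sg 78 (.leaf 0x380900003406015138a9089a325381080) (.leaf 3)))) (.sR 1920 (.leaf 0x3808c000b40600c130b4d1b9725381080) (.sR 1944 (.leaf 0x3c094000b80600c140a50a9ca253c1080) (.sg 78 (.leaf 0x38094000bc06015140a90294b25381080) (.leaf 3))))) (.leaf 3)))) (.leaf 3))) (.sR 2208 (.sg 76 (.sR 1968 (.sR 1824 (.sR 1776 (.leaf 0x3a0880000006009128a5196c5253a1080) (.leaf 0x4008c0000406009130a15708425401080)) (.sR 1872 (.leaf 0x3a08c000b006009130acf8004253a1080) (.sR 1920 (.leaf 0x380900000806009138a9089a325381080)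 (.leaf 0x380940001406009140a514ff725381080)))) (.sR 2064 (.sR 2016 (.leaf 0x3c0980000c06009148a16a617253c1080) (.leaf 0x3c09c0001006009150a18716e253c1080)) (.sR 2112 (.sr 1728 (.leaf 0x440a0000180601c1589d846f525441080) (.leaf 0x420a0000180601f1589db056025421080)) (.sR 2160 (.leaf 0x420a400038060091609af0b274b421080) (.leaf 0x460a4000740600916896e017e4b461080))))) (.sR 1920 (.sr 1728 (.sR 1776 (.leaf 0x3c0880002c0600f128a514cc1253c1080) (.sR 1824 (.leaf 0x3e08c000600600f130a283d074b3e1080) (.sR 1872 (.sR 1848 (.leaf 0x3a08c000640600f130acf8004253a1080) (.leaf 0x3a08c0006c0600f130b0e6176253a1080)) (.sR 1896 (.sg 78 (.leaf 0x38090000340601d138a9089a325381080) (.leaf 3)) (.leaf 3))))) (.sR 1776 (.leaf 0x3a0880002c06010128a64bfb74b3a1080) (.sR 1824 (.sR 1800 (.leaf 0x3a0880010406010128b0ec4eb253a1080) (.leaf 0x3c08c0010806010130a908449253c1080)) (.leaf 3)))) (.leaf 3))) (.leaf 3))) (.leaf 3))))))))) (.sR 672 (.leaf 0x4a0000000010016040801268e974a1200) (.sR 720 (.leaf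 0x4a00000000120160487c0672c974a1200) (.sg 72 (.sR 1344 (.sR 1056 (.sR 912 (.sR 816 (.leaf 0x4600000000140230507c34fd397461180) (.sR 864 (.leaf 0x440280004406005068a851a364b441100) (.leaf 0x4203c0009006005090bce11ac71421100))) (.sR 960 (.leaf 0x42024000d40600506078827ef97421100) (.sR 1008 (.leaf 0x3c0400004806005098b4e15c64b3c1100) (.leaf 0x3c0480004c060050a8a925abc4b3c1100)))) (.sR 1200 (.sR 1104 (.leaf 0x3c04c00050060050b0a5427804b3c1100) (.sR 1152 (.leaf 0x44830000dc060000780000000c043d084) (.leaf 0x44044000e0060000a0c0231384b441080))) (.sR 1248 (.leaf 0x3a05c000e4060000d0ccd0c474b3a1080) (.sR 1296 (.leaf 0x3e050000f0060000b8d4544be4b3e1080) (.leaf 0x3c054000f4060000c0d0674ff4b3c1080))))) (.sR 1632 (.sR 1488 (.sR 1392 (.leaf 0x40054000f8060000c0bc5915b71401080) (.sR 1440 (.leaf 0x4e06800054060050e88272e36974e1100) (.leaf 0x5006c00058060050f07e455b197501100))) (.sR 1536 (.leaf 0x4c06c00020060050f07f00ba9974c1100) (.sR 1584 (.leaf 0x4e07000024060050f87ad8fb2974e1100)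 (.leaf 0x4e07000028060050f876a3f2b974e1100)))) (.sR 1776 (.sR 1680 (.leaf 0x38080000ac06000118ad502534b381080) (.sR 1728 (.leaf 0x4c0700005c060050f86f2e56d974c1100) (.leaf 0x3c0880000006000128a61e0904b3c1080))) (.sR 1872 (.sR 1824 (.leaf 0x4008c0000406000130a24671d4b401080) (.sr 1920 (.leaf 0x3a0880006808002130acf8004253a1080) (.leaf 0x380880006808006130ad44eb04b381080))) (.sR 1920 (.leaf 0x380900000806000138a99a7824b381080) (.sr 1920 (.sR 2208 (.sR 2064 (.sR 1968 (.leaf 0x3c0900010c08002140a50a9ca253c1080) (.sR 2016 (.leaf 0x3a0980000c06002148a1896be253a1080) (.leaf 0x3a09c0001006002150a1a669c253a1080))) (.sR 2112 (.leaf 0x3e098000c0080021589ee938a4b3e1080) (.sR 2160 (.leaf 0x420a000124080021609af0b274b421080) (.leaf 0x460a4000700800216896e017e4b461080)))) (.sR 2352 (.sR 2256 (.leaf 0x460a8000780800217096f98244b461080) (.sR 2304 (.leaf 0x4a0ac0012c0800217892f6fb3714a1080) (.leaf 0x440ac00134080021789abbfae71441080))) (.sR 2400 (.leaf 0x3e0b00003c060021789eef418713e1080)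 (.sR 2448 (.leaf 0x3e0b000088060021789ad43ae713e1080) (.leaf 0x3e0b00008c0600217896c9a02713e1080))))) (.sR 2160 (.sR 2016 (.sR 1968 (.leaf 0x380940001406006140a514ff725381080) (.leaf 0x3c0980000c06006148a16a617253c1080)) (.sR 2064 (.leaf 0x3c09c0001006006150a18716e253c1080) (.sR 2112 (.leaf 0x420a000018060061589db056025421080) (.leaf 0x420a400038060061609af0b274b421080)))) (.sR 2304 (.sR 2208 (.leaf 0x460a4000700800616896e017e4b461080) (.sR 2256 (.leaf 0x460a8000780800617096f98244b461080) (.leaf 0x4a0b0000800600617892f6fb3714a1080))) (.sR 2352 (.leaf 0x440b000084060061789abbfae71441080) (.sR 2400 (.leaf 0x3e0b00003c060061789eef418713e1080) (.leaf 3))))))))))) (.sR 1296 (.sR 1008 (.sR 864 (.sR 816 (.sr 1920 (.sR 768 (.leaf 0x4a0000000014022050745a180974a1200) (.leaf 0x4202c0001c06002070c46642c71421100)) (.sR 768 (.leaf 0x48000000001402605074a3b6497481200) (.leaf 0x440280001c06006068b83e49171441100))) (.leaf 0x46020000c806000058880693897461100)) (.sR 912 (.leaf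 0x4a02c0009006000070a40afcb714a1100) (.sR 960 (.leaf 0x4602c000d80600007094265d897461100) (.leaf 0x4204800048060000a8a55d14f71421100)))) (.sR 1152 (.sR 1056 (.leaf 0x4404c0004c060000b0a12af214b441100) (.sR 1104 (.leaf 0x4a05000050060000b899211c84b4a1100) (.leaf 0x4a05400094060000c095c002e714a1100))) (.sR 1200 (.leaf 0x4c05800098060000c891ccf1b714c1100) (.sR 1248 (.leaf 0x5005c0009c060000d08d4605071501100) (.leaf 0x52060000ec060000d8852f35f97521100))))) (.sR 1536 (.sR 1392 (.sR 1344 (.leaf 0x4e060000a0060000d889bcfb7714e1100) (.leaf 0x4c064000a4060000e0869e56a974c1100)) (.sR 1440 (.leaf 0x4e06800054060000e88272e36974e1100) (.sR 1488 (.leaf 0x4a06800058060000e88326c11974a1100) (.leaf 0x4e06c00020060000f07e400b8974e1100)))) (.sR 1680 (.sR 1584 (.leaf 0x4c06c00024060000f07ac3494974c1100) (.sR 1632 (.leaf 0x4c06c00028060000f076978a9974c1100) (.leaf 0x4c06c000a8060000f07286c3f974c1100))) (.sR 1728 (.leaf 0x4e0700005c060000f86e87280974e1100) (.sR 2064 (.sr 1920 (.sg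 76 (.sR 1872 (.sR 1776 (.leaf 0x3a088000000600d128a5196c5253a1080) (.sR 1824 (.leaf 0x4008c000040600d130a15708425401080) (.sr 1856 (.leaf 0x3808c0003006020130acfc7aa25381080) (.leaf 0x3a08c0003006024130acf8004253a1080)))) (.sR 1968 (.sR 1920 (.leaf 0x38090000080600d138a9089a325381080) (.leaf 0x3a094000140600d140a51033f253a1080)) (.sR 2016 (.leaf 0x3e0980000c0600d148a147ab4253e1080) (.leaf 0x3e09c000100600d150a164127253e1080)))) (.sR 1776 (.sr 1856 (.sR 1752 (.leaf 0x3a0840010006021120b12137a4b3a1080) (.leaf 3)) (.leaf 3)) (.leaf 3))) (.sR 1920 (.sg 76 (.sR 1824 (.sR 1776 (.leaf 0x3c0880000006011128a61e0904b3c1080) (.leaf 0x3e08c0000406011130a283d074b3e1080)) (.sR 1872 (.sr 1984 (.leaf 0x3a08c0003006025130acf8004253a1080) (.leaf 3)) (.leaf 0x3a0900000806011138a96b5934b3a1080))) (.leaf 3)) (.leaf 3))) (.leaf 3))))))))))))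
theorem k47 : ChunkP 60 61 1536 2048 64 80 0 2484 :=
  chkD_sound (Q := 40) (C := [c807.c, c739.c, c797.c, c738.c, c724.c, c806.c, c832.c, c723.c, c773.c, c774.c, c717.c, c737.c, c757.c, c798.c, c716.c, c764.c, c781.c, c833.c, c715.c, c744.c, c755.c, c756.c, c803.c, c718.c, c732.c, c733.c, c735.c, c748.c, c762.c, c763.c, c769.c, c780.c, c787.c, c788.c, c792.c, c804.c, c814.c, c825.c, c828.c])
    (T := [f_w432_444_8_20_40, f_w444_456_8_20_40, f_w468_480_8_20_35, f_w492_504_8_20_30, f_w504_516_8_20_30, f_w480_492_8_10_15e, f_w516_528_8_25_40, f_w192_204_16_10_40, f_w372_384_16_20_45, f_w384_396_16_20_45, f_w396_408_16_10_30, f_w432_444_8_10_20e, f_w456_468_8_30_40, f_w468_474_8_5_20e, f_w528_540_8_20_30, f_w588_600_8_20_20, f_w180_192_16_10_40, f_w204_216_16_10_40, f_w240_252_16_15_45, f_w252_264_16_15_40, f_w264_276_16_15_40, f_w348_360_16_15_35, f_w360_372_16_15_35, f_w420_432_16_15_30, f_w444_456_8_10_15e, f_w456_462_8_10_30e, f_w456_468_8_10_30, f_w462_468_8_10_20e,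 f_w540_552_8_15_30, f_w540_552_8_20_30, f_w552_564_8_15_30, f_w552_564_8_20_30, f_w564_576_8_20_30, f_w576_588_8_20_20, f_w600_612_8_20_20, f_w612_624_8_20_20, f_w216_228_16_20_40, f_w276_288_16_15_40, f_w288_300_16_15_45, f_w300_312_16_15_40, f_w324_336_16_15_40, f_w336_348_16_10_35, f_w408_420_16_10_30, f_w408_420_8_20_40, f_w456_468_8_5_15e, f_w474_480_8_10_20e, f_w480_486_8_10_20e, f_w486_492_8_5_20e, f_w516_528_8_10_20, f_w168_180_16_10_40, f_w204_216_16_10_30e, f_w216_228_16_10_40e, f_w228_240_16_10_35e, f_w228_240_16_10_40, f_w228_240_16_20_55, f_w276_288_8_10_35e, f_w288_300_8_10_35e, f_w300_312_8_10_25e, f_w312_324_16_10_35e, f_w312_324_16_20_45, f_w312_324_8_10_30e, f_w324_336_8_10_35e, f_w336_348_8_10_30e, f_w420_432_8_25_40, f_w432_438_8_10_25e, f_w444_450_8_10_30e, f_w450_456_8_10_30e, f_w480_492_8_10_20, f_w492_498_8_10_20e, f_w498_504_8_10_20e, f_w504_510_8_5_15e, f_w510_516_8_5_15e, f_w516_528_8_5_10e, f_w528_540_8_10_20, f_w564_576_8_10_10e, f_w564_576_8_10_20,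 f_w576_588_8_10_10e, f_w576_588_8_10_25, f_w588_600_8_10_10e]) (t := t47)
    (all_cons p807 (all_cons p739 (all_cons p797 (all_cons p738 (all_cons p724 (all_cons p806 (all_cons p832 (all_cons p723 (all_cons p773 (all_cons p774 (all_cons p717 (all_cons p737 (all_cons p757 (all_cons p798 (all_cons p716 (all_cons p764 (all_cons p781 (all_cons p833 (all_cons p715 (all_cons p744 (all_cons p755 (all_cons p756 (all_cons p803 (all_cons p718 (all_cons p732 (all_cons p733 (all_cons p735 (all_cons p748 (all_cons p762 (all_cons p763 (all_cons p769 (all_cons p780 (all_cons p787 (all_cons p788 (all_cons p792 (all_cons p804 (all_cons p814 (all_cons p825 (all_cons p828 all_nil))))))))))))))))))))))))))))))))))))))) (all_cons f_w432_444_8_20_40_p (all_cons f_w444_456_8_20_40_p (all_cons f_w468_480_8_20_35_p (all_cons f_w492_504_8_20_30_p (all_cons f_w504_516_8_20_30_p (all_cons f_w480_492_8_10_15e_p (all_cons f_w516_528_8_25_40_p (all_cons f_w192_204_16_10_40_p (all_cons f_w372_384_16_20_45_p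 (all_cons f_w384_396_16_20_45_p (all_cons f_w396_408_16_10_30_p (all_cons f_w432_444_8_10_20e_p (all_cons f_w456_468_8_30_40_p (all_cons f_w468_474_8_5_20e_p (all_cons f_w528_540_8_20_30_p (all_cons f_w588_600_8_20_20_p (all_cons f_w180_192_16_10_40_p (all_cons f_w204_216_16_10_40_p (all_cons f_w240_252_16_15_45_p (all_cons f_w252_264_16_15_40_p (all_cons f_w264_276_16_15_40_p (all_cons f_w348_360_16_15_35_p (all_cons f_w360_372_16_15_35_p (all_cons f_w420_432_16_15_30_p (all_cons f_w444_456_8_10_15e_p (all_cons f_w456_462_8_10_30e_p (all_cons f_w456_468_8_10_30_p (all_cons f_w462_468_8_10_20e_p (all_cons f_w540_552_8_15_30_p (all_cons f_w540_552_8_20_30_p (all_cons f_w552_564_8_15_30_p (all_cons f_w552_564_8_20_30_p (all_cons f_w564_576_8_20_30_p (all_cons f_w576_588_8_20_20_p (all_cons f_w600_612_8_20_20_p (all_cons f_w612_624_8_20_20_p (all_cons f_w216_228_16_20_40_p (all_cons f_w276_288_16_15_40_p (all_cons f_w288_300_16_15_45_p (all_cons f_w300_312_16_15_40_p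 (all_cons f_w324_336_16_15_40_p (all_cons f_w336_348_16_10_35_p (all_cons f_w408_420_16_10_30_p (all_cons f_w408_420_8_20_40_p (all_cons f_w456_468_8_5_15e_p (all_cons f_w474_480_8_10_20e_p (all_cons f_w480_486_8_10_20e_p (all_cons f_w486_492_8_5_20e_p (all_cons f_w516_528_8_10_20_p (all_cons f_w168_180_16_10_40_p (all_cons f_w204_216_16_10_30e_p (all_cons f_w216_228_16_10_40e_p (all_cons f_w228_240_16_10_35e_p (all_cons f_w228_240_16_10_40_p (all_cons f_w228_240_16_20_55_p (all_cons f_w276_288_8_10_35e_p (all_cons f_w288_300_8_10_35e_p (all_cons f_w300_312_8_10_25e_p (all_cons f_w312_324_16_10_35e_p (all_cons f_w312_324_16_20_45_p (all_cons f_w312_324_8_10_30e_p (all_cons f_w324_336_8_10_35e_p (all_cons f_w336_348_8_10_30e_p (all_cons f_w420_432_8_25_40_p (all_cons f_w432_438_8_10_25e_p (all_cons f_w444_450_8_10_30e_p (all_cons f_w450_456_8_10_30e_p (all_cons f_w480_492_8_10_20_p (all_cons f_w492_498_8_10_20e_p (all_cons f_w498_504_8_10_20e_p (all_cons f_w504_510_8_5_15e_p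 (all_cons f_w510_516_8_5_15e_p (all_cons f_w516_528_8_5_10e_p (all_cons f_w528_540_8_10_20_p (all_cons f_w564_576_8_10_10e_p (all_cons f_w564_576_8_10_20_p (all_cons f_w576_588_8_10_10e_p (all_cons f_w576_588_8_10_25_p (all_cons f_w588_600_8_10_10e_p all_nil)))))))))))))))))))))))))))))))))))))))))))))))))))))))))))))))))))))))))))))))
    (by decide +kernel)
def t48 : Tree := (.sR 384 (.leaf 0x460000000004001010a0697394b460f00) (.leaf 0x4400000000060000189408a5771441280))
theorem k48 : ChunkP 60 61 1536 2048 80 96 0 432 :=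
  chkD_sound (Q := 40) (C := [c746.c, c749.c])
    (T := []) (t := t48)
    (all_cons p746 (all_cons p749 all_nil)) all_nil
    (by decide +kernel)
def t49 : Tree := (.sR 528 (.leaf 0x4600000000080190207c1078097461280) (.sg 88 (.sR 624 (.leaf 0x48000000000e0180387821e4d97481280) (.sr 1664 (.sR 1104 (.sR 912 (.sR 816 (.sR 768 (.sg 84 (.sR 672 (.leaf 0x46000000000e010038782953897461200) (.sR 720 (.leaf 0x4401400014060020408c226dd71441100) (.leaf 0x4002c0003c06002070d4825c171401100))) (.sR 720 (.sr 1600 (.sR 672 (.leaf 0x4400c000780600e0307c0ef7b97441100) (.leaf 0x44014000140600e0408c05d0197441100)) (.sR 672 (.leaf 0x46000000000e011038782953897461200) (.leaf 0x44010000140601e0387c03ac197441100))) (.leaf 0x46018000180600d0488c231fe71461100))) (.leaf 0x440180001c060000487c132c097441100)) (.sR 864 (.leaf 0x420400004c06000098a9661ed71421100) (.leaf 0x4404400010060000a0a59861771441100))) (.sR 1008 (.sR 960 (.leaf 0x4602c000500600007094265d897461100) (.leaf 0x4a04c00024060000b099db948714a1100))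 (.sR 1056 (.leaf 0x4604c00094060000b0a14971771461100) (.leaf 0x4a0500002c060000b899211c84b4a1100)))) (.sR 1296 (.sR 1200 (.sR 1152 (.leaf 0x4805400058060000c09649a3671481100) (.leaf 0x4c0580005c060000c891ccf1b714c1100)) (.sR 1248 (.leaf 0x5005c00060060000d08d4605071501100) (.leaf 0x4a05c00064060000d091bdd7c714a1100))) (.sR 1440 (.sR 1392 (.sg 84 (.sR 1344 (.leaf 0x4c06000030060020d88a4d1e1714c1100) (.leaf 0x5206400034060020e08548ccf71521100)) (.sR 1344 (.leaf 0x4a060000300600d0d88ac4400974a1100) (.leaf 0x4c064000340600d0e0869e56a974c1100))) (.leaf 0x4a0640009c060000e0868b431974a1100)) (.sR 1488 (.leaf 0x4c064000a4060000e08188b5c974c1100) (.sg 84 (.sR 1584 (.sR 1536 (.leaf 0x4c06c00068060020f07f00ba9974c1100) (.leaf 0x4e0700006c060020f87ad8fb2974e1100)) (.sR 1632 (.leaf 0x4e07000070060020f876a3f2b974e1100) (.sR 1680 (.leaf 0x4e070000ac060020f87284935974e1100) (.leaf 0x4e074000b0060021006f281a0974e1100)))) (.leaf 3)))))) (.sR 1056 (.sR 912 (.sR 864 (.sg 84 (.sR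 768 (.sR 720 (.leaf 0x480000000010023040746e92997481200) (.leaf 0x4402c0003c06001070d467f0071441100)) (.sR 816 (.leaf 0x4003c0004406001090ad5935a71401100) (.leaf 0x400400002006001098a9371cf4b401100))) (.sR 720 (.sR 672 (.leaf 0x46000000000e015038782953897461200) (.sr 1728 (.leaf 0x4401000014060210387c03ac197441100) (.leaf 0x480000000010016040746e92997481200))) (.sR 768 (.leaf 0x44014000180600c0407c04a9d97441100) (.sR 816 (.leaf 0x44018000440600c0487c132c097441100) (.leaf 0x42040000200600c098a9661ed71421100))))) (.leaf 0x420400001006005098b1270e271421100)) (.sR 960 (.leaf 0x4a04800028060050a89d46dc3714a1100) (.sR 1008 (.leaf 0x4c04c00024060050b0995499f714c1100) (.leaf 0x4c05000054060050b896136c6974c1100)))) (.sR 1200 (.sR 1104 (.leaf 0x4c0500002c060050b898f0f724b4c1100) (.sR 1152 (.leaf 0x4a05400058060050c095c002e714a1100) (.leaf 0x4e0580005c060050c8913d940714e1100))) (.sR 1248 (.leaf 0x4c05c00060060050d08e54461974c1100) (.sR 1632 (.sg 84 (.sR 1440 (.sR 1344 (.sR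 1296 (.leaf 0x4e06000098060010d886a7c29974e1100) (.leaf 0x5206400030060010e081b72ee97521100)) (.sR 1392 (.leaf 0x5006400034060010e085ced2571501100) (.leaf 0x4e068000a0060010e88272e36974e1100))) (.sR 1536 (.sR 1488 (.leaf 0x4e06c000a8060010f07f068cf974e1100) (.leaf 0x4c06c00068060010f07f00ba9974c1100)) (.sR 1584 (.leaf 0x4e0700006c060010f87ad8fb2974e1100) (.leaf 0x4e07000070060010f876a3f2b974e1100)))) (.sR 1296 (.leaf 0x50060000640600c0d885eb17697501100) (.leaf 3))) (.leaf 3))))))) (.sR 576 (.leaf 0x46000000000a01a02878171e697461280) (.sR 1104 (.sr 1664 (.sg 92 (.sR 960 (.sR 624 (.leaf 0x48000000000e0100387820cee97481280) (.sR 912 (.sr 1600 (.sR 768 (.sR 720 (.sR 672 (.sR 648 (.leaf 0x440100003806003038940523d71441100) (.leaf 0x440140000406003040a00a92c71441100)) (.sR 696 (.leaf 0x400300000806003078ccd4cf971401100) (.leaf 0x4401000000060030387c03ac197441100))) (.leaf 0x43c1000018060030380000000d0435104)) (.sR 816 (.leaf 0x3e03c0001c06003090ad71d97713e1100) (.sR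 864 (.leaf 0x460200002006003058880693897461100) (.leaf 0x4204400010060030a0a54211f4b421100)))) (.sR 768 (.sR 720 (.sR 672 (.sR 648 (.leaf 0x48000000001001c040784847b97481280) (.leaf 0x440140000406006040a00a92c71441100)) (.sR 696 (.leaf 0x400300000806006078ccd4cf971401100) (.leaf 0x4401000000060060387c03ac197441100))) (.leaf 0x43c1000018060060380000000d0435104)) (.sR 816 (.leaf 0x4003c0001c06006090ad5935a71401100) (.sR 864 (.leaf 0x4501800020060060480000000d0445104) (.leaf 0x4204400010060060a0a54211f4b421100))))) (.leaf 0x4a048000280600b0a89d46dc3714a1100))) (.sR 1008 (.leaf 0x4c04c000240600b0b0995499f714c1100) (.sR 1056 (.leaf 0x4e050000540600b0b89564d90974e1100) (.leaf 0x4a0500002c0600b0b8992a878714a1100)))) (.sR 768 (.sr 1600 (.sR 648 (.sR 600 (.leaf 0x46000000000a017028782156897461200) (.sR 624 (.leaf 0x42008000740600a0287c0b82297421100) (.leaf 0x42c08000380600a0280000000c8429104))) (.sR 696 (.sR 672 (.leaf 0x42c08000040600a0280000000d0425104) (.leaf 0x4340c000080600a0300000000c8431104))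 (.sR 744 (.sg 94 (.sR 720 (.leaf 0x4340c000000600f0300000000d042d104) (.leaf 0x4300c0000c0600f0300000000d8429104)) (.leaf 3)) (.leaf 3)))) (.sR 624 (.leaf 0x46000000000e011038785494197461280) (.sR 720 (.sg 94 (.sR 672 (.sR 648 (.leaf 0x48000000001001d040784847b97481280) (.leaf 0x4401000004060120388c1a71271441100)) (.sR 696 (.leaf 0x440300000806012078ccdd9c797441100) (.sr 1632 (.leaf 0x44010000000601b0387c03ac197441100) (.leaf 3)))) (.leaf 3)) (.leaf 3)))) (.leaf 3))) (.sR 1008 (.sg 92 (.sR 624 (.leaf 0x46000000000c0240307c06c7297461200) (.sr 1728 (.sR 864 (.sR 768 (.sR 672 (.sR 648 (.leaf 0x46000000001001f040789474097461280) (.leaf 0x4401000004060040388c1a71271441100)) (.sR 696 (.leaf 0x460200000806004058cc1cbb197461100) (.sR 744 (.sg 90 (.sR 720 (.leaf 0x440340000006013080c0c87164b441100) (.leaf 0x3e0340000c06013080c4cd2aa4b3e1100)) (.sR 720 (.leaf 0x4201000000060140387c2715797421100) (.leaf 0x460180000c0601404894018f671461100))) (.leaf 0x43c1000080060040380000000d0435104))))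 (.sR 816 (.leaf 0x4601c0001c0600405088024d197461100) (.leaf 0x400400004c06004098a9c17a471401100))) (.sR 912 (.leaf 0x4204400010060040a0a54211f4b421100) (.sR 960 (.leaf 0x4804800050060040a89dc6a7471481100) (.leaf 0x4a04c00024060040b099db948714a1100)))) (.sR 912 (.sR 672 (.leaf 0x46000000000e026038782953897461200) (.sR 816 (.sR 744 (.sg 90 (.sR 696 (.leaf 0x4600000000100250407840ef897461200) (.sR 720 (.leaf 0x3e0340000006007080c10f322713e1100) (.leaf 0x400340000c06007080c4c4f7d4b401100))) (.sR 696 (.leaf 0x400300000806009078ccd4cf971401100) (.sR 720 (.leaf 0x4340c00000060090300000000d042d104) (.leaf 0x43c100000c060090380000000c8439104)))) (.sR 768 (.leaf 0x400380007c06008088b91efc071401100) (.sg 90 (.sR 792 (.leaf 0x3c0380004006007088c0e9d484b3c1100) (.leaf 0x3c03c0004806007090b5171544b3c1100)) (.sR 792 (.leaf 0x420380004006009088c0f705971421100) (.leaf 0x4403c0004806009090b4ee17f4b441100))))) (.sR 864 (.sR 840 (.leaf 0x4003c0008406008090b8eda144b401100) (.leaf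 0x3e0400008806008098ad25da04b3e1100)) (.sR 888 (.sg 90 (.leaf 0x3a0400008c06007098b1203124b3a1100) (.leaf 3)) (.leaf 0x4004400090060080a0a98260c71401100))))) (.sR 960 (.leaf 0x44c1c00028060080500000000e8445104) (.leaf 3))))) (.sR 624 (.leaf 0x46000000000e015038785494197461280) (.sR 672 (.sr 1728 (.sR 648 (.leaf 0x4a00000000100200407817ac5974a1280) (.sg 94 (.leaf 0x4200c00004060220307c18cdb97421100) (.leaf 3))) (.sR 648 (.leaf 0x480000000010016040784847b97481280) (.leaf 3))) (.leaf 3)))) (.leaf 3))) (.leaf 3)))))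
theorem k49 : ChunkP 60 61 1536 1792 80 96 432 1728 :=
  chkD_sound (Q := 40) (C := [c725.c, c774.c, c724.c, c719.c, c766.c, c775.c, c758.c, c782.c, c783.c, c784.c, c721.c, c727.c, c776.c, c726.c, c717.c, c720.c, c722.c, c754.c, c759.c, c765.c, c767.c, c771.c, c777.c, c714.c, c735.c, c736.c, c737.c, c751.c, c752.c, c753.c, c757.c, c760.c, c761.c, c764.c, c768.c, c770.c, c772.c, c778.c, c779.c])
    (T := [f_w174_180_16_15_45e, f_w162_168_16_10_35e, f_w168_174_16_10_45e, f_w180_186_16_15_45e, f_w216_228_16_10_40e, f_w168_180_16_10_40, f_w180_192_16_10_35e, f_w192_204_16_10_30e, f_w204_216_16_10_40, f_w240_252_16_10_35e, f_w228_240_16_10_35e, f_w264_276_16_10_30e, f_w324_336_16_15_40, f_w336_348_16_10_35, f_w156_162_16_10_40e, f_w180_192_16_10_40, f_w192_198_16_15_50e, f_w192_204_16_10_40, f_w198_204_16_15_50e, f_w204_216_16_10_30e, f_w228_240_16_10_40, f_w252_264_16_10_35e, f_w276_288_16_10_30e, f_w288_300_16_10_30e, f_w300_312_16_10_30e, f_w312_324_16_10_35e,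 f_w372_384_16_20_45, f_w384_396_16_20_45, f_w396_408_16_10_30, f_w150_156_16_10_35f, f_w156_168_16_10_45, f_w186_192_16_10_45f, f_w186_192_16_15_45e, f_w204_210_16_10_40e, f_w210_216_16_10_40e, f_w216_222_16_15_45e, f_w222_228_16_15_50e, f_w252_264_16_15_40, f_w312_324_16_20_45, f_w348_360_16_10_30e, f_w348_360_16_15_35, f_w360_372_16_10_25e, f_w360_372_16_15_35, f_w408_420_16_10_30, f_w420_432_16_15_30]) (t := t49)
    (all_cons p725 (all_cons p774 (all_cons p724 (all_cons p719 (all_cons p766 (all_cons p775 (all_cons p758 (all_cons p782 (all_cons p783 (all_cons p784 (all_cons p721 (all_cons p727 (all_cons p776 (all_cons p726 (all_cons p717 (all_cons p720 (all_cons p722 (all_cons p754 (all_cons p759 (all_cons p765 (all_cons p767 (all_cons p771 (all_cons p777 (all_cons p714 (all_cons p735 (all_cons p736 (all_cons p737 (all_cons p751 (all_cons p752 (all_cons p753 (all_cons p757 (all_cons p760 (all_cons p761 (all_cons p764 (all_cons p768 (all_cons p770 (all_cons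 p772 (all_cons p778 (all_cons p779 all_nil))))))))))))))))))))))))))))))))))))))) (all_cons f_w174_180_16_15_45e_p (all_cons f_w162_168_16_10_35e_p (all_cons f_w168_174_16_10_45e_p (all_cons f_w180_186_16_15_45e_p (all_cons f_w216_228_16_10_40e_p (all_cons f_w168_180_16_10_40_p (all_cons f_w180_192_16_10_35e_p (all_cons f_w192_204_16_10_30e_p (all_cons f_w204_216_16_10_40_p (all_cons f_w240_252_16_10_35e_p (all_cons f_w228_240_16_10_35e_p (all_cons f_w264_276_16_10_30e_p (all_cons f_w324_336_16_15_40_p (all_cons f_w336_348_16_10_35_p (all_cons f_w156_162_16_10_40e_p (all_cons f_w180_192_16_10_40_p (all_cons f_w192_198_16_15_50e_p (all_cons f_w192_204_16_10_40_p (all_cons f_w198_204_16_15_50e_p (all_cons f_w204_216_16_10_30e_p (all_cons f_w228_240_16_10_40_p (all_cons f_w252_264_16_10_35e_p (all_cons f_w276_288_16_10_30e_p (all_cons f_w288_300_16_10_30e_p (all_cons f_w300_312_16_10_30e_p (all_cons f_w312_324_16_10_35e_p (all_cons f_w372_384_16_20_45_p (all_cons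 f_w384_396_16_20_45_p (all_cons f_w396_408_16_10_30_p (all_cons f_w150_156_16_10_35f_p (all_cons f_w156_168_16_10_45_p (all_cons f_w186_192_16_10_45f_p (all_cons f_w186_192_16_15_45e_p (all_cons f_w204_210_16_10_40e_p (all_cons f_w210_216_16_10_40e_p (all_cons f_w216_222_16_15_45e_p (all_cons f_w222_228_16_15_50e_p (all_cons f_w252_264_16_15_40_p (all_cons f_w312_324_16_20_45_p (all_cons f_w348_360_16_10_30e_p (all_cons f_w348_360_16_15_35_p (all_cons f_w360_372_16_10_25e_p (all_cons f_w360_372_16_15_35_p (all_cons f_w408_420_16_10_30_p (all_cons f_w420_432_16_15_30_p all_nil)))))))))))))))))))))))))))))))))))))))))))))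
    (by decide +kernel)
def t50 : Tree := (.sR 576 (.leaf 0x4c000000000e01c0387830e9a974c1300) (.sR 1488 (.sg 88 (.sR 672 (.leaf 0x4c000000001201d0487457645974c1280) (.sr 1920 (.sg 84 (.sR 1056 (.sR 864 (.sR 768 (.sR 720 (.leaf 0x4600000000100180407497d7797461200) (.leaf 0x4401c00074060000509c1e66771441100)) (.sR 816 (.leaf 0x480380001406000088c0a957e4b481100) (.leaf 0x440400001806000098a91e72a4b441100))) (.sR 960 (.sR 912 (.leaf 0x4204400040060000a0a54211f4b421100) (.leaf 0x480480002c060000a89d63c714b481100)) (.sR 1008 (.leaf 0x4c04c0004c060000b0994894e4b4c1100) (.leaf 0x4c05000030060000b895e7d88714c1100)))) (.sR 1248 (.sR 1152 (.sR 1104 (.leaf 0x4805000034060000b8998007a4b481100) (.leaf 0x4c05400054060000c095658954b4c1100)) (.sR 1200 (.leaf 0x4a05800058060000c8925b6b0714a1100) (.leaf 0x4c05c0005c060000d08e67485714c1100))) (.sR 1344 (.sR 1296 (.leaf 0x4e06000060060000d886a7c29974e1100) (.leaf 0x5206400064060000e081b72ee97521100)) (.sR 1392 (.leaf 0x5006400068060000e085ced2571501100)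 (.sR 1440 (.leaf 0x4e068000b4060000e88272e36974e1100) (.leaf 0x4e06c000b8060000f07f068cf974e1100)))))) (.sR 1008 (.sR 864 (.sR 720 (.leaf 0x48000000001001a040746e92997481200) (.sr 1856 (.sR 768 (.leaf 0x4a0240003806008060bc0a5f1714a1100) (.sR 816 (.leaf 0x4203c0001406008090ad4c67471421100) (.leaf 0x420400001806008098a92b79b4b421100))) (.sR 768 (.leaf 0x4601400038060090407c28b7297461100) (.sR 816 (.leaf 0x4481400014060090400000000d043d104) (.leaf 0x420400001806009098a9661ed71421100))))) (.sR 912 (.leaf 0x460440003c060040a0a55b00871461100) (.sR 960 (.leaf 0x4804800088060040a89dc6a7471481100) (.leaf 0x4c04c00048060040b0995499f714c1100)))) (.sR 1104 (.sR 1056 (.leaf 0x4e0500009c060040b8955b5d6714e1100) (.leaf 0x4c050000a8060040b898f0f724b4c1100)) (.sR 1152 (.leaf 0x4a05400050060040c095c002e714a1100) (.sR 1200 (.leaf 0x4e058000b0060040c8913d940714e1100) (.leaf 3)))))) (.sR 720 (.leaf 0x480000000010012040746e92997481200) (.sR 1392 (.sg 84 (.sR 1056 (.sR 864 (.sR 768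 (.leaf 0x48000000001402b05074a3b6497481200) (.sR 816 (.leaf 0x4601800014060010487c1db6f97461100) (.leaf 0x4003c0001806001090b91c55571401100))) (.sR 960 (.sR 912 (.leaf 0x4404400040060010a0a59861771441100) (.leaf 0x480480002c060010a89dc6a7471481100)) (.sR 1008 (.leaf 0x4e04c0004c060010b098fe61e4b4e1100) (.leaf 0x4c05000030060010b895e7d88714c1100)))) (.sR 1200 (.sR 1104 (.leaf 0x4805000034060010b8998007a4b481100) (.sR 1152 (.leaf 0x4e05400054060010c0950631b4b4e1100) (.leaf 0x4a05800058060010c8925b6b0714a1100))) (.sR 1296 (.sR 1248 (.leaf 0x4e05c0005c060010d08dd6154714e1100) (.leaf 0x5006000060060010d885eb17697501100)) (.sR 1344 (.leaf 0x5406400064060010e080fbd7997541100) (.leaf 0x4c06400068060010e0869e56a974c1100))))) (.sR 1152 (.sr 1984 (.sR 960 (.sR 864 (.sR 816 (.sR 768 (.sR 744 (.leaf 0x480000000012027048747034397481200) (.leaf 0x4401400024060020407c04a9d97441100)) (.sR 792 (.leaf 0x420380000406002088c0f705971421100) (.leaf 0x3e03c0000006002090b543b62713e1100)))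 (.leaf 0x460240008406002060981329297461100)) (.sR 912 (.leaf 0x440440003c060020a0a59861771441100) (.leaf 0x4a0480002c060020a89d46dc3714a1100))) (.sR 1056 (.sR 1008 (.leaf 0x4a04c00048060020b099db948714a1100) (.leaf 0x4e05000030060020b89564d90974e1100)) (.sR 1104 (.leaf 0x4a05000034060020b8992a878714a1100) (.leaf 0x4805400050060020c09649a3671481100)))) (.sR 1104 (.sR 960 (.sR 744 (.leaf 0x480000000012031048747034397481200) (.sR 936 (.sg 86 (.sR 840 (.sR 792 (.leaf 0x4a0000000016030058747c21c974a1200) (.sR 816 (.leaf 0x4003c0000006003090b5052494b401100) (.leaf 0x3e03c0000c06003090b8f79f44b3e1100))) (.sR 888 (.sR 864 (.leaf 0x3e0400001006003098ad25da04b3e1100) (.leaf 0x3e0400001c06003098b10e4e04b3e1100)) (.sR 912 (.leaf 0x3e04400028060030a0a93deb44b3e1100) (.leaf 0x3c04400044060030a0ad3069b4b3c1100)))) (.sR 840 (.sR 768 (.leaf 0x480000000014032050749acfc97481200) (.sR 816 (.sr 2016 (.sR 792 (.leaf 0x400380000406014088c0d8d234b401100) (.leaf 0x4003c0000006014090b5052494b401100))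 (.sR 792 (.leaf 0x440380000406016088c0c33144b441100) (.leaf 0x4203c0000006016090b4fa3f04b421100))) (.leaf 0x4003c0000c06007090b91c55571401100))) (.sR 888 (.sR 864 (.leaf 0x440400001006007098ad025234b441100) (.leaf 0x3e0400001c06007098b143733713e1100)) (.sR 912 (.leaf 0x4404400028060070a0a9177f74b441100) (.leaf 0x4004400044060070a0ad1a25b4b401100))))) (.leaf 0x440480008c0600c0a8a1cf90871441100))) (.sR 1008 (.sR 984 (.sg 86 (.leaf 0x3e04800090060030a8a5533dc4b3e1100) (.leaf 3)) (.leaf 0x4a04c000940600c0b09d34994714a1100)) (.sR 1032 (.leaf 0x4604c000980600c0b0a14971771461100) (.sg 86 (.sR 1056 (.leaf 0x4a050000a0060030b89972fb44b4a1100) (.sR 1080 (.leaf 0x48050000a4060030b8998007a4b481100) (.leaf 0x42050000ac060030b89dc418a4b421100))) (.leaf 3))))) (.leaf 3))) (.leaf 3))) (.leaf 3))))) (.sR 912 (.sr 1920 (.sR 624 (.leaf 0x46000000000e019038785494197461280) (.sg 92 (.sR 672 (.leaf 0x46000000000e01b038782953897461200) (.sr 1856 (.sR 840 (.sR 816 (.sg 90 (.sR 744 (.sR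 720 (.leaf 0x4600000000100170407497d7797461200) (.leaf 0x440340000806006080c4b14d54b441100)) (.sR 768 (.leaf 0x420380002406006088b8e5f384b421100) (.sR 792 (.leaf 0x3e0380000406006088c0e1e964b3e1100) (.leaf 0x3e03c0000006006090b50ec164b3e1100)))) (.sR 744 (.sR 696 (.leaf 0x440100006c06010038840057a97441100) (.sr 1824 (.sR 720 (.leaf 0x44010000700600e0387c03ac197441100) (.leaf 0x46018000080600e04894003c297461100)) (.sR 720 (.leaf 0x48000000001001e040746e92997481200) (.sg 91 (.leaf 0x40034000080601f080c4c4f7d4b401100) (.leaf 3))))) (.sR 768 (.leaf 0x440380002006010088b8dace04b441100) (.leaf 3)))) (.leaf 0x450180000c0600f0480000000c8449104)) (.sR 864 (.leaf 0x42040000100600f098ad0f7cc4b421100) (.sg 90 (.sR 888 (.leaf 0x3c0400001c06006098b117e684b3c1100) (.leaf 0x3c04400028060060a0a947e894b3c1100)) (.leaf 3)))) (.sR 696 (.leaf 0x4c0000000014022050747b6b0974c1280) (.sR 888 (.sg 90 (.sR 792 (.sR 744 (.sR 720 (.leaf 0x4600000000100230407497d7797461200) (.leaf 0x4401400008060050408403aee97441100))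 (.sR 768 (.leaf 0x420380002406005088b91323671421100) (.leaf 0x440380000406005088c0c33144b441100))) (.sR 840 (.sR 816 (.leaf 0x4203c0000006005090b4fa3f04b421100) (.leaf 0x3e03c0000c06005090b8f79f44b3e1100)) (.sR 864 (.leaf 0x3e0400001006005098ad25da04b3e1100) (.leaf 0x3e0400001c06005098b10e4e04b3e1100)))) (.sR 744 (.sr 1888 (.sR 720 (.leaf 0x480000000010020040746e92997481200) (.sg 91 (.leaf 0x440340000806021080c4b14d54b441100) (.leaf 3))) (.sR 720 (.leaf 0x4600000000100240407497d7797461200) (.sg 91 (.leaf 0x400340000806025080c4eb9e171401100) (.leaf 3)))) (.leaf 3))) (.leaf 3))))) (.leaf 3))) (.sR 624 (.leaf 0x46000000000e012038785494197461280) (.sR 864 (.sg 92 (.sR 672 (.leaf 0x44000000000e02c038785d7e997441200) (.sr 1984 (.sR 696 (.leaf 0x4600000000100290407840ef897461200) (.sg 90 (.sR 768 (.sR 720 (.leaf 0x4600000000100280407497d7797461200) (.sR 744 (.sr 1952 (.leaf 0x480000000012026048747034397481200) (.leaf 0x48000000001202d048747034397481200)) (.leaf 0x46018000200600a0488c019d697461100)))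 (.sR 816 (.sr 1952 (.sR 792 (.leaf 0x420380000406011088c0ce91a4b421100) (.leaf 0x4203c0000006011090b4fa3f04b421100)) (.sR 792 (.leaf 0x420380000406013088c0f705971421100) (.leaf 0x4603c0000006013090b4e0bd54b461100))) (.sR 840 (.leaf 0x4603c0000c0600a090b8c88554b461100) (.leaf 0x40040000100600a098ad1b57b4b401100)))) (.sR 720 (.leaf 0x46000000001002a0407497d7797461200) (.leaf 3)))) (.sR 720 (.leaf 0x480000000010034040746e92997481200) (.sR 840 (.sg 90 (.sR 744 (.leaf 0x480000000012033048747034397481200) (.sr 2016 (.sg 89 (.sR 792 (.sR 768 (.leaf 0x4a000000001402e050745a180974a1200) (.leaf 0x46038000040600b088c0b6c124b461100)) (.sR 816 (.leaf 0x4403c000000600b090b4ee17f4b441100) (.leaf 0x4003c0000c0600b090b8eda144b401100))) (.sR 768 (.leaf 0x44038000200602f088b90564971441100) (.leaf 3))) (.sR 816 (.sg 89 (.sR 768 (.leaf 0x480000000014015050749acfc97481200) (.sR 792 (.sR 780 (.leaf 0x48000000001401505074a505397481200) (.leaf 0x40038000780600d088c0ceb524b401100)) (.sR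 804 (.leaf 0x4403c0007c0600d090b4ee17f4b441100) (.leaf 0x4203c000800600d090b4eddeb4b421100)))) (.sR 768 (.sR 756 (.leaf 0x4a00000000120350487106e45974a1200) (.leaf 3)) (.leaf 3))) (.leaf 3)))) (.leaf 3)) (.leaf 3))))) (.leaf 3)) (.leaf 3)))) (.leaf 3))) (.leaf 3)))
theorem k50 : ChunkP 60 61 1792 2048 80 96 432 1728 :=
  chkD_sound (Q := 40) (C := [c798.c, c833.c, c826.c, c845.c, c799.c, c816.c, c789.c, c847.c, c788.c, c815.c, c827.c, c838.c, c846.c, c851.c, c785.c, c790.c, c791.c, c820.c, c830.c, c835.c, c837.c, c848.c, c850.c, c786.c, c793.c, c794.c, c795.c, c796.c, c803.c, c804.c, c808.c, c809.c, c810.c, c811.c, c812.c, c813.c, c817.c, c818.c, c819.c, c821.c, c822.c, c823.c, c824.c, c829.c, c831.c, c834.c, c836.c, c839.c, c840.c, c841.c, c842.c, c843.c, c844.c, c849.c])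
    (T := [f_w198_204_16_15_50e, f_w192_198_16_15_50e, f_w180_186_16_15_45e, f_w204_210_16_10_40e, f_w210_216_16_10_40e, f_w192_204_16_10_40, f_w204_216_16_10_40, f_w216_222_16_15_45e, f_w186_192_16_10_45f, f_w186_192_16_15_45e, f_w222_228_16_15_50e, f_w228_240_16_10_40, f_w252_264_16_15_40, f_w264_276_16_15_40, f_w180_192_16_10_35e, f_w216_228_16_10_40e, f_w216_228_16_20_40, f_w228_234_16_15_50e, f_w240_252_16_10_35e, f_w240_252_16_15_45, f_w276_288_16_10_30e, f_w276_288_16_15_40, f_w288_300_16_15_45, f_w300_312_16_15_40, f_w312_324_16_20_45, f_w324_336_16_15_40, f_w336_348_16_10_35, f_w168_174_16_10_45e, f_w174_180_16_15_45e, f_w180_192_16_10_40, f_w195_198_16_12_45f, f_w198_201_16_15_45f, f_w201_204_16_15_45f, f_w204_216_16_10_30e, f_w228_240_16_10_35e, f_w234_240_16_10_40f, f_w240_246_16_15_45f, f_w246_252_16_15_45f, f_w252_258_16_15_45f, f_w252_264_16_10_35e, f_w258_264_16_15_45f, f_w264_270_16_15_45f, f_w264_276_16_10_30e, f_w270_276_16_15_45f, f_w288_300_16_10_30e,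 f_w348_360_16_15_35, f_w360_372_16_15_35]) (t := t50)
    (all_cons p798 (all_cons p833 (all_cons p826 (all_cons p845 (all_cons p799 (all_cons p816 (all_cons p789 (all_cons p847 (all_cons p788 (all_cons p815 (all_cons p827 (all_cons p838 (all_cons p846 (all_cons p851 (all_cons p785 (all_cons p790 (all_cons p791 (all_cons p820 (all_cons p830 (all_cons p835 (all_cons p837 (all_cons p848 (all_cons p850 (all_cons p786 (all_cons p793 (all_cons p794 (all_cons p795 (all_cons p796 (all_cons p803 (all_cons p804 (all_cons p808 (all_cons p809 (all_cons p810 (all_cons p811 (all_cons p812 (all_cons p813 (all_cons p817 (all_cons p818 (all_cons p819 (all_cons p821 (all_cons p822 (all_cons p823 (all_cons p824 (all_cons p829 (all_cons p831 (all_cons p834 (all_cons p836 (all_cons p839 (all_cons p840 (all_cons p841 (all_cons p842 (all_cons p843 (all_cons p844 (all_cons p849 all_nil)))))))))))))))))))))))))))))))))))))))))))))))))))))) (all_cons f_w198_204_16_15_50e_p (all_cons f_w192_198_16_15_50e_p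 (all_cons f_w180_186_16_15_45e_p (all_cons f_w204_210_16_10_40e_p (all_cons f_w210_216_16_10_40e_p (all_cons f_w192_204_16_10_40_p (all_cons f_w204_216_16_10_40_p (all_cons f_w216_222_16_15_45e_p (all_cons f_w186_192_16_10_45f_p (all_cons f_w186_192_16_15_45e_p (all_cons f_w222_228_16_15_50e_p (all_cons f_w228_240_16_10_40_p (all_cons f_w252_264_16_15_40_p (all_cons f_w264_276_16_15_40_p (all_cons f_w180_192_16_10_35e_p (all_cons f_w216_228_16_10_40e_p (all_cons f_w216_228_16_20_40_p (all_cons f_w228_234_16_15_50e_p (all_cons f_w240_252_16_10_35e_p (all_cons f_w240_252_16_15_45_p (all_cons f_w276_288_16_10_30e_p (all_cons f_w276_288_16_15_40_p (all_cons f_w288_300_16_15_45_p (all_cons f_w300_312_16_15_40_p (all_cons f_w312_324_16_20_45_p (all_cons f_w324_336_16_15_40_p (all_cons f_w336_348_16_10_35_p (all_cons f_w168_174_16_10_45e_p (all_cons f_w174_180_16_15_45e_p (all_cons f_w180_192_16_10_40_p (all_cons f_w195_198_16_12_45f_p (all_cons f_w198_201_16_15_45f_p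 (all_cons f_w201_204_16_15_45f_p (all_cons f_w204_216_16_10_30e_p (all_cons f_w228_240_16_10_35e_p (all_cons f_w234_240_16_10_40f_p (all_cons f_w240_246_16_15_45f_p (all_cons f_w246_252_16_15_45f_p (all_cons f_w252_258_16_15_45f_p (all_cons f_w252_264_16_10_35e_p (all_cons f_w258_264_16_15_45f_p (all_cons f_w264_270_16_15_45f_p (all_cons f_w264_276_16_10_30e_p (all_cons f_w270_276_16_15_45f_p (all_cons f_w288_300_16_10_30e_p (all_cons f_w348_360_16_15_35_p (all_cons f_w360_372_16_15_35_p all_nil)))))))))))))))))))))))))))))))))))))))))))))))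
    (by decide +kernel)
def t51 : Tree := (.leaf 3)
theorem k51 : ChunkP 60 61 1536 2048 80 96 1728 2484 :=
  chkD_sound (Q := 40) (C := [])
    (T := []) (t := t51)
    all_nil all_nil
    (by decide +kernel)
def t52 : Tree := (.sR 384 (.leaf 0x460000000004001010a096b0925460f00) (.sR 432 (.leaf 0x4800000000060000189863ef44b481200) (.leaf 3)))
theorem k52 : ChunkP 60 61 1536 2048 96 101 0 2484 :=
  chkD_sound (Q := 40) (C := [c747.c, c750.c])
    (T := []) (t := t52)
    (all_cons p747 (all_cons p750 all_nil)) all_nil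
    (by decide +kernel)

end Pool.Agent.Lib.MP_af3a4a_an.P1.CHK.DATA.N60x61
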