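import Pool.Agent.Lib.MP_af3a4a_an.P1.CHK.DATA.N60x61.K0
import Pool.Agent.Lib.MP_af3a4a_an.P1.CHK.DATA.N60x61.K1
import Pool.Agent.Lib.MP_af3a4a_an.P1.CHK.DATA.N60x61.K2
import Pool.Agent.Lib.MP_af3a4a_an.P1.CHK.DATA.N60x61.K3
import Pool.Agent.Lib.MP_af3a4a_an.P1.CHK.DATA.N60x61.K4
import Pool.Agent.Lib.MP_af3a4a_an.P1.CHK.DATA.N60x61.K5

/-! glue for 60 <= N <= 61 (generated) -/

set_option autoImplicit false
set_option maxRecDepth 100000

namespace Pool.Agent.Lib.MP_af3a4a_an.P1.CHK.DATA.N60x61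

open BOX

theorem g0 : ChunkP 60 61 0 512 64 96 0 2484 := ChunkP.g k1 k2
theorem g1 : ChunkP 60 61 0 512 64 101 0 2484 := ChunkP.g g0 k3
theorem g2 : ChunkP 60 61 0 512 0 101 0 2484 := ChunkP.g k0 g1
theorem g3 : ChunkP 60 61 512 768 80 96 1248 2484 := ChunkP.g k12 k13
theorem g4 : ChunkP 60 61 512 768 80 96 1200 2484 := ChunkP.R k11 g3
theorem g5 : ChunkP 60 61 512 768 80 96 1104 2484 := ChunkP.R k10 g4
theorem g6 : ChunkP 60 61 512 768 80 96 912 2484 := ChunkP.R k9 g5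
theorem g7 : ChunkP 60 61 512 768 80 96 480 2484 := ChunkP.R k8 g6
theorem g8 : ChunkP 60 61 768 896 80 88 1248 2484 := ChunkP.R k19 k20
theorem g9 : ChunkP 60 61 896 1024 80 88 1680 2484 := ChunkP.g k25 k26
theorem g10 : ChunkP 60 61 896 1024 80 88 1632 2484 := ChunkP.R k24 g9
theorem g11 : ChunkP 60 61 896 1024 80 88 1584 2484 := ChunkP.R k23 g10
theorem g12 : ChunkP 60 61 896 1024 80 88 1488 2484 := ChunkP.R k22 g11
theorem g13 : ChunkP 60 61 896 1024 80 88 1248 2484 := ChunkP.R k21 g12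
theorem g14 : ChunkP 60 61 768 1024 80 88 1248 2484 := ChunkP.r g8 g13
theorem g15 : ChunkP 60 61 768 1024 80 88 1200 2484 := ChunkP.R k18 g14
theorem g16 : ChunkP 60 61 768 1024 80 88 1104 2484 := ChunkP.R k17 g15
theorem g17 : ChunkP 60 61 768 1024 80 88 960 2484 := ChunkP.R k16 g16
theorem g18 : ChunkP 60 61 768 1024 80 88 576 2484 := ChunkP.R k15 g17
theorem g19 : ChunkP 60 61 768 1024 80 96 576 2484 := ChunkP.g g18 k27
theorem g20 : ChunkP 60 61 768 1024 80 96 480 2484 := ChunkP.R k14 g19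
theorem g21 : ChunkP 60 61 512 1024 80 96 480 2484 := ChunkP.r g7 g20
theorem g22 : ChunkP 60 61 512 1024 80 96 432 2484 := ChunkP.R k7 g21
theorem g23 : ChunkP 60 61 512 1024 80 96 0 2484 := ChunkP.R k6 g22
theorem g24 : ChunkP 60 61 512 1024 64 96 0 2484 := ChunkP.g k5 g23
theorem g25 : ChunkP 60 61 512 1024 64 101 0 2484 := ChunkP.g g24 k28
theorem g26 : ChunkP 60 61 512 1024 0 101 0 2484 := ChunkP.g k4 g25
theorem g27 : ChunkP 60 61 0 1024 0 101 0 2484 := ChunkP.r g2 g26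
theorem g28 : ChunkP 60 61 1024 1536 64 80 432 2484 := ChunkP.r k32 k33
theorem g29 : ChunkP 60 61 1024 1536 64 80 384 2484 := ChunkP.R k31 g28
theorem g30 : ChunkP 60 61 1024 1536 64 80 0 2484 := ChunkP.R k30 g29
theorem g31 : ChunkP 60 61 1024 1280 80 88 1248 2484 := ChunkP.r k41 k42
theorem g32 : ChunkP 60 61 1024 1280 80 88 1200 2484 := ChunkP.R k40 g31
theorem g33 : ChunkP 60 61 1024 1280 80 88 1104 2484 := ChunkP.R k39 g32
theorem g34 : ChunkP 60 61 1024 1280 80 88 960 2484 := ChunkP.R k38 g33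
theorem g35 : ChunkP 60 61 1024 1280 80 88 528 2484 := ChunkP.R k37 g34
theorem g36 : ChunkP 60 61 1024 1280 80 96 528 2484 := ChunkP.g g35 k43
theorem g37 : ChunkP 60 61 1024 1280 80 96 480 2484 := ChunkP.R k36 g36
theorem g38 : ChunkP 60 61 1024 1536 80 96 480 2484 := ChunkP.r g37 k44
theorem g39 : ChunkP 60 61 1024 1536 80 96 432 2484 := ChunkP.R k35 g38
theorem g40 : ChunkP 60 61 1024 1536 80 96 0 2484 := ChunkP.R k34 g39
theorem g41 : ChunkP 60 61 1024 1536 64 96 0 2484 := ChunkP.g g30 g40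
theorem g42 : ChunkP 60 61 1024 1536 64 101 0 2484 := ChunkP.g g41 k45
theorem g43 : ChunkP 60 61 1024 1536 0 101 0 2484 := ChunkP.g k29 g42
theorem g44 : ChunkP 60 61 1536 2048 80 96 432 1728 := ChunkP.r k49 k50
theorem g45 : ChunkP 60 61 1536 2048 80 96 432 2484 := ChunkP.R g44 k51
theorem g46 : ChunkP 60 61 1536 2048 80 96 0 2484 := ChunkP.R k48 g45
theorem g47 : ChunkP 60 61 1536 2048 64 96 0 2484 := ChunkP.g k47 g46
theorem g48 : ChunkP 60 61 1536 2048 64 101 0 2484 := ChunkP.g g47 k52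
theorem g49 : ChunkP 60 61 1536 2048 0 101 0 2484 := ChunkP.g k46 g48
theorem g50 : ChunkP 60 61 1024 2048 0 101 0 2484 := ChunkP.r g43 g49
theorem g51 : ChunkP 60 61 0 2048 0 101 0 2484 := ChunkP.r g27 g50
theorem g52 : ChunkP 60 61 2048 3072 0 101 0 2484 := ChunkP.r k53 k54
theorem g53 : ChunkP 60 61 2048 4096 0 101 0 2484 := ChunkP.r g52 k55
theorem g54 : ChunkP 60 61 0 4096 0 101 0 2484 := ChunkP.r g51 g53

/-- the whole box -/
theorem allBox : ChunkP 60 61 0 4096 0 101 0 2484 := g54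

theorem full {N : ℕ} (hNa : 60 ≤ N) (hNb : N ≤ 61) {z w : Fin N → ℂ} {R : ℝ} {σ : Fin N → ℂ}
    (hC : Pool.Agent.Lib.MP_af3a4a_an.P1.H80.Cfg2 N z w R σ) : ((2484 : ℕ) : ℝ) / 1024 < R := ChunkP.full allBox hNa hNb hC

end Pool.Agent.Lib.MP_af3a4a_an.P1.CHK.DATA.N60x61
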